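import Pool.Agent.Helper11.Cov.Rank1
import Pool.Agent.Helper10.SSRed
import Pool.Agent.Helper52.SmoothPrimes.Main

/-!
# Products of elliptic curves with `j`-invariant `0` or `1728`
-/

namespace Pool.Agent.Helper11.Cov

open WeierstrassCurve Finset Pool.Agent.Helper10.SS

section
variable {r : ℕ} [hr : Fact r.Prime]

lemma cube_injective (h3 : r % 3 = 2) : Function.Injective (fun x : ZMod r => x ^ 3) := by
  intro x y hxy
  have hxy' : x ^ 3 = y ^ 3 := hxy
  by_cases hy : y = 0
  · subst hy
    have : x ^ 3 = 0 := by rw [hxy']; ring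
    exact pow_eq_zero_iff (by norm_num) |>.mp this
  have hx : x ≠ 0 := by
    rintro rfl
    apply hy
    have : y ^ 3 = 0 := by rw [← hxy']; ring
    exact pow_eq_zero_iff (by norm_num) |>.mp this
  -- `x / y` has order dividing `3` and `r - 1`
  have h1 : (x / y) ^ 3 = 1 := by rw [div_pow, hxy', div_self (pow_ne_zero 3 hy)]
  have h2 : (x / y) ^ (r - 1) = 1 := ZMod.pow_card_sub_one_eq_one (div_ne_zero hx hy)
  have hcop : Nat.Coprime 3 (r - 1) := by
    rw [Nat.Prime.coprime_iff_not_dvd Nat.prime_three]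
    intro h
    have := hr.out.two_le
    omega
  have h4 : orderOf (x / y) ∣ Nat.gcd 3 (r - 1) :=
    Nat.dvd_gcd (orderOf_dvd_of_pow_eq_one h1) (orderOf_dvd_of_pow_eq_one h2)
  rw [hcop] at h4
  have h5 : x / y = 1 := orderOf_eq_one_iff.mp (Nat.dvd_one.mp h4)
  rwa [div_eq_one_iff_eq hy] at h5

theorem card_point_b (b : ZMod r) (hb : b ≠ 0) (h3 : r % 3 = 2) (hr2 : r ≠ 2) :
    Nat.card (EF (0 : ZMod r) b).Point = r + 1 := by
  classical
  have two : (2 : ZMod r) ≠ 0 := by
    intro h0
    have : ((2 : ℕ) : ZMod r) = 0 := by exact_mod_cast h0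
    rw [ZMod.natCast_eq_zero_iff] at this
    exact hr2 ((Nat.prime_dvd_prime_iff_eq hr.out Nat.prime_two).mp this)
  have three : (3 : ZMod r) ≠ 0 := by
    intro h0
    have : ((3 : ℕ) : ZMod r) = 0 := by exact_mod_cast h0
    rw [ZMod.natCast_eq_zero_iff] at this
    have := (Nat.prime_dvd_prime_iff_eq hr.out Nat.prime_three).mp this
    omega
  let S : Type := {p : ZMod r × ZMod r // p.2 ^ 2 = p.1 ^ 3 + b}
  have hns : ∀ p : S, (EF (0 : ZMod r) b).Nonsingular p.1.1 p.1.2 := by
    rintro ⟨⟨x, y⟩, h⟩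
    simp only at h ⊢
    apply nonsing_of
    · rw [h]; ring
    · by_contra hcon
      push Not at hcon
      obtain ⟨h5, h6⟩ := hcon
      have hy : y = 0 := (mul_eq_zero.mp h5).resolve_left two
      have hx : x = 0 := by
        have : 3 * x ^ 2 = 0 := by linear_combination h6
        exact pow_eq_zero_iff (by norm_num) |>.mp ((mul_eq_zero.mp this).resolve_left three)
      apply hb
      subst hy hx
      linear_combination -h
  have e : Option S ≃ (EF (0 : ZMod r) b).Point := by
    refine Equiv.ofBijective (fun o => match o with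
      | none => Affine.Point.zero
      | some p => .some p.1.1 p.1.2 (hns p)) ⟨?_, ?_⟩
    · rintro (_ | ⟨⟨x, y⟩, h⟩) (_ | ⟨⟨x', y'⟩, h'⟩) hh
      · rfl
      · simp at hh
      · simp at hh
      · simp only [Affine.Point.some.injEq] at hh
        obtain ⟨rfl, rfl⟩ := hh
        rfl
    · rintro (_ | ⟨x, y, h⟩)
      · exact ⟨none, rfl⟩
      · refine ⟨some ⟨(x, y), ?_⟩, rfl⟩
        have := (eqnF_iff x y).mp h.1
        simp only
        rw [this]; ring
  rw [← Nat.card_congr e, Nat.card_eq_fintype_card, Fintype.card_option]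
  congr 1
  have hbij : Function.Bijective (fun x : ZMod r => x ^ 3) :=
    Finite.injective_iff_bijective.mp (cube_injective h3)
  have hS : Fintype.card S = Fintype.card (ZMod r) := by
    apply Fintype.card_of_bijective (f := fun p : S => p.1.2)
    constructor
    · rintro ⟨⟨x, y⟩, h⟩ ⟨⟨x', y'⟩, h'⟩ hh
      simp only at h h' hh
      subst hh
      have : x = x' := hbij.1 (by simp only; linear_combination h' - h)
      subst this
      rfl
    · intro y
      obtain ⟨x, hx⟩ := hbij.2 (y ^ 2 - b)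
      refine ⟨⟨(x, y), ?_⟩, rfl⟩
      simp only at hx ⊢
      linear_combination -hx
  rw [hS, ZMod.card]

theorem kill_b (b : ℤ) (h3 : r % 3 = 2) (hr2 : r ≠ 2) (hrb : ¬ (r : ℤ) ∣ b)
    (P : (E 0 b).Point) : InH r ((r + 1) • P) := by
  have hg : GoodAt 0 b r := by
    refine ⟨hr2, ?_⟩
    intro h
    have h1 : (r : ℤ) ∣ 27 * b ^ 2 := by simpa using h
    have hp : Prime (r : ℤ) := Nat.prime_iff_prime_int.mp (Fact.out : r.Prime)
    rcases hp.dvd_mul.mp h1 with h2 | h2
    · have h3' : (r : ℤ) ∣ 3 ^ 3 := by norm_num; exact h2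
      have h4' := hp.dvd_of_dvd_pow h3'
      have h5 : r ∣ 3 := by exact_mod_cast h4'
      have := (Nat.prime_dvd_prime_iff_eq hr.out Nat.prime_three).mp h5
      omega
    · exact hrb (hp.dvd_of_dvd_pow h2)
  apply kill_of_card hg
  have hb : (b : ZMod r) ≠ 0 := by
    rwa [Ne, ZMod.intCast_zmod_eq_zero_iff_dvd]
  have h := card_point_b (b : ZMod r) hb h3 hr2
  have e : Er 0 b r = EF (0 : ZMod r) (b : ZMod r) := by
    simp [Er]
  rw [e]
  exact h

end

/-- The key property for products of elliptic curves with `j`-invariant `0` or `1728`. -/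
theorem key_cm {n : ℕ} (a b : Fin n → ℤ) (hab : ∀ i, (a i ≠ 0 ∧ b i = 0) ∨ (a i = 0 ∧ b i ≠ 0)) :
    Key a b := by
  have hg : ∀ i, Good (a i) (b i) := by
    intro i
    rcases hab i with ⟨h1, h2⟩ | ⟨h1, h2⟩
    · unfold Good; rw [h2]; simpa using h1
    · unfold Good; rw [h1]; simpa using h2
  refine ⟨fun i => ?_, fun C => ?_⟩
  · have hell := isElliptic (hg i)
    exact exists_generators (Pool.Agent.Helper51.MW.mordell_weil (E (a i) (b i)))
  · set B : ℕ := 3 + ∑ i, ((a i).natAbs + (b i).natAbs) with hB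
    obtain ⟨M, T, hM, hT, hcard⟩ := Pool.Agent.Helper52.SmoothPrimes.smooth_primes_class
      (D := 12) (by norm_num) 11 (by norm_num) B C
    refine ⟨M, by omega, T, fun r hr => ?_, hcard⟩
    obtain ⟨⟨hp, hr12⟩, hrB, hrM⟩ := hT r hr
    have hF : Fact r.Prime := ⟨hp⟩
    refine ⟨hF, by omega, fun i P => ?_⟩
    have hle : (a i).natAbs + (b i).natAbs ≤ ∑ i, ((a i).natAbs + (b i).natAbs) :=
      Finset.single_le_sum (f := fun i => (a i).natAbs + (b i).natAbs) (fun _ _ => Nat.zero_le _)
        (Finset.mem_univ i)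
    have hnd : ∀ t : ℤ, t ≠ 0 → t.natAbs ≤ (a i).natAbs + (b i).natAbs → ¬ (r : ℤ) ∣ t := by
      intro t ht htl hd
      have h1 := Int.natCast_dvd.mp hd
      have h2 := Nat.le_of_dvd (Int.natAbs_pos.mpr ht) h1
      omega
    obtain ⟨q, hq⟩ := hrM
    have key : InH r ((r + 1) • P) := by
      rcases hab i with ⟨h1, h2⟩ | ⟨h1, h2⟩
      · have h3 := hnd (a i) h1 (by omega)
        revert P
        rw [h2]
        intro P
        exact kill' (a i) r (by omega) h3 P
      · have h3 := hnd (b i) h2 (by omega)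
        revert P
        rw [h1]
        intro P
        exact kill_b (b i) (by omega) (by omega) h3 P
    have := key.nsmul q
    rwa [smul_smul, mul_comm, ← hq] at this

end Pool.Agent.Helper11.Cov
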