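import Pool.Agent.Helper11.Cov.Trans

/-!
# Integer coordinates of rational points on `y² = x³ + a x + b`
-/

namespace Pool.Agent.Helper11.Cov

open WeierstrassCurve

section
variable {a b : ℤ}

lemma nat_sq_cube {u v : ℕ} (hu : 0 < u) (h : v ^ 2 = u ^ 3) : ∃ t : ℕ, 0 < t ∧ u = t ^ 2 ∧ v = t ^ 3 := by
  have h1 : u ^ 2 ∣ v ^ 2 := ⟨u, by rw [h]; ring⟩
  have h2 : u ∣ v := (Nat.pow_dvd_pow_iff (by norm_num)).mp h1
  obtain ⟨t, rfl⟩ := h2
  have h3 : u ^ 2 * t ^ 2 = u ^ 2 * u := by rw [← mul_pow, h]; ring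
  have h4 : t ^ 2 = u := Nat.eq_of_mul_eq_mul_left (by positivity) h3
  subst h4
  refine ⟨t, Nat.pos_of_ne_zero ?_, rfl, by ring⟩
  rintro rfl
  simp at hu

/-- The denominators of the coordinates of a point are a square and a cube. -/
lemma At.den {P : (E a b).Point} {x y : ℚ} (h : At P x y) :
    ∃ D : ℕ, 0 < D ∧ x.den = D ^ 2 ∧ y.den = D ^ 3 ∧
      y.num ^ 2 = x.num ^ 3 + a * x.num * D ^ 4 + b * D ^ 6 := by
  have e := h.eqn
  set N : ℤ := x.num ^ 3 + a * x.num * x.den ^ 2 + b * x.den ^ 3 with hN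
  have hd0 : (x.den : ℚ) ≠ 0 := by exact_mod_cast x.den_ne_zero
  have hx : x = x.num / x.den := (Rat.num_div_den x).symm
  have e1 : y ^ 2 = (N : ℚ) / ((x.den ^ 3 : ℕ) : ℤ) := by
    rw [e]
    have : x ^ 3 + a * x + b = ((x.num : ℚ) / x.den) ^ 3 + a * ((x.num : ℚ) / x.den) + b := by
      rw [← hx]
    rw [this, hN]
    push_cast
    field_simp
  have hcop : IsCoprime x.num (x.den : ℤ) := by
    rw [Int.isCoprime_iff_nat_coprime]; simpa using x.reduced
  have hcopN : IsCoprime N ((x.den ^ 3 : ℕ) : ℤ) := by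
    push_cast
    apply IsCoprime.pow_right
    have h1 : IsCoprime (x.num ^ 3) (x.den : ℤ) := hcop.pow_left
    have h2 : N = x.num ^ 3 + (x.den : ℤ) * (a * x.num * x.den + b * x.den ^ 2) := by rw [hN]; ring
    rw [h2]
    exact IsCoprime.add_mul_left_left h1 _
  have hpos : (0:ℤ) < ((x.den ^ 3 : ℕ) : ℤ) := by
    have := x.den_pos; positivity
  have hden : (((y ^ 2).den : ℕ) : ℤ) = ((x.den ^ 3 : ℕ) : ℤ) := by
    rw [e1]
    exact Rat.den_div_eq_of_coprime hpos (by rwa [Int.isCoprime_iff_nat_coprime] at hcopN)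
  have hnum : (y ^ 2).num = N := by
    rw [e1]
    exact Rat.num_div_eq_of_coprime hpos (by rwa [Int.isCoprime_iff_nat_coprime] at hcopN)
  rw [Rat.den_pow] at hden
  rw [Rat.num_pow] at hnum
  have hden' : y.den ^ 2 = x.den ^ 3 := by exact_mod_cast hden
  obtain ⟨t, ht, h1, h2⟩ := nat_sq_cube x.den_pos hden'
  refine ⟨t, ht, h1, h2, ?_⟩
  rw [hnum, hN, h1]
  push_cast
  ring

/-- Integer coordinates. -/
def IRep (P : (E a b).Point) (A B D : ℤ) : Prop :=
  IsCoprime A D ∧ IsCoprime B D ∧ B ^ 2 = A ^ 3 + a * A * D ^ 4 + b * D ^ 6 ∧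
    ((P = 0 ∧ A = 1 ∧ B = 1 ∧ D = 0) ∨ ∃ x y, At P x y ∧ 0 < D ∧ x * D ^ 2 = A ∧ y * D ^ 3 = B)

lemma exists_irep (P : (E a b).Point) : ∃ A B D, IRep P A B D := by
  rcases zero_or P with rfl | ⟨x, y, h⟩
  · refine ⟨1, 1, 0, isCoprime_one_left, isCoprime_one_left, by ring, Or.inl ⟨rfl, rfl, rfl, rfl⟩⟩
  · obtain ⟨D, hD, h1, h2, h3⟩ := h.den
    have hx : x * x.den = x.num := Rat.mul_den_eq_num x
    have hy : y * y.den = y.num := Rat.mul_den_eq_num y
    have cx : IsCoprime x.num (x.den : ℤ) := by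
      rw [Int.isCoprime_iff_nat_coprime]; simpa using x.reduced
    have cy : IsCoprime y.num (y.den : ℤ) := by
      rw [Int.isCoprime_iff_nat_coprime]; simpa using y.reduced
    rw [h1] at cx hx
    rw [h2] at cy hy
    push_cast at cx cy hx hy
    refine ⟨x.num, y.num, D, (IsCoprime.pow_right_iff (by norm_num)).mp cx,
      (IsCoprime.pow_right_iff (by norm_num)).mp cy, h3, Or.inr ⟨x, y, h, by exact_mod_cast hD, ?_, ?_⟩⟩
    · exact_mod_cast hx
    · exact_mod_cast hy

section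
variable {l : ℕ} [hl : Fact l.Prime]

lemma norm_lt_one_iff_dvd (n : ℤ) : padicNorm l (n : ℚ) < 1 ↔ (l : ℤ) ∣ n := by
  exact padicNorm.int_lt_one_iff n

lemma IRep.inH_iff {P : (E a b).Point} {A B D : ℤ} (h : IRep P A B D) :
    InH l P ↔ (l : ℤ) ∣ D := by
  obtain ⟨c1, c2, -, h | ⟨x, y, hxy, hD, hx, hy⟩⟩ := h
  · obtain ⟨rfl, -, -, rfl⟩ := h
    simp [inH_zero]
  · rw [hxy.inH_iff]
    have hl1 : ¬ IsUnit (l : ℤ) := by
      rw [Int.isUnit_iff]
      have := hl.out.two_le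
      omega
    have hD0 : (D : ℚ) ≠ 0 := by exact_mod_cast hD.ne'
    have hDn : 0 < padicNorm l (D : ℚ) := lt_of_le_of_ne (padicNorm.nonneg _) (Ne.symm (padicNorm.nonzero hD0))
    have e : padicNorm l x * padicNorm l (D : ℚ) ^ 2 = padicNorm l (A : ℚ) := by
      rw [← norm_pow, ← padicNorm.mul, hx]
    constructor
    · intro h
      by_contra hc
      have : padicNorm l (D : ℚ) = 1 := by
        rw [padicNorm.int_eq_one_iff]; exact hc
      rw [this] at e
      have := padicNorm.of_int (p := l) A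
      nlinarith
    · intro h
      have hA : ¬ (l : ℤ) ∣ A := fun h' => hl1 (c1.isUnit_of_dvd' h' h)
      have hA1 : padicNorm l (A : ℚ) = 1 := by
        rw [padicNorm.int_eq_one_iff]; exact hA
      have hD1 : padicNorm l (D : ℚ) < 1 := (norm_lt_one_iff_dvd D).mpr h
      by_contra hc
      push Not at hc
      rw [hA1] at e
      have h0 : 0 ≤ padicNorm l x := padicNorm.nonneg _
      nlinarith

/-- If `P` and `P'` have the same reduction modulo `l`, the integer coordinates are proportional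
modulo `l`, with weights `2, 3, 1`. -/
lemma IRep.cong {P P' : (E a b).Point} {A B D A' B' D' : ℤ} (h : IRep P A B D)
    (h' : IRep P' A' B' D') (hH : InH l (P' - P)) :
    ∃ u : ZMod l, u ≠ 0 ∧ (A' : ZMod l) = u ^ 2 * A ∧ (B' : ZMod l) = u ^ 3 * B ∧
      (D' : ZMod l) = u * D := by
  by_cases hD : (l : ℤ) ∣ D
  · have hP : InH l P := h.inH_iff.mpr hD
    have hP' : InH l P' := by
      have := hH.add hP
      rwa [sub_add_cancel] at this
    have hD' : (l : ℤ) ∣ D' := h'.inH_iff.mp hP'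
    have hl1 : ¬ IsUnit (l : ℤ) := by
      rw [Int.isUnit_iff]
      have := hl.out.two_le
      omega
    have d0 : (D : ZMod l) = 0 := (ZMod.intCast_zmod_eq_zero_iff_dvd D l).mpr hD
    have d0' : (D' : ZMod l) = 0 := (ZMod.intCast_zmod_eq_zero_iff_dvd D' l).mpr hD'
    have nz : ∀ n : ℤ, ¬ (l : ℤ) ∣ n → (n : ZMod l) ≠ 0 := fun n hn h0 =>
      hn ((ZMod.intCast_zmod_eq_zero_iff_dvd n l).mp h0)
    have hA := nz A fun h0 => hl1 (h.1.isUnit_of_dvd' h0 hD)
    have hB := nz B fun h0 => hl1 (h.2.1.isUnit_of_dvd' h0 hD)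
    have hA' := nz A' fun h0 => hl1 (h'.1.isUnit_of_dvd' h0 hD')
    have hB' := nz B' fun h0 => hl1 (h'.2.1.isUnit_of_dvd' h0 hD')
    have e : (B : ZMod l) ^ 2 = A ^ 3 := by
      have := congrArg (Int.cast : ℤ → ZMod l) h.2.2.1
      push_cast at this
      rw [d0] at this
      simpa using this
    have e' : (B' : ZMod l) ^ 2 = A' ^ 3 := by
      have := congrArg (Int.cast : ℤ → ZMod l) h'.2.2.1
      push_cast at this
      rw [d0'] at this
      simpa using this
    refine ⟨(B' / A') / (B / A), by positivity, ?_, ?_, ?_⟩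
    · have h1 : ((B' : ZMod l) / A') ^ 2 = A' := by
        rw [div_pow, e']; field_simp
      have h2 : ((B : ZMod l) / A) ^ 2 = A := by
        rw [div_pow, e]; field_simp
      rw [div_pow, h1, h2]; field_simp
    · have h1 : ((B' : ZMod l) / A') ^ 3 = B' := by
        rw [div_pow, ← e']; field_simp
      have h2 : ((B : ZMod l) / A) ^ 3 = B := by
        rw [div_pow, ← e]; field_simp
      rw [div_pow, h1, h2]; field_simp
    · rw [d0, d0', mul_zero]
  · have hnP : ¬ InH l P := fun h0 => hD (h.inH_iff.mp h0)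
    have hnP' : ¬ InH l P' := by
      intro h0
      apply hnP
      have := h0.sub hH
      rwa [sub_sub_cancel] at this
    have hD' : ¬ (l : ℤ) ∣ D' := fun h0 => hnP' (h'.inH_iff.mpr h0)
    obtain ⟨-, -, -, ⟨rfl, -⟩ | ⟨x, y, hxy, hD1, hx, hy⟩⟩ := h
    · exact absurd inH_zero hnP
    obtain ⟨-, -, -, ⟨rfl, -⟩ | ⟨x', y', hxy', hD1', hx', hy'⟩⟩ := h'
    · exact absurd inH_zero hnP'
    have nx : padicNorm l x ≤ 1 := by
      by_contra hc
      push Not at hc
      exact hnP (hxy.inH_iff.mpr hc)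
    have nz : ∀ n : ℤ, ¬ (l : ℤ) ∣ n → (n : ZMod l) ≠ 0 := fun n hn h0 =>
      hn ((ZMod.intCast_zmod_eq_zero_iff_dvd n l).mp h0)
    have d0 := nz _ hD
    have d0' := nz _ hD'
    -- the coordinates are congruent
    have hcong : padicNorm l (x' - x) < 1 ∧ padicNorm l (y' - y) < 1 := by
      rcases zero_or (P' - P) with h0 | ⟨u, w, hS⟩
      · have : P' = P := sub_eq_zero.mp h0
        subst this
        obtain ⟨rfl, rfl⟩ := hxy.unique hxy'
        simp
      · obtain ⟨X, Y, hXY, hX, hY⟩ := hxy.add_inH_cong hS nx (hH u w hS)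
        rw [add_sub_cancel] at hXY
        obtain ⟨rfl, rfl⟩ := hXY.unique hxy'
        exact ⟨hX, hY⟩
    have hDn : padicNorm l (D : ℚ) = 1 := (padicNorm.int_eq_one_iff D).mpr hD
    have hDn' : padicNorm l (D' : ℚ) = 1 := (padicNorm.int_eq_one_iff D').mpr hD'
    have c1 : (l : ℤ) ∣ A' * D ^ 2 - A * D' ^ 2 := by
      rw [← norm_lt_one_iff_dvd]
      have : ((A' * D ^ 2 - A * D' ^ 2 : ℤ) : ℚ) = (x' - x) * (D * D') ^ 2 := by
        push_cast; rw [← hx, ← hx']; ring
      rw [this, padicNorm.mul, norm_pow, padicNorm.mul, hDn, hDn']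
      simpa using hcong.1
    have c2 : (l : ℤ) ∣ B' * D ^ 3 - B * D' ^ 3 := by
      rw [← norm_lt_one_iff_dvd]
      have : ((B' * D ^ 3 - B * D' ^ 3 : ℤ) : ℚ) = (y' - y) * (D * D') ^ 3 := by
        push_cast; rw [← hy, ← hy']; ring
      rw [this, padicNorm.mul, norm_pow, padicNorm.mul, hDn, hDn']
      simpa using hcong.2
    have c1' : (A' : ZMod l) * D ^ 2 = A * D' ^ 2 := by
      have := (ZMod.intCast_zmod_eq_zero_iff_dvd _ l).mpr c1
      push_cast at this
      linear_combination this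
    have c2' : (B' : ZMod l) * D ^ 3 = B * D' ^ 3 := by
      have := (ZMod.intCast_zmod_eq_zero_iff_dvd _ l).mpr c2
      push_cast at this
      linear_combination this
    refine ⟨(D' : ZMod l) / D, div_ne_zero d0' d0, ?_, ?_, ?_⟩
    · field_simp
      linear_combination c1'
    · field_simp
      linear_combination c2'
    · field_simp

end

end

end Pool.Agent.Helper11.Cov
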