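import Mathlib

/-!
# How often does a random monic polynomial of degree `m` over a finite field have a root?
-/

namespace Pool.Agent.Helper11.Cov

open Finset Polynomial

section
variable {F : Type*} [Field F] [Fintype F] [DecidableEq F]

/-- Image of a function with fibres of size at most `m` in terms of the number of collisions. -/
lemma image_collisions (g : F → F) (m : ℕ) (hm : ∀ v, #{Z | g Z = v} ≤ m) :
    m * #(univ.image g) + #{p : F × F | p.1 ≠ p.2 ∧ g p.1 = g p.2} ≤ m * Fintype.card F := by
  have h1 : Fintype.card F = ∑ v ∈ univ.image g, #{Z | g Z = v} := by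
    rw [← Finset.card_univ]
    exact Finset.card_eq_sum_card_image g univ
  have h2 : #{p : F × F | p.1 ≠ p.2 ∧ g p.1 = g p.2} =
      ∑ v ∈ univ.image g, #{Z | g Z = v} * (#{Z | g Z = v} - 1) := by
    have e : ({p : F × F | p.1 ≠ p.2 ∧ g p.1 = g p.2} : Finset (F × F)) =
        (univ.image g).biUnion fun v => ({Z | g Z = v} : Finset F).offDiag := by
      ext ⟨p, q⟩
      simp only [mem_filter, mem_univ, true_and, mem_biUnion, mem_image, mem_offDiag]
      constructor
      · rintro ⟨h, h'⟩
        exact ⟨g p, ⟨p, rfl⟩, rfl, h'.symm, h⟩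
      · rintro ⟨v, -, rfl, h', h⟩
        exact ⟨h, h'.symm⟩
    rw [e, Finset.card_biUnion]
    · refine Finset.sum_congr rfl fun v _ => ?_
      rw [Finset.offDiag_card, Nat.mul_sub, mul_one]
    · intro v _ w _ hvw
      simp only [Function.onFun]
      rw [Finset.disjoint_left]
      rintro ⟨p, q⟩ hp hq
      simp only [mem_offDiag, mem_filter, mem_univ, true_and] at hp hq
      exact hvw (hp.1.symm.trans hq.1)
  rw [h2, h1, Finset.mul_sum, Finset.card_eq_sum_ones, Finset.mul_sum, ← Finset.sum_add_distrib]
  refine Finset.sum_le_sum fun v hv => ?_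
  have hpos : 0 < #{Z | g Z = v} := by
    obtain ⟨Z, -, rfl⟩ := Finset.mem_image.mp hv
    exact Finset.card_pos.mpr ⟨Z, by simp⟩
  have := hm v
  set n := #{Z | g Z = v}
  obtain ⟨k, hk⟩ : ∃ k, n = k + 1 := ⟨n - 1, by omega⟩
  rw [hk] at this ⊢
  simp only [mul_one, Nat.add_sub_cancel]
  nlinarith

/-- Two random lowest coefficients. -/
lemma count_pairs (h : F → F) (m : ℕ) (hm : ∀ u v, #{Z | h Z + u * Z + v = 0} ≤ m) :
    m * #{p : F × F | ∃ Z, h Z + p.1 * Z + p.2 = 0} + Fintype.card F * (Fintype.card F - 1) ≤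
      m * Fintype.card F ^ 2 := by
  have key : ∀ u : F, m * #{v : F | ∃ Z, h Z + u * Z + v = 0} +
      #{p : F × F | p.1 ≠ p.2 ∧ h p.1 + u * p.1 = h p.2 + u * p.2} ≤ m * Fintype.card F := by
    intro u
    have := image_collisions (fun Z => -(h Z + u * Z)) m (by
      intro v
      refine le_trans (le_of_eq ?_) (hm u v)
      congr 1
      ext Z
      simp only [mem_filter, mem_univ, true_and]
      constructor
      · rintro rfl; ring
      · intro h0; linear_combination -h0)
    have e1 : ({v : F | ∃ Z, h Z + u * Z + v = 0} : Finset F) =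
        univ.image (fun Z => -(h Z + u * Z)) := by
      ext v
      simp only [mem_filter, mem_univ, true_and, mem_image]
      constructor
      · rintro ⟨Z, hZ⟩; exact ⟨Z, by linear_combination -hZ⟩
      · rintro ⟨Z, rfl⟩; exact ⟨Z, by ring⟩
    simp only [neg_inj] at this
    rw [e1]
    exact this
  have s1 : #{p : F × F | ∃ Z, h Z + p.1 * Z + p.2 = 0} =
      ∑ u : F, #{v : F | ∃ Z, h Z + u * Z + v = 0} := by
    simp only [Finset.card_filter]
    rw [← Finset.univ_product_univ, Finset.sum_product]
  have s2 : ∑ u : F, #{p : F × F | p.1 ≠ p.2 ∧ h p.1 + u * p.1 = h p.2 + u * p.2} =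
      Fintype.card F * (Fintype.card F - 1) := by
    simp only [Finset.card_filter]
    rw [Finset.sum_comm]
    have : ∀ p : F × F, (∑ u : F, if p.1 ≠ p.2 ∧ h p.1 + u * p.1 = h p.2 + u * p.2 then 1 else 0) =
        if p.1 ≠ p.2 then 1 else 0 := by
      intro p
      by_cases hp : p.1 = p.2
      · simp [hp]
      · simp only [ne_eq, hp, not_false_eq_true, true_and, if_true]
        have hne : p.1 - p.2 ≠ 0 := sub_ne_zero.mpr hp
        rw [Finset.sum_eq_single ((h p.2 - h p.1) / (p.1 - p.2))]
        · rw [if_pos]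
          field_simp
          ring
        · intro u _ hu
          rw [if_neg]
          intro h0
          apply hu
          rw [eq_div_iff hne]
          linear_combination h0
        · intro h0; exact absurd (mem_univ _) h0
    rw [Finset.sum_congr rfl fun p _ => this p, ← Finset.card_filter]
    have : ({p : F × F | p.1 ≠ p.2} : Finset (F × F)) = univ.offDiag := by
      ext p; simp
    rw [this, Finset.offDiag_card, Finset.card_univ, Nat.mul_sub, mul_one]
  calc m * #{p : F × F | ∃ Z, h Z + p.1 * Z + p.2 = 0} + Fintype.card F * (Fintype.card F - 1)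
      = ∑ u : F, (m * #{v : F | ∃ Z, h Z + u * Z + v = 0} +
        #{p : F × F | p.1 ≠ p.2 ∧ h p.1 + u * p.1 = h p.2 + u * p.2}) := by
        rw [Finset.sum_add_distrib, ← Finset.mul_sum, s1, s2]
    _ ≤ ∑ _u : F, m * Fintype.card F := Finset.sum_le_sum fun u _ => key u
    _ = m * Fintype.card F ^ 2 := by
        rw [Finset.sum_const, Finset.card_univ, smul_eq_mul]; ring

/-- A random constant coefficient of a quadratic polynomial. -/
lemma count_single (h2 : (2 : F) ≠ 0) (u w : F) :
    2 * #{v : F | ∃ Z, Z ^ 2 + u * Z + w + v = 0} + (Fintype.card F - 1) ≤ 2 * Fintype.card F := by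
  have := image_collisions (fun Z : F => -(Z ^ 2 + u * Z + w)) 2 (by
    intro v
    by_contra hc
    push Not at hc
    obtain ⟨x, y, z, hx, hy, hz, hxy, hxz, hyz⟩ := Finset.two_lt_card_iff.mp hc
    simp only [mem_filter, mem_univ, true_and] at hx hy hz
    have h1 : (x - y) * (x + y + u) = 0 := by linear_combination hy - hx
    have h2 : (x - z) * (x + z + u) = 0 := by linear_combination hz - hx
    have h3 := (mul_eq_zero.mp h1).resolve_left (sub_ne_zero.mpr hxy)
    have h4 := (mul_eq_zero.mp h2).resolve_left (sub_ne_zero.mpr hxz)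
    exact hyz (by linear_combination h3 - h4))
  have e1 : ({v : F | ∃ Z, Z ^ 2 + u * Z + w + v = 0} : Finset F) =
      univ.image (fun Z => -(Z ^ 2 + u * Z + w)) := by
    ext v
    simp only [mem_filter, mem_univ, true_and, mem_image]
    constructor
    · rintro ⟨Z, hZ⟩; exact ⟨Z, by linear_combination -hZ⟩
    · rintro ⟨Z, rfl⟩; exact ⟨Z, by ring⟩
  rw [e1]
  refine le_trans (Nat.add_le_add_left ?_ _) this
  have inj : #(univ.erase (-u / 2)) ≤
      #{p : F × F | p.1 ≠ p.2 ∧ (fun Z : F => -(Z ^ 2 + u * Z + w)) p.1 =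
        (fun Z : F => -(Z ^ 2 + u * Z + w)) p.2} := by
    refine Finset.card_le_card_of_injOn (fun Z => (Z, -u - Z)) ?_ ?_
    · intro Z hZ
      simp only [coe_erase, coe_univ, Set.mem_sdiff, Set.mem_univ, Set.mem_singleton_iff,
        true_and] at hZ
      simp only [coe_filter, mem_univ, true_and, Set.mem_ofPred_eq]
      constructor
      · intro h0
        apply hZ
        field_simp
        linear_combination h0
      · ring
    · intro Z _ Z' _ h0
      exact (Prod.mk.inj h0).1
  rwa [Finset.card_erase_of_mem (mem_univ _), Finset.card_univ] at inj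

lemma roots_le {m : ℕ} (p : F[X]) (hp : p.degree < m) : #{Z | Z ^ m + p.eval Z = 0} ≤ m := by
  have hdeg : (X ^ m + p).natDegree = m := by
    rw [natDegree_add_eq_left_of_degree_lt]
    · simp
    · rwa [degree_X_pow]
  have hne : X ^ m + p ≠ 0 := by
    intro h0
    have := (monic_X_pow_add hp).ne_zero
    exact this h0
  calc #{Z | Z ^ m + p.eval Z = 0} ≤ #((X ^ m + p).roots.toFinset) := by
        apply Finset.card_le_card
        intro Z hZ
        simp only [mem_filter, mem_univ, true_and] at hZ
        rw [Multiset.mem_toFinset, mem_roots hne, IsRoot, eval_add, eval_pow, eval_X]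
        exact hZ
    _ ≤ Multiset.card (X ^ m + p).roots := Multiset.toFinset_card_le _
    _ ≤ m := by
        have := card_roots' (X ^ m + p)
        rwa [hdeg] at this

/-- The proportion of coefficient vectors for which the polynomial
`Z ^ m + ∑ s, c s * v s * Z ^ (m - k s)` has a root is at most `1 - 2 / (3 m)`. -/
theorem count_bad {ι : Type*} [Fintype ι] [DecidableEq ι] (h2 : (2 : F) ≠ 0)
    (hq : 3 ≤ Fintype.card F) {m : ℕ} (hm : 2 ≤ m) (k : ι → ℕ) (hk : ∀ s, 1 ≤ k s ∧ k s ≤ m)
    (v : ι → F) (s₀ : ι) (hs₀ : k s₀ = m) (hv₀ : v s₀ ≠ 0)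
    (h1 : 2 < m → ∃ s₁, k s₁ + 1 = m ∧ v s₁ ≠ 0) :
    3 * m * #{c : ι → F | ∃ Z, Z ^ m + ∑ s, c s * v s * Z ^ (m - k s) = 0} ≤
      (3 * m - 2) * Fintype.card (ι → F) := by
  set q := Fintype.card F with hqdef
  -- averaging over translations
  by_cases hm2 : 2 < m
  · obtain ⟨s₁, hs₁, hv₁⟩ := h1 hm2
    have hne : s₀ ≠ s₁ := by rintro rfl; omega
    have avg : q ^ 2 * #{c : ι → F | ∃ Z, Z ^ m + ∑ s, c s * v s * Z ^ (m - k s) = 0} =
        ∑ c : ι → F, #{p : F × F | ∃ Z, (Z ^ m + ∑ s, c s * v s * Z ^ (m - k s)) + p.1 * Z + p.2 = 0} := by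
      have e1 : ∀ p : F × F, #{c : ι → F | ∃ Z, (Z ^ m + ∑ s, c s * v s * Z ^ (m - k s)) + p.1 * Z + p.2 = 0} =
          #{c : ι → F | ∃ Z, Z ^ m + ∑ s, c s * v s * Z ^ (m - k s) = 0} := by
        intro p
        refine Finset.card_bij (fun c _ => c + Pi.single s₁ (p.1 / v s₁) + Pi.single s₀ (p.2 / v s₀)) ?_ ?_ ?_
        · intro c hc
          simp only [mem_filter, mem_univ, true_and] at hc ⊢
          obtain ⟨Z, hZ⟩ := hc
          refine ⟨Z, ?_⟩
          have : ∑ s, (c + Pi.single s₁ (p.1 / v s₁) + Pi.single s₀ (p.2 / v s₀) : ι → F) s * v s * Z ^ (m - k s) =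
              ∑ s, c s * v s * Z ^ (m - k s) + p.1 * Z + p.2 := by
            have t1 : ∀ s, (c + Pi.single s₁ (p.1 / v s₁) + Pi.single s₀ (p.2 / v s₀) : ι → F) s * v s * Z ^ (m - k s) =
                c s * v s * Z ^ (m - k s) + (if s = s₁ then p.1 * Z else 0) + (if s = s₀ then p.2 else 0) := by
              intro s
              simp only [Pi.add_apply, Pi.single_apply]
              by_cases ha : s = s₁
              · subst ha
                have hne' : s ≠ s₀ := hne.symm
                have hexp : m - k s = 1 := by omega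
                simp only [if_true, if_neg hne', hexp]
                field_simp
                ring
              · by_cases hb : s = s₀
                · subst hb
                  simp only [if_neg ha, if_true, hs₀, Nat.sub_self, pow_zero]
                  field_simp
                  ring
                · simp only [if_neg ha, if_neg hb]; ring
            rw [Finset.sum_congr rfl fun s _ => t1 s, Finset.sum_add_distrib, Finset.sum_add_distrib]
            simp
          rw [this]
          linear_combination hZ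
        · intro c _ c' _ h
          have h' := add_right_cancel (add_right_cancel h)
          exact h'
        · intro c hc
          simp only [mem_filter, mem_univ, true_and] at hc
          obtain ⟨Z, hZ⟩ := hc
          refine ⟨c - Pi.single s₁ (p.1 / v s₁) - Pi.single s₀ (p.2 / v s₀), ?_, by
            funext s; simp only [Pi.add_apply, Pi.sub_apply]; ring⟩
          simp only [mem_filter, mem_univ, true_and]
          refine ⟨Z, ?_⟩
          have : ∑ s, (c - Pi.single s₁ (p.1 / v s₁) - Pi.single s₀ (p.2 / v s₀) : ι → F) s * v s * Z ^ (m - k s) =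
              ∑ s, c s * v s * Z ^ (m - k s) - p.1 * Z - p.2 := by
            have t1 : ∀ s, (c - Pi.single s₁ (p.1 / v s₁) - Pi.single s₀ (p.2 / v s₀) : ι → F) s * v s * Z ^ (m - k s) =
                c s * v s * Z ^ (m - k s) - (if s = s₁ then p.1 * Z else 0) - (if s = s₀ then p.2 else 0) := by
              intro s
              simp only [Pi.sub_apply, Pi.single_apply]
              by_cases ha : s = s₁
              · subst ha
                have hne' : s ≠ s₀ := hne.symm
                have hexp : m - k s = 1 := by omega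
                simp only [if_true, if_neg hne', hexp]
                field_simp
                ring
              · by_cases hb : s = s₀
                · subst hb
                  simp only [if_neg ha, if_true, hs₀, Nat.sub_self, pow_zero]
                  field_simp
                  ring
                · simp only [if_neg ha, if_neg hb]; ring
            rw [Finset.sum_congr rfl fun s _ => t1 s, Finset.sum_sub_distrib, Finset.sum_sub_distrib]
            simp
          rw [this]
          linear_combination hZ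
      calc q ^ 2 * #{c : ι → F | ∃ Z, Z ^ m + ∑ s, c s * v s * Z ^ (m - k s) = 0}
          = ∑ p : F × F, #{c : ι → F | ∃ Z, (Z ^ m + ∑ s, c s * v s * Z ^ (m - k s)) + p.1 * Z + p.2 = 0} := by
            rw [Finset.sum_congr rfl fun p _ => e1 p, Finset.sum_const, Finset.card_univ,
              Fintype.card_prod, smul_eq_mul, pow_two]
        _ = _ := by
            simp only [Finset.card_filter]
            rw [Finset.sum_comm]
    have bound : ∀ c : ι → F,
        m * #{p : F × F | ∃ Z, (Z ^ m + ∑ s, c s * v s * Z ^ (m - k s)) + p.1 * Z + p.2 = 0} +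
          q * (q - 1) ≤ m * q ^ 2 := by
      intro c
      refine count_pairs (fun Z => Z ^ m + ∑ s, c s * v s * Z ^ (m - k s)) m ?_
      intro u w
      have := roots_le (m := m) (∑ s, C (c s * v s) * X ^ (m - k s) + C u * X + C w : F[X]) (by
        refine lt_of_le_of_lt (degree_add_le _ _) (max_lt (lt_of_le_of_lt (degree_add_le _ _) (max_lt ?_ ?_)) ?_)
        · refine lt_of_le_of_lt (degree_sum_le _ _) ?_
          rw [Finset.sup_lt_iff (by exact_mod_cast WithBot.bot_lt_coe m)]
          intro s _
          refine lt_of_le_of_lt (degree_C_mul_X_pow_le _ _) ?_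
          have := (hk s).1
          exact_mod_cast (by omega : m - k s < m)
        · refine lt_of_le_of_lt (degree_C_mul_X_le _) ?_
          exact_mod_cast (by omega : 1 < m)
        · refine lt_of_le_of_lt degree_C_le ?_
          exact_mod_cast (by omega : 0 < m))
      refine le_trans (le_of_eq ?_) this
      congr 1
      ext Z
      simp only [mem_filter, mem_univ, true_and, eval_add, eval_finsetSum, eval_mul, eval_C,
        eval_pow, eval_X]
      constructor <;> intro h0 <;> linear_combination h0
    have tot : m * (q ^ 2 * #{c : ι → F | ∃ Z, Z ^ m + ∑ s, c s * v s * Z ^ (m - k s) = 0}) +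
        Fintype.card (ι → F) * (q * (q - 1)) ≤ Fintype.card (ι → F) * (m * q ^ 2) := by
      rw [avg, Finset.mul_sum]
      calc ∑ c : ι → F, m * #{p : F × F | ∃ Z, (Z ^ m + ∑ s, c s * v s * Z ^ (m - k s)) + p.1 * Z + p.2 = 0} +
            Fintype.card (ι → F) * (q * (q - 1))
          = ∑ c : ι → F, (m * #{p : F × F | ∃ Z, (Z ^ m + ∑ s, c s * v s * Z ^ (m - k s)) + p.1 * Z + p.2 = 0}
            + q * (q - 1)) := by
            rw [Finset.sum_add_distrib, Finset.sum_const, Finset.card_univ, smul_eq_mul]
        _ ≤ ∑ _c : ι → F, m * q ^ 2 := Finset.sum_le_sum fun c _ => bound c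
        _ = _ := by rw [Finset.sum_const, Finset.card_univ, smul_eq_mul]
    set Bd := #{c : ι → F | ∃ Z, Z ^ m + ∑ s, c s * v s * Z ^ (m - k s) = 0}
    set T := Fintype.card (ι → F)
    obtain ⟨q', hq'⟩ : ∃ q', q = q' + 3 := ⟨q - 3, by omega⟩
    obtain ⟨m', hm'⟩ : ∃ m', m = m' + 2 := ⟨m - 2, by omega⟩
    have hq2 : 0 < q ^ 2 := by positivity
    have goal' : q ^ 2 * (3 * m * Bd) ≤ q ^ 2 * ((3 * m - 2) * T) := by
      have h3 : (3 * m - 2) = 3 * m' + 4 := by omega
      have h4 : q - 1 = q' + 2 := by omega
      rw [h4] at tot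
      rw [h3]
      clear_value q Bd T
      subst hq' hm'
      nlinarith [Nat.zero_le (T * q'), Nat.zero_le (T * q' ^ 2)]
    exact Nat.le_of_mul_le_mul_left goal' hq2
  · have hm' : m = 2 := by omega
    subst hm'
    have avg : q * #{c : ι → F | ∃ Z, Z ^ 2 + ∑ s, c s * v s * Z ^ (2 - k s) = 0} =
        ∑ c : ι → F, #{w : F | ∃ Z, (Z ^ 2 + ∑ s, c s * v s * Z ^ (2 - k s)) + w = 0} := by
      have e1 : ∀ w : F, #{c : ι → F | ∃ Z, (Z ^ 2 + ∑ s, c s * v s * Z ^ (2 - k s)) + w = 0} =
          #{c : ι → F | ∃ Z, Z ^ 2 + ∑ s, c s * v s * Z ^ (2 - k s) = 0} := by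
        intro w
        have t0 : ∀ (c : ι → F) (w' : F) (Z : F), ∑ s, (c + Pi.single s₀ (w' / v s₀) : ι → F) s * v s * Z ^ (2 - k s) =
            ∑ s, c s * v s * Z ^ (2 - k s) + w' := by
          intro c w' Z
          have t1 : ∀ s, (c + Pi.single s₀ (w' / v s₀) : ι → F) s * v s * Z ^ (2 - k s) =
              c s * v s * Z ^ (2 - k s) + (if s = s₀ then w' else 0) := by
            intro s
            simp only [Pi.add_apply, Pi.single_apply]
            by_cases hb : s = s₀
            · subst hb
              simp only [if_true, hs₀, Nat.sub_self, pow_zero]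
              field_simp
            · simp only [if_neg hb]; ring
          rw [Finset.sum_congr rfl fun s _ => t1 s, Finset.sum_add_distrib]
          simp
        refine Finset.card_bij (fun c _ => c + Pi.single s₀ (w / v s₀)) ?_ ?_ ?_
        · intro c hc
          simp only [mem_filter, mem_univ, true_and] at hc ⊢
          obtain ⟨Z, hZ⟩ := hc
          refine ⟨Z, ?_⟩
          rw [t0]
          linear_combination hZ
        · intro c _ c' _ h
          exact add_right_cancel h
        · intro c hc
          simp only [mem_filter, mem_univ, true_and] at hc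
          obtain ⟨Z, hZ⟩ := hc
          refine ⟨c + Pi.single s₀ (-w / v s₀), ?_, by
            funext s; simp only [Pi.add_apply, Pi.single_apply]; split_ifs <;> ring⟩
          simp only [mem_filter, mem_univ, true_and]
          refine ⟨Z, ?_⟩
          rw [t0]
          linear_combination hZ
      calc q * #{c : ι → F | ∃ Z, Z ^ 2 + ∑ s, c s * v s * Z ^ (2 - k s) = 0}
          = ∑ w : F, #{c : ι → F | ∃ Z, (Z ^ 2 + ∑ s, c s * v s * Z ^ (2 - k s)) + w = 0} := by
            rw [Finset.sum_congr rfl fun p _ => e1 p, Finset.sum_const, Finset.card_univ, smul_eq_mul]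
        _ = _ := by
            simp only [Finset.card_filter]
            rw [Finset.sum_comm]
    have bound : ∀ c : ι → F,
        2 * #{w : F | ∃ Z, (Z ^ 2 + ∑ s, c s * v s * Z ^ (2 - k s)) + w = 0} + (q - 1) ≤ 2 * q := by
      intro c
      have hsplit : ∃ u w₀ : F, ∀ Z : F, ∑ s, c s * v s * Z ^ (2 - k s) = u * Z + w₀ := by
        refine ⟨∑ s, (if k s = 1 then c s * v s else 0), ∑ s, (if k s = 2 then c s * v s else 0), ?_⟩
        intro Z
        rw [Finset.sum_mul, ← Finset.sum_add_distrib]
        refine Finset.sum_congr rfl fun s _ => ?_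
        have h3 := hk s
        have h4 : k s = 1 ∨ k s = 2 := by omega
        rcases h4 with h4 | h4 <;> simp [h4]
      obtain ⟨u, w₀, hu⟩ := hsplit
      have := count_single h2 u w₀
      refine le_trans (Nat.add_le_add_right (Nat.mul_le_mul_left 2 (Finset.card_le_card ?_)) _) this
      intro w hw
      simp only [mem_filter, mem_univ, true_and] at hw ⊢
      obtain ⟨Z, hZ⟩ := hw
      refine ⟨Z, ?_⟩
      rw [hu] at hZ
      linear_combination hZ
    have tot : 2 * (q * #{c : ι → F | ∃ Z, Z ^ 2 + ∑ s, c s * v s * Z ^ (2 - k s) = 0}) +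
        Fintype.card (ι → F) * (q - 1) ≤ Fintype.card (ι → F) * (2 * q) := by
      rw [avg, Finset.mul_sum]
      calc ∑ c : ι → F, 2 * #{w : F | ∃ Z, (Z ^ 2 + ∑ s, c s * v s * Z ^ (2 - k s)) + w = 0} +
            Fintype.card (ι → F) * (q - 1)
          = ∑ c : ι → F, (2 * #{w : F | ∃ Z, (Z ^ 2 + ∑ s, c s * v s * Z ^ (2 - k s)) + w = 0}
            + (q - 1)) := by
            rw [Finset.sum_add_distrib, Finset.sum_const, Finset.card_univ, smul_eq_mul]
        _ ≤ ∑ _c : ι → F, 2 * q := Finset.sum_le_sum fun c _ => bound c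
        _ = _ := by rw [Finset.sum_const, Finset.card_univ, smul_eq_mul]
    set Bd := #{c : ι → F | ∃ Z, Z ^ 2 + ∑ s, c s * v s * Z ^ (2 - k s) = 0}
    set T := Fintype.card (ι → F)
    obtain ⟨q', hq'⟩ : ∃ q', q = q' + 3 := ⟨q - 3, by omega⟩
    have hq2 : 0 < q := by omega
    have goal' : q * (3 * 2 * Bd) ≤ q * ((3 * 2 - 2) * T) := by
      have h4 : q - 1 = q' + 2 := by omega
      rw [h4] at tot
      clear_value q Bd T
      subst hq'
      nlinarith [Nat.zero_le (T * q')]
    exact Nat.le_of_mul_le_mul_left goal' hq2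

/-- The same for any finite set of such coefficient vectors. -/
theorem count_bad' {ι : Type*} [Fintype ι] [DecidableEq ι] (h2 : (2 : F) ≠ 0)
    (hq : 3 ≤ Fintype.card F) {m : ℕ} (hm : 2 ≤ m) (k : ι → ℕ) (hk : ∀ s, 1 ≤ k s ∧ k s ≤ m)
    (v : ι → F) (s₀ : ι) (hs₀ : k s₀ = m) (hv₀ : v s₀ ≠ 0)
    (h1 : 2 < m → ∃ s₁, k s₁ + 1 = m ∧ v s₁ ≠ 0) (B : Finset (ι → F))
    (hB : ∀ c ∈ B, ∃ Z, Z ^ m + ∑ s, c s * v s * Z ^ (m - k s) = 0) :
    3 * m * #B ≤ (3 * m - 2) * Fintype.card (ι → F) := by
  refine le_trans (Nat.mul_le_mul_left _ (Finset.card_le_card ?_))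
    (count_bad h2 hq hm k hk v s₀ hs₀ hv₀ h1)
  intro c hc
  rw [Finset.mem_filter]
  exact ⟨Finset.mem_univ _, hB c hc⟩

end

end Pool.Agent.Helper11.Cov
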