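import Mathlib

/-!
# The sieve in a box
-/

namespace Pool.Agent.Helper11.Cov

open Finset Filter Topology

section
variable {ι : Type*} [Fintype ι] [DecidableEq ι]

/-- Integer vectors with entries of absolute value at most `H`. -/
noncomputable def Box (ι : Type*) [Fintype ι] [DecidableEq ι] (H : ℕ) : Finset (ι → ℤ) :=
  Fintype.piFinset fun _ => Finset.Icc (-(H : ℤ)) H

lemma card_Box (H : ℕ) : #(Box ι H) = (2 * H + 1) ^ Fintype.card ι := by
  rw [Box, Fintype.card_piFinset]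
  simp only [Int.card_Icc, Finset.prod_const, Finset.card_univ]
  congr 1
  omega

lemma card_class_le {J : Type*} [Fintype J] (r : J → ℕ) [∀ j, NeZero (r j)]
    (hcop : Pairwise (Function.onFun Nat.Coprime r)) (x : ∀ j, ZMod (r j)) (H : ℕ) :
    #{t ∈ Finset.Icc (-(H : ℤ)) H | ∀ j, ((t : ℤ) : ZMod (r j)) = x j} ≤
      2 * H / (∏ j, r j) + 1 := by
  set Q := ∏ j, r j with hQ
  have hQ0 : 0 < Q := Finset.prod_pos fun j _ => Nat.pos_of_ne_zero (NeZero.ne (r j))
  rw [← Finset.card_range (2 * H / Q + 1)]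
  refine Finset.card_le_card_of_injOn (fun t => ((t + H) / (Q : ℤ)).toNat) ?_ ?_
  · intro t ht
    simp only [coe_filter, mem_Icc, Set.mem_ofPred_eq] at ht
    simp only [coe_range, Set.mem_Iio]
    have h1 : (t + H) / (Q : ℤ) ≤ (2 * H : ℤ) / Q :=
      Int.ediv_le_ediv (by exact_mod_cast hQ0) (by linarith [ht.1.2])
    have h2 : 0 ≤ (t + H) / (Q : ℤ) := Int.ediv_nonneg (by linarith [ht.1.1]) (by positivity)
    have h3 : ((2 * H : ℤ)) / Q = ((2 * H / Q : ℕ) : ℤ) := by push_cast; rfl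
    omega
  · intro t ht t' ht' h
    simp only [coe_filter, mem_Icc, Set.mem_ofPred_eq] at ht ht'
    have h1 : 0 ≤ (t + H) / (Q : ℤ) := Int.ediv_nonneg (by linarith [ht.1.1]) (by positivity)
    have h2 : 0 ≤ (t' + H) / (Q : ℤ) := Int.ediv_nonneg (by linarith [ht'.1.1]) (by positivity)
    have h3 : (t + H) / (Q : ℤ) = (t' + H) / (Q : ℤ) := by
      have h0 : ((t + H) / (Q : ℤ)).toNat = ((t' + H) / (Q : ℤ)).toNat := h
      omega
    have h4 : (Q : ℤ) ∣ t - t' := by
      have hp : ∀ j ∈ (univ : Finset J), ((r j : ℤ)) ∣ t - t' := by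
        intro j _
        have : ((t - t' : ℤ) : ZMod (r j)) = 0 := by
          push_cast
          rw [ht.2 j, ht'.2 j, sub_self]
        exact (ZMod.intCast_zmod_eq_zero_iff_dvd _ _).mp this
      have := Finset.prod_dvd_of_coprime (t := (univ : Finset J)) (s := fun j => (r j : ℤ))
        (z := t - t') (by
          intro i _ j _ hij
          exact Nat.isCoprime_iff_coprime.mpr (hcop hij)) hp
      rw [hQ]
      push_cast
      exact this
    obtain ⟨k, hk⟩ := h4
    have h5 : (t + H) = (t' + H) + Q * k := by linarith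
    rw [h5, Int.add_mul_ediv_left _ _ (by exact_mod_cast hQ0.ne')] at h3
    have : k = 0 := by linarith
    subst this
    linarith

lemma card_fibre_le {J : Type*} [Fintype J] (r : J → ℕ) [∀ j, NeZero (r j)]
    (hcop : Pairwise (Function.onFun Nat.Coprime r)) (x : ∀ j, ι → ZMod (r j)) (H : ℕ) :
    #{c ∈ Box ι H | ∀ j, (fun s => ((c s : ℤ) : ZMod (r j))) = x j} ≤
      (2 * H / (∏ j, r j) + 1) ^ Fintype.card ι := by
  have e : ({c ∈ Box ι H | ∀ j, (fun s => ((c s : ℤ) : ZMod (r j))) = x j} : Finset (ι → ℤ)) =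
      Fintype.piFinset fun s => {t ∈ Finset.Icc (-(H : ℤ)) H | ∀ j, ((t : ℤ) : ZMod (r j)) = x j s} := by
    ext c
    simp only [Box, mem_filter, Fintype.mem_piFinset]
    constructor
    · rintro ⟨h1, h2⟩ s
      exact ⟨h1 s, fun j => congrFun (h2 j) s⟩
    · intro h
      exact ⟨fun s => (h s).1, fun j => funext fun s => (h s).2 j⟩
  rw [e, Fintype.card_piFinset]
  calc _ ≤ ∏ _s : ι, (2 * H / (∏ j, r j) + 1) :=
        Finset.prod_le_prod' fun s _ => card_class_le r hcop (fun j => x j s) H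
    _ = _ := by rw [Finset.prod_const, Finset.card_univ]

/-- The sieve bound. -/
theorem box_sieve {J κ : Type*} [Fintype J] [DecidableEq J] [Fintype κ] (r : J → ℕ)
    [∀ j, NeZero (r j)] (hcop : Pairwise (Function.onFun Nat.Coprime r))
    (Bad : κ → ∀ j, Finset (ι → ZMod (r j))) (θ : ℝ) (hθ : 0 ≤ θ)
    (hBad : ∀ k j, (#(Bad k j) : ℝ) ≤ θ * (r j : ℝ) ^ Fintype.card ι) (H : ℕ) (𝓑 : Set (ι → ℤ))
    [DecidablePred (· ∈ 𝓑)]
    (h𝓑 : ∀ c ∈ 𝓑, ∃ k, ∀ j, (fun s => ((c s : ℤ) : ZMod (r j))) ∈ Bad k j) :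
    (#{c ∈ Box ι H | c ∈ 𝓑} : ℝ) ≤
      Fintype.card κ * θ ^ Fintype.card J * ((2 * H : ℝ) + ∏ j, (r j : ℝ)) ^ Fintype.card ι := by
  classical
  set Q := ∏ j, r j with hQ
  have hQ0 : 0 < Q := Finset.prod_pos fun j _ => Nat.pos_of_ne_zero (NeZero.ne (r j))
  have hQ0' : (0:ℝ) < Q := by exact_mod_cast hQ0
  have step : #{c ∈ Box ι H | c ∈ 𝓑} ≤
      ∑ k : κ, ∑ x ∈ Fintype.piFinset (fun j => Bad k j), (2 * H / Q + 1) ^ Fintype.card ι := by
    calc #{c ∈ Box ι H | c ∈ 𝓑} ≤ #((univ : Finset κ).biUnion fun k =>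
          (Fintype.piFinset (fun j => Bad k j)).biUnion fun x =>
            {c ∈ Box ι H | ∀ j, (fun s => ((c s : ℤ) : ZMod (r j))) = x j}) := by
          apply Finset.card_le_card
          intro c hc
          simp only [mem_filter] at hc
          obtain ⟨k, hk⟩ := h𝓑 c hc.2
          simp only [mem_biUnion, mem_univ, true_and, Fintype.mem_piFinset, mem_filter]
          exact ⟨k, fun j s => ((c s : ℤ) : ZMod (r j)), hk, hc.1, fun j => rfl⟩
      _ ≤ ∑ k : κ, #((Fintype.piFinset (fun j => Bad k j)).biUnion fun x =>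
            {c ∈ Box ι H | ∀ j, (fun s => ((c s : ℤ) : ZMod (r j))) = x j}) := card_biUnion_le
      _ ≤ _ := by
          refine Finset.sum_le_sum fun k _ => card_biUnion_le.trans ?_
          exact Finset.sum_le_sum fun x _ => card_fibre_le r hcop x H
  have step' : (#{c ∈ Box ι H | c ∈ 𝓑} : ℝ) ≤
      ∑ k : κ, (∏ j, (#(Bad k j) : ℝ)) * ((2 * H / Q + 1 : ℕ) : ℝ) ^ Fintype.card ι := by
    have := (Nat.cast_le (α := ℝ)).mpr step
    refine this.trans (le_of_eq ?_)
    push_cast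
    refine Finset.sum_congr rfl fun k _ => ?_
    rw [Finset.sum_const, nsmul_eq_mul, Fintype.card_piFinset]
    push_cast
    rfl
  refine step'.trans ?_
  have hfl : (((2 * H / Q + 1 : ℕ) : ℝ)) ≤ (2 * H + Q) / Q := by
    push_cast
    rw [add_div, div_self hQ0'.ne']
    have : ((2 * H / Q : ℕ) : ℝ) ≤ ((2 * H : ℕ) : ℝ) / (Q : ℝ) := Nat.cast_div_le
    push_cast at this
    linarith
  have hfl0 : (0:ℝ) ≤ ((2 * H / Q + 1 : ℕ) : ℝ) := by positivity
  calc ∑ k : κ, (∏ j, (#(Bad k j) : ℝ)) * ((2 * H / Q + 1 : ℕ) : ℝ) ^ Fintype.card ι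
      ≤ ∑ _k : κ, (θ ^ Fintype.card J * (Q : ℝ) ^ Fintype.card ι) *
          ((2 * H + Q) / Q) ^ Fintype.card ι := by
        refine Finset.sum_le_sum fun k _ => ?_
        refine mul_le_mul ?_ ?_ (by positivity) (by positivity)
        · calc ∏ j, (#(Bad k j) : ℝ) ≤ ∏ j, θ * (r j : ℝ) ^ Fintype.card ι :=
                Finset.prod_le_prod (fun j _ => by positivity) fun j _ => hBad k j
            _ = θ ^ Fintype.card J * (Q : ℝ) ^ Fintype.card ι := by
                rw [Finset.prod_mul_distrib, Finset.prod_const, Finset.card_univ,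
                  Finset.prod_pow, hQ]
                push_cast
                rfl
        · exact pow_le_pow_left₀ hfl0 hfl _
    _ = Fintype.card κ * θ ^ Fintype.card J * ((2 * H : ℝ) + ∏ j, (r j : ℝ)) ^ Fintype.card ι := by
        rw [Finset.sum_const, Finset.card_univ, nsmul_eq_mul, div_pow, hQ]
        push_cast
        have h1 : (∏ j, (r j : ℝ)) ^ Fintype.card ι ≠ 0 := by
          have : (∏ j, (r j : ℝ)) = (Q : ℝ) := by rw [hQ]; push_cast; rfl
          rw [this]; positivity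
        field_simp

/-- Sets that can be sieved to arbitrarily small proportion have density zero. -/
theorem density_zero (𝓑 : Set (ι → ℤ)) [DecidablePred (· ∈ 𝓑)]
    (h : ∀ ε > 0, ∃ A Q : ℝ, A ≤ ε ∧ 0 ≤ Q ∧ ∀ H : ℕ,
      (#{c ∈ Box ι H | c ∈ 𝓑} : ℝ) ≤ A * ((2 * H : ℝ) + Q) ^ Fintype.card ι) :
    Tendsto (fun H : ℕ => (#{c ∈ Box ι H | c ∈ 𝓑} : ℝ) / #(Box ι H)) atTop (𝓝 0) := by
  rw [Metric.tendsto_atTop]
  intro ε hε
  obtain ⟨A, Q, hA, hQ, hb⟩ := h (ε / 4) (by positivity)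
  have hlim : Tendsto (fun H : ℕ => (1 + Q / (2 * (H : ℝ) + 1)) ^ Fintype.card ι) atTop (𝓝 1) := by
    have h1 : Tendsto (fun H : ℕ => (2 * (H : ℝ) + 1)) atTop atTop := by
      apply tendsto_atTop_add_const_right
      exact Tendsto.const_mul_atTop (by norm_num) tendsto_natCast_atTop_atTop
    have h2 := (tendsto_const_nhds (x := Q)).div_atTop h1
    have h3 := (h2.const_add 1).pow (Fintype.card ι)
    simpa using h3
  have hev := hlim.eventually (gt_mem_nhds (show (1:ℝ) < 2 by norm_num))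
  obtain ⟨H₀, hH₀⟩ := eventually_atTop.mp hev
  refine ⟨H₀, fun H hH => ?_⟩
  have hH' := hH₀ H hH
  rw [Real.dist_eq, sub_zero, abs_of_nonneg (by positivity)]
  rw [card_Box]
  push_cast
  have hpos : (0:ℝ) < 2 * H + 1 := by positivity
  rw [div_lt_iff₀ (by positivity)]
  calc (#{c ∈ Box ι H | c ∈ 𝓑} : ℝ) ≤ A * ((2 * H : ℝ) + Q) ^ Fintype.card ι := hb H
    _ ≤ (ε / 4) * ((2 * H : ℝ) + Q) ^ Fintype.card ι := by gcongr
    _ ≤ (ε / 4) * ((2 * H + 1 : ℝ) + Q) ^ Fintype.card ι := by gcongr; linarith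
    _ = (ε / 4) * ((2 * H + 1 : ℝ) ^ Fintype.card ι * (1 + Q / (2 * (H : ℝ) + 1)) ^ Fintype.card ι) := by
        rw [← mul_pow]
        congr 2
        field_simp
    _ ≤ (ε / 4) * ((2 * H + 1 : ℝ) ^ Fintype.card ι * 2) := by gcongr
    _ < ε * (2 * H + 1 : ℝ) ^ Fintype.card ι := by
        have : 0 < (2 * H + 1 : ℝ) ^ Fintype.card ι := by positivity
        nlinarith

end

end Pool.Agent.Helper11.Cov
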