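import Pool.Agent.Helper11.Cov.Coord
import Pool.Agent.Helper11.Cov.Count
import Pool.Agent.Helper11.Cov.Sieve

/-!
# The density theorem, from many primes killing the Mordell-Weil group
-/

namespace Pool.Agent.Helper11.Cov

open WeierstrassCurve Finset Filter Topology

/-- The value at a rational point of the section `x ^ j * y ^ e` (where `μ = (j, e)`) of the line
bundle `O(w·O)` on `y² = x³ + a x + b`.  At the origin `O` the bundle is trivialised by
`(x / y) ^ (-w)`, so the value is `1` if the pole order `2 j + 3 e` equals `w`, else `0`. -/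
def sec {a b : ℤ} (w : ℕ) (μ : ℕ × ℕ) : (E a b).Point → ℚ
  | 0 => if 2 * μ.1 + 3 * μ.2 = w then 1 else 0
  | .some x y _ => x ^ μ.1 * y ^ μ.2

/-- `(P, z)` is a rational point of the cover
`z ^ m + ∑ (k, μ) ∈ S, c (k, μ) * (∏ i, x_i ^ j_i * y_i ^ e_i) * z ^ (m - k) = 0` of the product of
the curves `y² = x³ + a i x + b i`; here `μ i = (j_i, e_i)`. -/
def OnCover {n : ℕ} (a b : Fin n → ℤ) (m : ℕ) (d : Fin n → ℕ) (S : Finset (ℕ × (Fin n → ℕ × ℕ)))
    (c : S → ℤ) (P : ∀ i, (E (a i) (b i)).Point) (z : ℚ) : Prop :=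
  z ^ m + ∑ s : S, (c s : ℚ) * (∏ i, sec (s.1.1 * d i) (s.1.2 i) (P i)) * z ^ (m - s.1.1) = 0

/-- Conditions on the set of monomials. -/
def Adm {n : ℕ} (m : ℕ) (d : Fin n → ℕ) (S : Finset (ℕ × (Fin n → ℕ × ℕ))) : Prop :=
  (∀ s ∈ S, 1 ≤ s.1 ∧ s.1 ≤ m ∧ ∀ i, 2 * (s.2 i).1 + 3 * (s.2 i).2 ≤ s.1 * d i) ∧
  ∀ k, (k = m ∨ k + 1 = m ∧ 2 < m) → ∀ A : Finset (Fin n), ∃ s ∈ S, s.1 = k ∧
    ∀ i, if i ∈ A then 2 * (s.2 i).1 + 3 * (s.2 i).2 = k * d i else s.2 i = (0, 0)

/-- Finite generation together with many primes killing the groups. -/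
def Key {n : ℕ} (a b : Fin n → ℤ) : Prop :=
  (∀ i, ∃ g : ℕ, ∃ G : Fin g → (E (a i) (b i)).Point, ∀ P, ∃ k : Fin g → ℤ, P = ∑ j, k j • G j) ∧
  ∀ C : ℝ, ∃ M : ℕ, 0 < M ∧ ∃ R : Finset ℕ,
    (∀ r ∈ R, ∃ _ : Fact r.Prime, 3 ≤ r ∧ ∀ i, ∀ P : (E (a i) (b i)).Point, InH r (M • P)) ∧
    C * (1 + Real.log M) ≤ #R

section
variable {n : ℕ} {a b : Fin n → ℤ} {m : ℕ} {d : Fin n → ℕ} {S : Finset (ℕ × (Fin n → ℕ × ℕ))}

/-- the weighted monomial -/
def mono {R : Type*} [CommRing R] (w : ℕ) (μ : ℕ × ℕ) (A B D : R) : R :=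
  A ^ μ.1 * B ^ μ.2 * D ^ (w - (2 * μ.1 + 3 * μ.2))

lemma mono_scale {R : Type*} [CommRing R] {w : ℕ} {μ : ℕ × ℕ} (h : 2 * μ.1 + 3 * μ.2 ≤ w)
    (u A B D : R) : mono w μ (u ^ 2 * A) (u ^ 3 * B) (u * D) = u ^ w * mono w μ A B D := by
  unfold mono
  obtain ⟨t, ht⟩ := Nat.exists_eq_add_of_le h
  rw [ht, Nat.add_sub_cancel_left]
  rw [mul_pow, mul_pow, mul_pow, ← pow_mul, ← pow_mul, pow_add, pow_add]
  ring

/-- the scaling factor -/
def dt (D : ℤ) : ℤ := if D = 0 then 1 else D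

lemma dt_ne (D : ℤ) : dt D ≠ 0 := by
  unfold dt; split_ifs with h
  · exact one_ne_zero
  · exact h

lemma sec_mono {a b : ℤ} {P : (E a b).Point} {A B D : ℤ} (h : IRep P A B D) {w : ℕ} {μ : ℕ × ℕ}
    (hw : 2 * μ.1 + 3 * μ.2 ≤ w) : (dt D : ℚ) ^ w * sec w μ P = (mono w μ A B D : ℤ) := by
  obtain ⟨-, -, -, ⟨rfl, rfl, rfl, rfl⟩ | ⟨x, y, ⟨hns, rfl⟩, hD, hx, hy⟩⟩ := h
  · unfold mono dt
    have e : sec w μ (0 : (E a b).Point) = if 2 * μ.1 + 3 * μ.2 = w then 1 else 0 := rfl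
    rw [e]
    by_cases h : 2 * μ.1 + 3 * μ.2 = w
    · simp [h]
    · have : w - (2 * μ.1 + 3 * μ.2) ≠ 0 := by omega
      simp [h, this]
  · have e : sec w μ (Affine.Point.some x y hns : (E a b).Point) = x ^ μ.1 * y ^ μ.2 := rfl
    rw [e]
    unfold mono dt
    rw [if_neg hD.ne']
    obtain ⟨t, ht⟩ := Nat.exists_eq_add_of_le hw
    rw [ht, Nat.add_sub_cancel_left]
    push_cast
    rw [← hx, ← hy, mul_pow, mul_pow, ← pow_mul, ← pow_mul, pow_add, pow_add]
    ring

/-- the vector of values of the monomials at a point with given integer coordinates -/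
def vec {R : Type*} [CommRing R] (d : Fin n → ℕ) (S : Finset (ℕ × (Fin n → ℕ × ℕ)))
    (A B D : Fin n → R) (s : S) : R :=
  ∏ i, mono (s.1.1 * d i) (s.1.2 i) (A i) (B i) (D i)

/-- A rational point of the cover gives an integral solution. -/
lemma integral_solution (hS : Adm m d S) {c : S → ℤ}
    {P : ∀ i, (E (a i) (b i)).Point} {z : ℚ} (h : OnCover a b m d S c P z) {A B D : Fin n → ℤ}
    (hrep : ∀ i, IRep (P i) (A i) (B i) (D i)) :
    ∃ Z : ℤ, Z ^ m + ∑ s : S, c s * vec d S A B D s * Z ^ (m - s.1.1) = 0 := by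
  set L : ℤ := ∏ i, dt (D i) ^ d i with hL
  have e1 : ∀ s : S, (L : ℚ) ^ s.1.1 * ∏ i, sec (s.1.1 * d i) (s.1.2 i) (P i) =
      (vec d S A B D s : ℤ) := by
    intro s
    have hs := hS.1 s.1 s.2
    rw [hL, vec]
    push_cast
    rw [← Finset.prod_pow, ← Finset.prod_mul_distrib]
    refine Finset.prod_congr rfl fun i _ => ?_
    rw [← sec_mono (hrep i) (hs.2.2 i), ← pow_mul, mul_comm (d i)]
  have e2 : (L * z) ^ m + ∑ s : S, (c s : ℚ) * (vec d S A B D s : ℤ) * (L * z) ^ (m - s.1.1) = 0 := by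
    have : (L : ℚ) ^ m * (z ^ m + ∑ s : S, (c s : ℚ) * (∏ i, sec (s.1.1 * d i) (s.1.2 i) (P i)) *
        z ^ (m - s.1.1)) = 0 := by
      rw [show z ^ m + ∑ s : S, (c s : ℚ) * (∏ i, sec (s.1.1 * d i) (s.1.2 i) (P i)) *
        z ^ (m - s.1.1) = 0 from h, mul_zero]
    rw [← this, mul_add, mul_pow, Finset.mul_sum]
    congr 1
    refine Finset.sum_congr rfl fun s _ => ?_
    have hs := hS.1 s.1 s.2
    rw [← e1 s]
    have : (L : ℚ) ^ m = L ^ s.1.1 * L ^ (m - s.1.1) := by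
      rw [← pow_add]; congr 1; omega
    rw [this, mul_pow]
    ring1
  -- `L z` is an integer
  set p : Polynomial ℤ := Polynomial.X ^ m +
    ∑ s : S, Polynomial.C (c s * vec d S A B D s) * Polynomial.X ^ (m - s.1.1) with hp
  have hm : 0 < m := by
    obtain ⟨s, hs, h1, -⟩ := hS.2 m (Or.inl rfl) ∅
    have := hS.1 s hs
    omega
  have hmonic : p.Monic := by
    rw [hp]
    apply Polynomial.monic_X_pow_add
    refine lt_of_le_of_lt (Polynomial.degree_sum_le _ _) ?_
    rw [Finset.sup_lt_iff (by exact_mod_cast WithBot.bot_lt_coe m)]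
    intro s _
    refine lt_of_le_of_lt (Polynomial.degree_C_mul_X_pow_le _ _) ?_
    have := hS.1 s.1 s.2
    exact_mod_cast (by omega : m - s.1.1 < m)
  have hroot : Polynomial.aeval (L * z : ℚ) p = 0 := by
    rw [hp, map_add, map_pow, Polynomial.aeval_X, map_sum]
    simp only [map_mul, map_pow, Polynomial.aeval_C, Polynomial.aeval_X]
    rw [← e2]
    congr 1
  obtain ⟨Z, hZ⟩ := isInteger_of_is_root_of_monic hmonic hroot
  refine ⟨Z, ?_⟩
  have hZ' : (Z : ℚ) = L * z := by rw [← hZ]; simp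
  rw [← hZ'] at e2
  exact_mod_cast e2

/-- Values at points with the same reduction are proportional. -/
lemma vec_cong (hS : Adm m d S) {l : ℕ} [Fact l.Prime] {P P' : ∀ i, (E (a i) (b i)).Point}
    {A B D A' B' D' : Fin n → ℤ} (hrep : ∀ i, IRep (P i) (A i) (B i) (D i))
    (hrep' : ∀ i, IRep (P' i) (A' i) (B' i) (D' i)) (hH : ∀ i, InH l (P' i - P i)) :
    ∃ u : ZMod l, u ≠ 0 ∧ ∀ s : S, vec d S (fun i => (A' i : ZMod l)) (fun i => (B' i : ZMod l))
      (fun i => (D' i : ZMod l)) s =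
      u ^ s.1.1 * vec d S (fun i => (A i : ZMod l)) (fun i => (B i : ZMod l))
      (fun i => (D i : ZMod l)) s := by
  choose u hu hA hB hD using fun i => (hrep i).cong (hrep' i) (hH i)
  refine ⟨∏ i, u i ^ d i, Finset.prod_ne_zero_iff.mpr fun i _ => pow_ne_zero _ (hu i), ?_⟩
  intro s
  have hs := hS.1 s.1 s.2
  rw [vec, vec, ← Finset.prod_pow, ← Finset.prod_mul_distrib]
  refine Finset.prod_congr rfl fun i _ => ?_
  rw [hA i, hB i, hD i, mono_scale (hs.2.2 i), ← pow_mul, mul_comm (d i)]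

/-- Nonvanishing. -/
lemma vec_ne (hS : Adm m d S) {l : ℕ} [hl : Fact l.Prime] {P : ∀ i, (E (a i) (b i)).Point}
    {A B D : Fin n → ℤ} (hrep : ∀ i, IRep (P i) (A i) (B i) (D i)) {k : ℕ}
    (hk : k = m ∨ k + 1 = m ∧ 2 < m) : ∃ s : S, s.1.1 = k ∧
      vec d S (fun i => (A i : ZMod l)) (fun i => (B i : ZMod l)) (fun i => (D i : ZMod l)) s ≠ 0 := by
  classical
  have hl1 : ¬ IsUnit (l : ℤ) := by
    rw [Int.isUnit_iff]
    have := hl.out.two_le
    omega
  have nz : ∀ n : ℤ, ¬ (l : ℤ) ∣ n → (n : ZMod l) ≠ 0 := fun n hn h0 =>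
    hn ((ZMod.intCast_zmod_eq_zero_iff_dvd n l).mp h0)
  obtain ⟨s, hs, hsk, hs2⟩ := hS.2 k hk (univ.filter fun i => (l : ℤ) ∣ D i)
  refine ⟨⟨s, hs⟩, hsk, ?_⟩
  rw [vec]
  refine Finset.prod_ne_zero_iff.mpr fun i _ => ?_
  have h2 := hs2 i
  simp only [mem_filter, mem_univ, true_and] at h2
  unfold mono
  split_ifs at h2 with h3
  · have hA := nz _ fun h0 => hl1 ((hrep i).1.isUnit_of_dvd' h0 h3)
    have hB := nz _ fun h0 => hl1 ((hrep i).2.1.isUnit_of_dvd' h0 h3)
    simp only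
    rw [hsk, h2, Nat.sub_self, pow_zero, mul_one]
    exact mul_ne_zero (pow_ne_zero _ hA) (pow_ne_zero _ hB)
  · have hD := nz _ h3
    simp only
    rw [h2, pow_zero, pow_zero, one_mul, one_mul]
    exact pow_ne_zero _ hD

/-- The set of bad residues. -/
noncomputable def BadSet (m : ℕ) (S : Finset (ℕ × (Fin n → ℕ × ℕ))) (l : ℕ) [NeZero l] (v : S → ZMod l) :
    Finset (S → ZMod l) := by
  classical
  exact {c | ∃ Z, Z ^ m + ∑ s : S, c s * v s * Z ^ (m - s.1.1) = 0}

lemma mem_BadSet {l : ℕ} [NeZero l] {v c : S → ZMod l} :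
    c ∈ BadSet m S l v ↔ ∃ Z, Z ^ m + ∑ s : S, c s * v s * Z ^ (m - s.1.1) = 0 := by
  classical
  simp [BadSet]

/-- The main theorem. -/
theorem density_of_key (hK : Key a b) (hm : 2 ≤ m) (hS : Adm m d S)
    [DecidablePred fun c : S → ℤ => ∃ P z, OnCover a b m d S c P z] :
    Tendsto (fun H : ℕ => (#{c ∈ Box S H | ∃ P z, OnCover a b m d S c P z} : ℝ) / #(Box S H))
      atTop (𝓝 0) := by
  classical
  obtain ⟨hgen, hprimes⟩ := hK
  choose g G hG using hgen
  set gg : ℕ := ∑ i, g i with hgg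
  set θ : ℝ := 1 - 2 / (3 * m) with hθ
  have hm' : (2:ℝ) ≤ m := by exact_mod_cast hm
  have hθ0 : 0 < θ := by
    rw [hθ]
    have : 2 / (3 * (m:ℝ)) < 1 := by rw [div_lt_one (by positivity)]; linarith
    linarith
  have hθ1 : θ < 1 := by
    rw [hθ]
    have : 0 < 2 / (3 * (m:ℝ)) := by positivity
    linarith
  have hlam : 0 < -Real.log θ := by
    have := Real.log_neg hθ0 hθ1
    linarith
  have := density_zero (ι := S) {c : S → ℤ | ∃ P z, OnCover a b m d S c P z} (fun ε hε => ?_)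
  · exact this
  obtain ⟨M, hM, R, hR, hcard⟩ := hprimes ((gg + |Real.log ε|) / (-Real.log θ))
  have : NeZero M := ⟨hM.ne'⟩
  have hprime : ∀ j : R, Fact j.1.Prime := fun j => (hR j.1 j.2).choose
  have : ∀ j : R, NeZero j.1 := fun j => ⟨(hprime j).out.ne_zero⟩
  -- the class of a point
  let κ := ∀ i : Fin n, Fin (g i) → ZMod M
  have hκ : Fintype.card κ = M ^ gg := by
    rw [Fintype.card_pi]
    simp only [Fintype.card_pi, ZMod.card, Finset.prod_const, Finset.card_univ, Fintype.card_fin]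
    rw [hgg, Finset.prod_pow_eq_pow_sum]
  choose kk hkk using hG
  let cls : (∀ i, (E (a i) (b i)).Point) → κ := fun P i j => (kk i (P i) j : ZMod M)
  have hcls : ∀ P P', cls P = cls P' → ∀ r ∈ R, ∀ _ : Fact r.Prime, ∀ i, InH r (P' i - P i) := by
    intro P P' h r hr hrF i
    have h1 : ∀ j, (M : ℤ) ∣ kk i (P' i) j - kk i (P i) j := by
      intro j
      have := congrFun (congrFun h i) j
      rw [← ZMod.intCast_zmod_eq_zero_iff_dvd]
      push_cast
      exact sub_eq_zero.mpr this.symm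
    choose q hq using h1
    have h2 : P' i - P i = M • (∑ j, q j • G i j) := by
      rw [hkk i (P' i), hkk i (P i), ← Finset.sum_sub_distrib, Finset.smul_sum]
      refine Finset.sum_congr rfl fun j _ => ?_
      rw [← sub_smul, hq j, mul_smul, natCast_zsmul]
    rw [h2]
    obtain ⟨-, -, h3⟩ := hR r hr
    exact h3 i _
  -- integer coordinates
  choose Ac Bc Dc hrep using fun (i : Fin n) (Q : (E (a i) (b i)).Point) => exists_irep Q
  let vP : (∀ i, (E (a i) (b i)).Point) → ∀ l : ℕ, S → ZMod l := fun P l =>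
    vec d S (fun i => (Ac i (P i) : ZMod l)) (fun i => (Bc i (P i) : ZMod l))
      (fun i => (Dc i (P i) : ZMod l))
  let Bd : κ → ∀ j : R, Finset (S → ZMod j.1) := fun k j =>
    if h : ∃ P, cls P = k then BadSet m S j.1 (vP h.choose j.1) else ∅
  have hbad : ∀ k (j : R), (#(Bd k j) : ℝ) ≤ θ * (j.1 : ℝ) ^ Fintype.card S := by
    intro k j
    simp only [Bd]
    split_ifs with h
    · have := hprime j
      have h3 : 3 ≤ j.1 := (hR j.1 j.2).choose_spec.1
      have h2 : (2 : ZMod j.1) ≠ 0 := by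
        intro h0
        have : ((2 : ℕ) : ZMod j.1) = 0 := by exact_mod_cast h0
        rw [ZMod.natCast_eq_zero_iff] at this
        have := Nat.le_of_dvd (by norm_num) this
        omega
      set P := h.choose
      obtain ⟨s₀, hs₀, hv₀⟩ := vec_ne hS (l := j.1) (fun i => hrep i (P i)) (Or.inl (rfl : m = m))
      have := count_bad' (F := ZMod j.1) (ι := S) h2 (by rw [ZMod.card]; exact h3) hm
        (fun s => s.1.1) (fun s => ⟨(hS.1 s.1 s.2).1, (hS.1 s.1 s.2).2.1⟩) (vP P j.1) s₀ hs₀ hv₀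
        (fun h2m => by
          obtain ⟨s₁, hs₁, hv₁⟩ := vec_ne hS (l := j.1) (fun i => hrep i (P i))
            (k := m - 1) (Or.inr ⟨by omega, h2m⟩)
          exact ⟨s₁, by omega, hv₁⟩) (BadSet m S j.1 (vP P j.1)) (fun c hc => mem_BadSet.mp hc)
      have h5 : (3 * m : ℝ) * #(BadSet m S j.1 (vP P j.1)) ≤
          (3 * m - 2 : ℝ) * (j.1 : ℝ) ^ Fintype.card S := by
        have h6 := (Nat.cast_le (α := ℝ)).mpr this
        have h7 : 2 ≤ 3 * m := by omega
        push_cast [h7] at h6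
        rw [Fintype.card_fun, ZMod.card] at h6
        push_cast at h6
        exact h6
      have hm0 : (0:ℝ) < 3 * m := by positivity
      have h8 : θ * (j.1 : ℝ) ^ Fintype.card S = ((3 * m - 2 : ℝ) * (j.1 : ℝ) ^ Fintype.card S) / (3 * m) := by
        rw [hθ]; field_simp
      rw [h8, le_div_iff₀ hm0]
      linarith
    · simp only [Finset.card_empty, Nat.cast_zero]
      positivity
  have hsieve := fun H : ℕ => box_sieve (ι := S) (fun j : R => j.1) (fun i j hij => by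
      have h1 := (hprime i).out
      have h2 := (hprime j).out
      exact (Nat.coprime_primes h1 h2).mpr (fun h => hij (Subtype.ext h))) Bd θ hθ0.le hbad H
      {c : S → ℤ | ∃ P z, OnCover a b m d S c P z} (by
        rintro c ⟨P, z, hc⟩
        refine ⟨cls P, fun j => ?_⟩
        have := hprime j
        have hex : ∃ P', cls P' = cls P := ⟨P, rfl⟩
        simp only [Bd, dif_pos hex]
        set P' := hex.choose with hP'
        have hPP' : cls P' = cls P := hex.choose_spec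
        rw [mem_BadSet]
        obtain ⟨Z, hZ⟩ := integral_solution hS hc (fun i => hrep i (P i))
        obtain ⟨u, hu, hv⟩ := vec_cong hS (l := j.1) (fun i => hrep i (P i)) (fun i => hrep i (P' i))
          (fun i => hcls P P' hPP'.symm j.1 j.2 (hprime j) i)
        refine ⟨u * (Z : ZMod j.1), ?_⟩
        have hZ' : (Z : ZMod j.1) ^ m + ∑ s : S, (c s : ZMod j.1) * vP P j.1 s * (Z : ZMod j.1) ^ (m - s.1.1) = 0 := by
          have := congrArg (Int.cast : ℤ → ZMod j.1) hZ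
          push_cast at this
          rw [← this]
          congr 1
          refine Finset.sum_congr rfl fun s _ => ?_
          simp only [vP, vec, mono]
          push_cast
          rfl
        have e : (u * (Z : ZMod j.1)) ^ m + ∑ s : S, (c s : ZMod j.1) * vP P' j.1 s * (u * (Z : ZMod j.1)) ^ (m - s.1.1) =
            u ^ m * ((Z : ZMod j.1) ^ m + ∑ s : S, (c s : ZMod j.1) * vP P j.1 s * (Z : ZMod j.1) ^ (m - s.1.1)) := by
          rw [mul_add, mul_pow, Finset.mul_sum]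
          congr 1
          refine Finset.sum_congr rfl fun s _ => ?_
          have hs := hS.1 s.1 s.2
          have hv' : vP P' j.1 s = u ^ s.1.1 * vP P j.1 s := hv s
          rw [hv']
          have : u ^ m = u ^ s.1.1 * u ^ (m - s.1.1) := by
            rw [← pow_add]; congr 1; omega
          rw [this, mul_pow]
          ring
        rw [e, hZ', mul_zero])
  refine ⟨Fintype.card κ * θ ^ Fintype.card R, ∏ j : R, (j.1 : ℝ), ?_, by positivity, fun H => hsieve H⟩
  -- the numerical estimate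
  rw [hκ, Fintype.card_coe]
  push_cast
  have hMr : (0:ℝ) < M := by exact_mod_cast hM
  have hlogM : 0 ≤ Real.log M := Real.log_natCast_nonneg M
  rw [← Real.log_le_log_iff (by positivity) hε, Real.log_mul (by positivity) (by positivity),
    Real.log_pow, Real.log_pow]
  have h9 : (gg + |Real.log ε|) * (1 + Real.log M) ≤ #R * (-Real.log θ) := by
    have h := mul_le_mul_of_nonneg_right hcard hlam.le
    calc (gg + |Real.log ε|) * (1 + Real.log M) =
        (gg + |Real.log ε|) / (-Real.log θ) * (1 + Real.log M) * (-Real.log θ) := by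
          have hne : -Real.log θ ≠ 0 := hlam.ne'
          generalize -Real.log θ = t at hne
          field_simp
      _ ≤ _ := h
  have h10 : 0 ≤ |Real.log ε| := abs_nonneg _
  have h11 : -|Real.log ε| ≤ Real.log ε := neg_abs_le _
  have h12 : (0:ℝ) ≤ gg := by positivity
  nlinarith

end

end Pool.Agent.Helper11.Cov
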