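import Pool.Agent.Helper11.Geo
import Pool.Agent.Helper11.Cov.Main

/-!
# From dense rational points to a rational point of the cover
-/

open AlgebraicGeometry CategoryTheory

namespace Pool.Agent.Helper11.Cov

open WeierstrassCurve Finset

/-- Specialisation of a finite family of elements of the function field. -/
theorem exists_specialisation_fintype {V : Scheme.{0}} [IsIntegral V]
    (f : V ⟶ Spec (CommRingCat.of ℚ)) {α : Type} [Fintype α] (u : α → V.functionField)
    (hdense : Dense (rationalPoints f)) :
    ∃ (R : Type) (_ : CommRing R) (ι : R →+* V.functionField) (v : α → R) (φ : R →+* ℚ),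
      Function.Injective ι ∧ ∀ i, ι (v i) = u i := by
  obtain ⟨R, hR, ι, v, -, φ, hinj, hv, -, -⟩ := exists_specialisation f
    (fun i : Fin (Fintype.card α) => u ((Fintype.equivFin α).symm i)) one_ne_zero hdense
  exact ⟨R, hR, ι, fun i => v (Fintype.equivFin α i), φ, hinj, fun i => by rw [hv]; simp⟩

/-- If a variety dominating the cover has dense rational points, the cover has a rational point. -/
theorem exists_onCover {n : ℕ} {a b : Fin n → ℤ} (hg : ∀ i, Good (a i) (b i)) {m : ℕ}
    {d : Fin n → ℕ} {S : Finset (ℕ × (Fin n → ℕ × ℕ))} {c : S → ℤ} {V : Scheme.{0}} [IsIntegral V]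
    (f : V ⟶ Spec (CommRingCat.of ℚ)) (x y : Fin n → V.functionField) (z : V.functionField)
    (hxy : ∀ i, y i ^ 2 = x i ^ 3 + (a i : V.functionField) * x i + (b i : V.functionField))
    (hz : z ^ m + ∑ s : S, (c s : V.functionField) *
      (∏ i, x i ^ (s.1.2 i).1 * y i ^ (s.1.2 i).2) * z ^ (m - s.1.1) = 0)
    (hdense : Dense (rationalPoints f)) : ∃ P z, OnCover a b m d S c P z := by
  obtain ⟨R, _, ι, v, φ, hinj, hv⟩ := exists_specialisation_fintype f
    (α := Option (Fin n × Bool)) (fun o => match o with
      | none => z
      | some (i, true) => x i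
      | some (i, false) => y i) hdense
  have vz : ι (v none) = z := hv none
  have vx : ∀ i, ι (v (some (i, true))) = x i := fun i => hv (some (i, true))
  have vy : ∀ i, ι (v (some (i, false))) = y i := fun i => hv (some (i, false))
  have e1 : ∀ i, v (some (i, false)) ^ 2 = v (some (i, true)) ^ 3 + (a i : R) * v (some (i, true)) +
      (b i : R) := by
    intro i
    apply hinj
    simp only [map_pow, map_add, map_mul, map_intCast, vx, vy]
    exact hxy i
  have e2 : v none ^ m + ∑ s : S, (c s : R) *
      (∏ i, v (some (i, true)) ^ (s.1.2 i).1 * v (some (i, false)) ^ (s.1.2 i).2) *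
        v none ^ (m - s.1.1) = 0 := by
    apply hinj
    simp only [map_pow, map_add, map_mul, map_intCast, map_sum, map_prod, vx, vy, vz, map_zero]
    exact hz
  have f1 : ∀ i, (φ (v (some (i, false)))) ^ 2 = (φ (v (some (i, true)))) ^ 3 +
      (a i : ℚ) * φ (v (some (i, true))) + (b i : ℚ) := by
    intro i
    have := congrArg φ (e1 i)
    simpa only [map_pow, map_add, map_mul, map_intCast] using this
  choose P hP using fun i => exists_at (hg i) (f1 i)
  refine ⟨P, φ (v none), ?_⟩
  have f2 := congrArg φ e2
  simp only [map_pow, map_add, map_mul, map_intCast, map_sum, map_prod, map_zero] at f2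
  unfold OnCover
  rw [← f2]
  congr 1
  refine Finset.sum_congr rfl fun s _ => ?_
  congr 2
  refine Finset.prod_congr rfl fun i _ => ?_
  obtain ⟨h, hh⟩ := hP i
  rw [hh]
  rfl

end Pool.Agent.Helper11.Cov
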