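import Pool.Agent.Helper11.Cov.Trans

/-!
# The valuation of the ordinate of `3P`
-/

namespace Pool.Agent.Helper11.Cov

open WeierstrassCurve

section
variable {a b : ℤ} {l : ℕ} [hl : Fact l.Prime]

omit hl in
lemma disc_identity {x y : ℚ} (h : y ^ 2 = x ^ 3 + a * x + b) :
    4 * (a : ℚ) ^ 3 + 27 * b ^ 2 =
      (3 * x ^ 2 + 4 * a) * (3 * x ^ 2 + a) ^ 2 - 27 * (x ^ 3 + a * x - b) * y ^ 2 := by
  rw [h]; ring

lemma deriv_unit {x y : ℚ} (h : y ^ 2 = x ^ 3 + a * x + b) (hx : padicNorm l x ≤ 1)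
    (hy : padicNorm l y < 1) (hD : padicNorm l (4 * (a : ℚ) ^ 3 + 27 * b ^ 2) = 1) :
    padicNorm l (3 * x ^ 2 + a) = 1 := by
  have hx2 := npow1 hx 2
  have hx3 := npow1 hx 3
  have n1 : padicNorm l (3 * x ^ 2 + a) ≤ 1 := nadd (nmul1 (nnat 3) hx2) (nint a)
  have n2 : padicNorm l (3 * x ^ 2 + 4 * a) ≤ 1 :=
    nadd (nmul1 (nnat 3) hx2) (nmul1 (nnat 4) (nint a))
  have n3 : padicNorm l (27 * (x ^ 3 + a * x - b) * y ^ 2) < 1 := by
    rw [padicNorm.mul, norm_pow]
    have : padicNorm l (27 * (x ^ 3 + a * x - b)) ≤ 1 :=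
      nmul1 (nnat 27) (nsub (nadd hx3 (nmul1 (nint a) hx)) (nint b))
    have h0 : 0 ≤ padicNorm l y := padicNorm.nonneg _
    have h1 : padicNorm l y ^ 2 < 1 := by nlinarith
    have h2 : 0 ≤ padicNorm l (27 * (x ^ 3 + a * x - b)) := padicNorm.nonneg _
    nlinarith [sq_nonneg (padicNorm l y)]
  rw [disc_identity h] at hD
  by_contra hc
  have hlt : padicNorm l (3 * x ^ 2 + a) < 1 := lt_of_le_of_ne n1 hc
  have h0 : 0 ≤ padicNorm l (3 * x ^ 2 + a) := padicNorm.nonneg _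
  have n4 : padicNorm l ((3 * x ^ 2 + 4 * a) * (3 * x ^ 2 + a) ^ 2) < 1 := by
    rw [padicNorm.mul, norm_pow]
    have h1 : padicNorm l (3 * x ^ 2 + a) ^ 2 < 1 := by nlinarith
    have h2 : 0 ≤ padicNorm l (3 * x ^ 2 + 4 * a) := padicNorm.nonneg _
    nlinarith [sq_nonneg (padicNorm l (3 * x ^ 2 + a))]
  have := lt_of_le_of_lt padicNorm.sub (max_lt n4 n3)
  linarith

/-- If `P` reduces to a point of order two then the ordinates of `3P` and `P` have the same
valuation. -/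
lemma At.triple {P : (E a b).Point} {x y : ℚ} (h : At P x y) (hx : padicNorm l x ≤ 1)
    (hy0 : y ≠ 0) (hy : padicNorm l y < 1) (h2 : padicNorm l (2 : ℚ) = 1)
    (h3 : padicNorm l (3 : ℚ) = 1) (hD : padicNorm l (4 * (a : ℚ) ^ 3 + 27 * b ^ 2) = 1) :
    ∃ X Y, At (3 • P) X Y ∧ padicNorm l X ≤ 1 ∧ padicNorm l Y = padicNorm l y := by
  have e := h.eqn
  have hd := deriv_unit e hx hy hD
  set lam : ℚ := (3 * x ^ 2 + a) / (2 * y) with hlam
  have hy1 : 0 < padicNorm l y := lt_of_le_of_ne (padicNorm.nonneg _) (Ne.symm (padicNorm.nonzero hy0))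
  have nlam : padicNorm l lam = (padicNorm l y)⁻¹ := by
    rw [hlam, padicNorm.div, hd, padicNorm.mul, h2, one_mul, one_div]
  have hinv : 1 < (padicNorm l y)⁻¹ := (one_lt_inv₀ hy1).mpr hy
  have nlam2 : padicNorm l (lam ^ 2) = ((padicNorm l y) ^ 2)⁻¹ := by
    rw [norm_pow, nlam, inv_pow]
  have hinv2 : 1 < ((padicNorm l y) ^ 2)⁻¹ := (one_lt_inv₀ (by positivity)).mpr (by nlinarith)
  set q : ℚ := lam ^ 2 - 3 * x with hq
  have nq : padicNorm l q = ((padicNorm l y) ^ 2)⁻¹ := by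
    rw [hq, sub_eq_add_neg, norm_add_of_lt, nlam2]
    rw [nlam2, padicNorm.neg]
    exact lt_of_le_of_lt (nmul1 (nnat 3) hx) hinv2
  have hq0 : q ≠ 0 := by
    intro h0
    rw [h0, padicNorm.zero] at nq
    linarith
  have hP2 := h.dbl hy0
  have hne : x ≠ ((3 * x ^ 2 + a) / (2 * y)) ^ 2 - 2 * x := by
    intro h0
    apply hq0
    rw [hq]
    linarith
  have hP3 := h.add hP2 hne
  rw [← hlam] at hP3
  have hs : (y - -(lam * (lam ^ 2 - 2 * x - x) + y)) / (x - (lam ^ 2 - 2 * x)) =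
      -(lam + 2 * y / q) := by
    have h5 : x - (lam ^ 2 - 2 * x) = -q := by rw [hq]; ring
    rw [h5]
    field_simp
    rw [hq]; ring
  rw [hs] at hP3
  have h3P : P + (P + P) = 3 • P := by
    rw [show (3 : ℕ) = 2 + 1 by norm_num, add_nsmul, two_nsmul, one_nsmul, add_comm]
  rw [h3P] at hP3
  have ex : (-(lam + 2 * y / q)) ^ 2 - x - (lam ^ 2 - 2 * x) =
      x + (4 * lam * y / q + 4 * y ^ 2 / q ^ 2) := by
    field_simp
    ring
  have ey : -(-(lam + 2 * y / q) * ((-(lam + 2 * y / q)) ^ 2 - x - (lam ^ 2 - 2 * x) - x) + y) =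
      3 * y + (12 * x * y / q + 12 * lam * y ^ 2 / q ^ 2 + 8 * y ^ 3 / q ^ 3) := by
    rw [ex]
    have hl2 : lam ^ 2 = q + 3 * x := by rw [hq]; ring
    have : -(-(lam + 2 * y / q) * (x + (4 * lam * y / q + 4 * y ^ 2 / q ^ 2) - x) + y) =
      4 * lam ^ 2 * y / q + 12 * lam * y ^ 2 / q ^ 2 + 8 * y ^ 3 / q ^ 3 - y := by
      field_simp
      ring
    rw [this, hl2]
    field_simp
    ring
  refine ⟨_, _, hP3, ?_, ?_⟩
  · rw [ex]
    refine nadd hx (nadd ?_ ?_)
    · rw [padicNorm.div, nq, div_inv_eq_mul]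
      have h6 : padicNorm l (4 * lam * y) ≤ 1 := by
        have : padicNorm l (4 * lam) ≤ (padicNorm l y)⁻¹ := nmul (nnat 4) nlam.le (by rw [one_mul])
        exact nmul this le_rfl (by rw [inv_mul_cancel₀ hy1.ne'])
      have h7 : 0 ≤ padicNorm l (4 * lam * y) := padicNorm.nonneg _
      have h8 : padicNorm l y ^ 2 ≤ 1 := by nlinarith
      have h9 : 0 ≤ padicNorm l y ^ 2 := by positivity
      nlinarith
    · rw [padicNorm.div, norm_pow, nq, inv_pow, div_inv_eq_mul]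
      have h6 : padicNorm l (4 * y ^ 2) ≤ 1 := nmul1 (nnat 4) (npow1 hy.le 2)
      have h7 : 0 ≤ padicNorm l (4 * y ^ 2) := padicNorm.nonneg _
      have h8 : (padicNorm l y ^ 2) ^ 2 ≤ 1 := pow_le_one₀ (by positivity) (pow_le_one₀ hy1.le hy.le)
      have h9 : 0 ≤ (padicNorm l y ^ 2) ^ 2 := by positivity
      nlinarith
  · rw [ey, norm_add_of_lt, padicNorm.mul, h3, one_mul]
    rw [padicNorm.mul, h3, one_mul]
    have hy3 : padicNorm l y ^ 3 < padicNorm l y := by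
      have h8 : padicNorm l y ^ 2 < 1 := by nlinarith
      calc padicNorm l y ^ 3 = padicNorm l y ^ 2 * padicNorm l y := by ring
        _ < 1 * padicNorm l y := mul_lt_mul_of_pos_right h8 hy1
        _ = padicNorm l y := one_mul _
    refine lt_of_le_of_lt (nadd (nadd ?_ ?_) ?_) hy3
    · rw [padicNorm.div, nq, div_inv_eq_mul]
      have h6 : padicNorm l (12 * x * y) ≤ padicNorm l y :=
        nmul (nmul1 (nnat 12) hx) le_rfl (le_of_eq (one_mul _))
      calc padicNorm l (12 * x * y) * padicNorm l y ^ 2 ≤ padicNorm l y * padicNorm l y ^ 2 := by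
            gcongr
        _ = padicNorm l y ^ 3 := by ring
    · rw [padicNorm.div, norm_pow, nq, inv_pow, div_inv_eq_mul]
      have h6 : padicNorm l (12 * lam * y ^ 2) ≤ padicNorm l y := by
        have : padicNorm l (12 * lam) ≤ (padicNorm l y)⁻¹ := nmul (nnat 12) nlam.le (by rw [one_mul])
        refine nmul this (norm_pow y 2).le (le_of_eq ?_)
        field_simp
      calc padicNorm l (12 * lam * y ^ 2) * (padicNorm l y ^ 2) ^ 2 ≤
            padicNorm l y * (padicNorm l y ^ 2) ^ 2 := by gcongr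
        _ = padicNorm l y ^ 5 := by ring
        _ ≤ padicNorm l y ^ 3 := pow_le_pow_of_le_one hy1.le hy.le (by norm_num)
    · rw [padicNorm.div, norm_pow, nq, inv_pow, div_inv_eq_mul]
      have h6 : padicNorm l (8 * y ^ 3) ≤ padicNorm l y ^ 3 :=
        nmul (nnat 8) (norm_pow y 3).le (le_of_eq (one_mul _))
      calc padicNorm l (8 * y ^ 3) * (padicNorm l y ^ 2) ^ 3 ≤
            padicNorm l y ^ 3 * (padicNorm l y ^ 2) ^ 3 := by gcongr
        _ ≤ padicNorm l y ^ 3 * 1 := by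
            gcongr
            exact pow_le_one₀ (by positivity) (pow_le_one₀ hy1.le hy.le)
        _ = padicNorm l y ^ 3 := mul_one _

end

end Pool.Agent.Helper11.Cov
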