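import Pool.Agent.Helper11.Cov.Coord
import Pool.Agent.Helper11.Cov.Triple

/-!
# Growth of the numerator of the ordinate
-/

namespace Pool.Agent.Helper11.Cov

open WeierstrassCurve

section
variable {a b : ℤ}

/-- The naive height of a point: `max (|numerator|, denominator)` of the abscissa. -/
def hgt : (E a b).Point → ℕ
  | 0 => 1
  | .some x _ _ => max x.num.natAbs x.den

lemma At.hgt_eq {P : (E a b).Point} {x y : ℚ} (h : At P x y) : hgt P = max x.num.natAbs x.den := by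
  obtain ⟨h, rfl⟩ := h
  rfl

lemma one_le_hgt (P : (E a b).Point) : 1 ≤ hgt P := by
  rcases zero_or P with rfl | ⟨x, y, h⟩
  · exact le_refl 1
  · rw [h.hgt_eq]
    exact le_max_of_le_right x.den_pos

/-- the basic equation in integers -/
lemma At.num_sq {P : (E a b).Point} {x y : ℚ} (h : At P x y) :
    (y.num : ℝ) ^ 2 = (x.num : ℝ) ^ 3 + a * x.num * (x.den : ℝ) ^ 2 + b * (x.den : ℝ) ^ 3 := by
  obtain ⟨D, hD, h1, h2, h3⟩ := h.den
  have := congrArg (Int.cast : ℤ → ℝ) h3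
  push_cast at this
  rw [this, h1]
  push_cast
  ring

lemma At.num_sq' {P : (E a b).Point} {x y : ℚ} (h : At P x y) :
    (y.num : ℝ) ^ 2 = ((y : ℚ) : ℝ) ^ 2 * (x.den : ℝ) ^ 3 := by
  obtain ⟨D, hD, h1, h2, -⟩ := h.den
  have e : (y.num : ℝ) = ((y : ℚ) : ℝ) * (y.den : ℝ) := by
    have := Rat.mul_den_eq_num y
    exact_mod_cast this.symm
  rw [e, h1, h2]
  push_cast
  ring

lemma At.hgt_real {P : (E a b).Point} {x y : ℚ} (h : At P x y) :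
    (hgt P : ℝ) = max |(x.num : ℝ)| x.den := by
  rw [h.hgt_eq]
  push_cast
  congr 1
  exact Nat.cast_natAbs x.num |>.trans (by push_cast; rfl)

lemma At.num_upper {P : (E a b).Point} {x y : ℚ} (h : At P x y) :
    (y.num : ℝ) ^ 2 ≤ (1 + |(a : ℝ)| + |(b : ℝ)|) * (hgt P : ℝ) ^ 3 := by
  rw [h.num_sq, h.hgt_real]
  have hv : (0:ℝ) < x.den := by
    have := x.den_pos
    exact_mod_cast this
  set u := (x.num : ℝ)
  set v := (x.den : ℝ)
  set M := max |u| v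
  have h1 : |u| ≤ M := le_max_left _ _
  have h2 : v ≤ M := le_max_right _ _
  have hM : 0 < M := lt_of_lt_of_le hv h2
  have e1 : u ^ 3 ≤ M ^ 3 := by
    calc u ^ 3 ≤ |u| ^ 3 := by rw [← abs_pow]; exact le_abs_self _
      _ ≤ M ^ 3 := pow_le_pow_left₀ (abs_nonneg _) h1 3
  have e2 : (a : ℝ) * u * v ^ 2 ≤ |(a : ℝ)| * M ^ 3 := by
    calc (a : ℝ) * u * v ^ 2 ≤ |(a : ℝ) * u * v ^ 2| := le_abs_self _
      _ = |(a : ℝ)| * (|u| * v ^ 2) := by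
          rw [abs_mul, abs_mul, abs_pow, abs_of_pos hv]; ring
      _ ≤ |(a : ℝ)| * (M * M ^ 2) := by gcongr
      _ = |(a : ℝ)| * M ^ 3 := by ring
  have e3 : (b : ℝ) * v ^ 3 ≤ |(b : ℝ)| * M ^ 3 := by
    calc (b : ℝ) * v ^ 3 ≤ |(b : ℝ) * v ^ 3| := le_abs_self _
      _ = |(b : ℝ)| * v ^ 3 := by rw [abs_mul, abs_pow, abs_of_pos hv]
      _ ≤ |(b : ℝ)| * M ^ 3 := by gcongr
  nlinarith

/-- The threshold. -/
noncomputable def x0 (a b : ℤ) : ℝ := 2 * (1 + |(a : ℝ)| + |(b : ℝ)|)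

lemma x0_ge (a b : ℤ) : 2 ≤ x0 a b := by
  unfold x0
  have := abs_nonneg (a : ℝ)
  have := abs_nonneg (b : ℝ)
  linarith

/-- the cubic is large for large arguments -/
lemma cubic_lower {u v : ℝ} (hv : 0 < v) (huv : x0 a b * v ≤ u) :
    u ^ 3 / 2 ≤ u ^ 3 + a * u * v ^ 2 + b * v ^ 3 := by
  have h0 := x0_ge a b
  have hu : 0 < u := by nlinarith
  have hvu : v ≤ u := by nlinarith
  have h1 : (1 + |(a : ℝ)| + |(b : ℝ)|) * v ≤ u / 2 := by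
    unfold x0 at huv; linarith
  have hA := abs_nonneg (a : ℝ)
  have hB := abs_nonneg (b : ℝ)
  have e2 : -(|(a : ℝ)| * (u * v ^ 2)) ≤ (a : ℝ) * u * v ^ 2 := by
    have := neg_abs_le ((a : ℝ) * u * v ^ 2)
    rw [abs_mul, abs_mul, abs_pow, abs_of_pos hv, abs_of_pos hu] at this
    linarith
  have e3 : -(|(b : ℝ)| * v ^ 3) ≤ (b : ℝ) * v ^ 3 := by
    have := neg_abs_le ((b : ℝ) * v ^ 3)
    rwa [abs_mul, abs_pow, abs_of_pos hv] at this
  have e4 : |(b : ℝ)| * v ^ 3 ≤ |(b : ℝ)| * (u * v ^ 2) := by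
    have : v ^ 3 ≤ u * v ^ 2 := by nlinarith [sq_nonneg v]
    gcongr
  have e5 : (|(a : ℝ)| + |(b : ℝ)|) * v ≤ u / 2 := by nlinarith
  have e6 : (|(a : ℝ)| + |(b : ℝ)|) * (u * v ^ 2) ≤ u ^ 3 / 2 := by
    have h7 : (|(a : ℝ)| + |(b : ℝ)|) * v * (u * v) ≤ (u / 2) * (u * v) :=
      mul_le_mul_of_nonneg_right e5 (by positivity)
    have h8 : (u / 2) * (u * v) ≤ (u / 2) * (u * u) := by gcongr
    nlinarith
  nlinarith

lemma At.num_lower {P : (E a b).Point} {x y : ℚ} (h : At P x y) (hx : x0 a b ≤ (x : ℝ)) :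
    (hgt P : ℝ) ^ 3 / 2 ≤ (y.num : ℝ) ^ 2 := by
  have h0 := x0_ge a b
  have hv : (0:ℝ) < x.den := by
    have := x.den_pos
    exact_mod_cast this
  have hu : (x.num : ℝ) = (x : ℝ) * x.den := by
    have := Rat.mul_den_eq_num x
    exact_mod_cast this.symm
  have huv : x0 a b * (x.den : ℝ) ≤ x.num := by rw [hu]; gcongr
  have hvu : (x.den : ℝ) ≤ x.num := by nlinarith
  rw [h.num_sq, h.hgt_real, max_eq_left (by rw [abs_of_nonneg (by linarith)]; exact hvu),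
    abs_of_nonneg (by linarith)]
  exact cubic_lower hv huv

/-- A point is either far out or has bounded abscissa. -/
lemma At.dichotomy {P : (E a b).Point} {x y : ℚ} (h : At P x y) :
    x0 a b ≤ (x : ℝ) ∨ |(x : ℝ)| ≤ x0 a b := by
  by_cases hx : x0 a b ≤ (x : ℝ)
  · exact Or.inl hx
  right
  push Not at hx
  rw [abs_le]
  refine ⟨?_, hx.le⟩
  by_contra hc
  push Not at hc
  have e := h.eqn
  have e' : ((y : ℚ) : ℝ) ^ 2 = (x : ℝ) ^ 3 + a * x + b := by exact_mod_cast e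
  -- use the cubic for `-x` and `(a, -b)`
  have h1 := cubic_lower (a := a) (b := -b) (u := -(x : ℝ)) (v := 1) one_pos (by
    have : x0 a (-b) = x0 a b := by unfold x0; push_cast; rw [abs_neg]
    rw [this]; linarith)
  push_cast at h1
  have h0 := x0_ge a b
  have h2 : 0 < (-(x : ℝ)) ^ 3 := by
    have : 0 < -(x : ℝ) := by linarith
    positivity
  nlinarith [sq_nonneg ((y : ℚ) : ℝ)]

/-- doubling a point close to a point of order two gives a point far out -/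
lemma exists_eta (hg : Good a b) : ∃ η : ℝ, 0 < η ∧ ∀ (P : (E a b).Point) (x y X Y : ℚ), At P x y →
    At (2 • P) X Y → |(x : ℝ)| ≤ x0 a b → ((y : ℚ) : ℝ) ^ 2 ≤ η → x0 a b ≤ (X : ℝ) := by
  have h0 := x0_ge a b
  set L : ℝ := 3 * x0 a b ^ 2 + 4 * |(a : ℝ)| + 27 * (x0 a b ^ 3 + |(a : ℝ)| * x0 a b + |(b : ℝ)|) with hL
  have hA := abs_nonneg (a : ℝ)
  have hB := abs_nonneg (b : ℝ)
  have hL1 : 1 ≤ L := by
    have : 1 ≤ x0 a b ^ 2 := by nlinarith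
    have h3 : 0 ≤ x0 a b ^ 3 := by positivity
    have h4 : 0 ≤ |(a : ℝ)| * x0 a b := by positivity
    rw [hL]; nlinarith
  refine ⟨1 / (24 * L * x0 a b), by positivity, ?_⟩
  intro P x y X Y hP h2P hx hy
  have hy0 : y ≠ 0 := by
    rintro rfl
    rw [two_nsmul, hP.dbl_zero] at h2P
    exact h2P.ne_zero rfl
  obtain ⟨X', Y', h2P', e1, -⟩ := hP.dbl' hy0
  rw [two_nsmul] at h2P
  obtain ⟨rfl, -⟩ := h2P.unique h2P'
  have e := hP.eqn
  have er : ((y : ℚ) : ℝ) ^ 2 = (x : ℝ) ^ 3 + a * x + b := by exact_mod_cast e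
  have e1r : (X : ℝ) * (2 * (y : ℝ)) ^ 2 = ((x : ℝ) ^ 2 - a) ^ 2 - 8 * b * x := by exact_mod_cast e1
  have hs0 : 0 < ((y : ℚ) : ℝ) ^ 2 := by
    have : ((y : ℚ) : ℝ) ≠ 0 := by
      intro h; apply hy0; exact_mod_cast h
    positivity
  set t := (x : ℝ)
  set s := ((y : ℚ) : ℝ)
  -- discriminant identity
  have hdisc : (1:ℝ) ≤ |4 * (a : ℝ) ^ 3 + 27 * b ^ 2| := by
    have : (1:ℤ) ≤ |4 * a ^ 3 + 27 * b ^ 2| := Int.one_le_abs hg
    exact_mod_cast this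
  have id : 4 * (a : ℝ) ^ 3 + 27 * b ^ 2 =
      (3 * t ^ 2 + 4 * a) * (3 * t ^ 2 + a) ^ 2 - 27 * (t ^ 3 + a * t - b) * s ^ 2 := by
    rw [er]; ring
  have hx2 : |t| ^ 2 ≤ x0 a b ^ 2 := pow_le_pow_left₀ (abs_nonneg _) hx 2
  have hx3 : |t| ^ 3 ≤ x0 a b ^ 3 := pow_le_pow_left₀ (abs_nonneg _) hx 3
  have b1 : |3 * t ^ 2 + 4 * a| ≤ L := by
    calc |3 * t ^ 2 + 4 * a| ≤ |3 * t ^ 2| + |4 * (a : ℝ)| := abs_add_le _ _
      _ = 3 * |t| ^ 2 + 4 * |(a : ℝ)| := by rw [abs_mul, abs_mul, abs_pow]; norm_num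
      _ ≤ 3 * x0 a b ^ 2 + 4 * |(a : ℝ)| := by gcongr
      _ ≤ L := by
          have h3 : 0 ≤ x0 a b ^ 3 := by positivity
          have h4 : 0 ≤ |(a : ℝ)| * x0 a b := by positivity
          rw [hL]; nlinarith
  have b2 : |27 * (t ^ 3 + a * t - b)| ≤ L := by
    calc |27 * (t ^ 3 + a * t - b)| = 27 * |t ^ 3 + a * t - b| := by rw [abs_mul]; norm_num
      _ ≤ 27 * (|t ^ 3| + |a * t| + |(b : ℝ)|) := by
          gcongr
          exact (abs_sub _ _).trans (by gcongr; exact abs_add_le _ _)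
      _ = 27 * (|t| ^ 3 + |(a : ℝ)| * |t| + |(b : ℝ)|) := by rw [abs_pow, abs_mul]
      _ ≤ 27 * (x0 a b ^ 3 + |(a : ℝ)| * x0 a b + |(b : ℝ)|) := by gcongr
      _ ≤ L := by
          have h3 : 0 ≤ x0 a b ^ 2 := by positivity
          rw [hL]; nlinarith
  have b3 : (1:ℝ) ≤ L * (3 * t ^ 2 + a) ^ 2 + L * s ^ 2 := by
    calc (1:ℝ) ≤ |4 * (a : ℝ) ^ 3 + 27 * b ^ 2| := hdisc
      _ = |(3 * t ^ 2 + 4 * a) * (3 * t ^ 2 + a) ^ 2 - 27 * (t ^ 3 + a * t - b) * s ^ 2| := by rw [id]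
      _ ≤ |(3 * t ^ 2 + 4 * a) * (3 * t ^ 2 + a) ^ 2| + |27 * (t ^ 3 + a * t - b) * s ^ 2| :=
          abs_sub _ _
      _ = |3 * t ^ 2 + 4 * a| * (3 * t ^ 2 + a) ^ 2 + |27 * (t ^ 3 + a * t - b)| * s ^ 2 := by
          rw [abs_mul (3 * t ^ 2 + 4 * (a : ℝ)), abs_mul (27 * (t ^ 3 + a * t - b)),
            abs_of_nonneg (show (0 : ℝ) ≤ (3 * t ^ 2 + (a : ℝ)) ^ 2 from sq_nonneg _),
            abs_of_nonneg hs0.le]
      _ ≤ L * (3 * t ^ 2 + a) ^ 2 + L * s ^ 2 := by gcongr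
  have hsmall : L * s ^ 2 ≤ 1 / 48 := by
    have : L * s ^ 2 ≤ L * (1 / (24 * L * x0 a b)) := by gcongr
    have h5 : L * (1 / (24 * L * x0 a b)) = 1 / (24 * x0 a b) := by field_simp
    rw [h5] at this
    refine this.trans ?_
    rw [div_le_div_iff₀ (by positivity) (by norm_num)]
    nlinarith
  have b4 : 1 / (2 * L) ≤ (3 * t ^ 2 + a) ^ 2 := by
    rw [div_le_iff₀ (by positivity)]
    nlinarith
  -- abscissa of the double
  have e2 : (X : ℝ) * (4 * s ^ 2) = (3 * t ^ 2 + a) ^ 2 - 8 * t * s ^ 2 := by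
    have : (X : ℝ) * (4 * s ^ 2) = (t ^ 2 - a) ^ 2 - 8 * b * t := by rw [← e1r]; ring
    rw [this, er]; ring
  by_contra hc
  push Not at hc
  have h6 : (X : ℝ) * (4 * s ^ 2) < x0 a b * (4 * s ^ 2) := by
    apply mul_lt_mul_of_pos_right hc; positivity
  have h7 : 8 * t * s ^ 2 ≤ 8 * x0 a b * s ^ 2 := by
    have : t ≤ x0 a b := (le_abs_self t).trans hx
    gcongr
  have h8 : 1 / (2 * L) < 12 * x0 a b * s ^ 2 := by nlinarith
  have h9 : 12 * x0 a b * s ^ 2 ≤ 12 * x0 a b * (1 / (24 * L * x0 a b)) := by gcongr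
  have h10 : 12 * x0 a b * (1 / (24 * L * x0 a b)) = 1 / (2 * L) := by field_simp; norm_num
  linarith

/-- Growth of the numerators of the ordinates. -/
theorem growth (hg : Good a b) {c : ℝ} (hc : 0 < c)
    (h2 : ∀ P : (E a b).Point, c * (hgt P : ℝ) ^ 4 ≤ hgt (2 • P))
    (h3 : ∀ P : (E a b).Point, c * (hgt P : ℝ) ^ 9 ≤ hgt (3 • P)) :
    ∃ H₀ : ℝ, ∀ (P : (E a b).Point) (x y x₂ y₂ x₃ y₃ x₆ y₆ : ℚ), At P x y → At (2 • P) x₂ y₂ →
      At (3 • P) x₃ y₃ → At (6 • P) x₆ y₆ → H₀ ≤ hgt P →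
      y.num.natAbs < y₃.num.natAbs ∨ y₂.num.natAbs < y₆.num.natAbs := by
  obtain ⟨η, hη, hη2⟩ := exists_eta hg
  have hx0 := x0_ge a b
  set C₁ : ℝ := 1 + |(a : ℝ)| + |(b : ℝ)| with hC₁
  have hC₁1 : 1 ≤ C₁ := by
    have := abs_nonneg (a : ℝ)
    have := abs_nonneg (b : ℝ)
    linarith
  set K : ℝ := 1 + 2 * C₁ / c ^ 3 + C₁ * x0 a b ^ 3 / (c ^ 3 * η) with hK
  have hK1 : 1 ≤ K := by
    have : 0 ≤ 2 * C₁ / c ^ 3 := by positivity
    have : 0 ≤ C₁ * x0 a b ^ 3 / (c ^ 3 * η) := by positivity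
    linarith
  -- consequence of `H ≥ K`
  have hK2 : ∀ H : ℝ, K ≤ H → 2 * C₁ / c ^ 3 < H ^ 24 ∧ C₁ * x0 a b ^ 3 / (c ^ 3 * η) ≤ H ^ 24 := by
    intro H hH
    have h1 : 1 ≤ H := hK1.trans hH
    have h24 : H ≤ H ^ 24 := le_self_pow₀ h1 (by norm_num)
    have p1 : 0 ≤ 2 * C₁ / c ^ 3 := by positivity
    have p2 : 0 ≤ C₁ * x0 a b ^ 3 / (c ^ 3 * η) := by positivity
    constructor <;> linarith
  -- the far case
  have far : ∀ (Q : (E a b).Point) (x y x₃ y₃ : ℚ), At Q x y → At (3 • Q) x₃ y₃ → K ≤ hgt Q →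
      x0 a b ≤ (x₃ : ℝ) → y.num.natAbs < y₃.num.natAbs := by
    intro Q x y x₃ y₃ hQ h3Q hKQ hfar
    have l1 := h3Q.num_lower hfar
    have l2 := hQ.num_upper
    have l3 := h3 Q
    obtain ⟨k1, -⟩ := hK2 _ hKQ
    have hH : (0:ℝ) < hgt Q := by
      have := one_le_hgt Q
      exact_mod_cast this
    set H := (hgt Q : ℝ)
    have l4 : (c * H ^ 9) ^ 3 ≤ (hgt (3 • Q) : ℝ) ^ 3 := pow_le_pow_left₀ (by positivity) l3 3
    have l5 : C₁ * H ^ 3 < (c * H ^ 9) ^ 3 / 2 := by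
      rw [div_lt_iff₀ (by positivity)] at k1
      have : C₁ * H ^ 3 * 2 < (H ^ 24 * c ^ 3) * H ^ 3 := by
        have h5 := mul_lt_mul_of_pos_right k1 (pow_pos hH 3)
        linarith
      rw [lt_div_iff₀ (by norm_num)]
      calc C₁ * H ^ 3 * 2 < (H ^ 24 * c ^ 3) * H ^ 3 := this
        _ = (c * H ^ 9) ^ 3 := by ring
    have l6 : (y.num : ℝ) ^ 2 < (y₃.num : ℝ) ^ 2 := by
      calc (y.num : ℝ) ^ 2 ≤ C₁ * H ^ 3 := l2
        _ < (c * H ^ 9) ^ 3 / 2 := l5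
        _ ≤ (hgt (3 • Q) : ℝ) ^ 3 / 2 := by linarith
        _ ≤ _ := l1
    have l7 := sq_lt_sq.mp l6
    have : |y.num| < |y₃.num| := by exact_mod_cast l7
    rw [Int.abs_eq_natAbs, Int.abs_eq_natAbs] at this
    exact_mod_cast this
  refine ⟨max K (K / c), ?_⟩
  intro P x y x₂ y₂ x₃ y₃ x₆ y₆ hP1 hP2 hP3 hP6 hH
  have hKP : K ≤ hgt P := (le_max_left _ _).trans hH
  have hKcP : K / c ≤ hgt P := (le_max_right _ _).trans hH
  rcases hP3.dichotomy with hfar | hnear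
  · left
    exact far P x y x₃ y₃ hP1 hP3 hKP hfar
  · by_contra hcon
    push Not at hcon
    obtain ⟨c1, c2⟩ := hcon
    -- ordinate of `3P` is tiny
    have hHpos : (0:ℝ) < hgt P := by
      have := one_le_hgt P
      exact_mod_cast this
    have u1 := hP1.num_upper
    have u2 := h3 P
    have u3 := hP3.num_sq'
    obtain ⟨-, k2⟩ := hK2 _ hKP
    have hden : (hgt (3 • P) : ℝ) ≤ x0 a b * x₃.den := by
      rw [hP3.hgt_real]
      have hd : (0:ℝ) < x₃.den := by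
        have := x₃.den_pos
        exact_mod_cast this
      apply max_le
      · have : (x₃.num : ℝ) = (x₃ : ℝ) * x₃.den := by
          have := Rat.mul_den_eq_num x₃
          exact_mod_cast this.symm
        rw [this, abs_mul, abs_of_pos hd]
        gcongr
      · nlinarith
    set H := (hgt P : ℝ)
    have hnum : (y₃.num : ℝ) ^ 2 ≤ (y.num : ℝ) ^ 2 := by
      apply sq_le_sq.mpr
      have : |y₃.num| ≤ |y.num| := by
        rw [Int.abs_eq_natAbs, Int.abs_eq_natAbs]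
        exact_mod_cast c1
      exact_mod_cast this
    have hy3 : ((y₃ : ℚ) : ℝ) ^ 2 ≤ η := by
      have v1 : ((y₃ : ℚ) : ℝ) ^ 2 * (x₃.den : ℝ) ^ 3 ≤ C₁ * H ^ 3 := by
        rw [← u3]; exact hnum.trans u1
      have v2 : (c * H ^ 9) ^ 3 ≤ (x0 a b * x₃.den) ^ 3 :=
        pow_le_pow_left₀ (by positivity) (u2.trans hden) 3
      have v3 : ((y₃ : ℚ) : ℝ) ^ 2 * (c * H ^ 9) ^ 3 ≤ C₁ * H ^ 3 * x0 a b ^ 3 := by
        calc ((y₃ : ℚ) : ℝ) ^ 2 * (c * H ^ 9) ^ 3 ≤ ((y₃ : ℚ) : ℝ) ^ 2 * (x0 a b * x₃.den) ^ 3 := by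
              gcongr
          _ = (((y₃ : ℚ) : ℝ) ^ 2 * (x₃.den : ℝ) ^ 3) * x0 a b ^ 3 := by ring
          _ ≤ (C₁ * H ^ 3) * x0 a b ^ 3 := by gcongr
      have v4 : C₁ * x0 a b ^ 3 ≤ H ^ 24 * (c ^ 3 * η) := by
        rwa [div_le_iff₀ (by positivity)] at k2
      have v5 : ((y₃ : ℚ) : ℝ) ^ 2 * (c ^ 3 * H ^ 27) ≤ η * (c ^ 3 * H ^ 27) := by
        calc ((y₃ : ℚ) : ℝ) ^ 2 * (c ^ 3 * H ^ 27) = ((y₃ : ℚ) : ℝ) ^ 2 * (c * H ^ 9) ^ 3 := by ring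
          _ ≤ C₁ * H ^ 3 * x0 a b ^ 3 := v3
          _ = (C₁ * x0 a b ^ 3) * H ^ 3 := by ring
          _ ≤ (H ^ 24 * (c ^ 3 * η)) * H ^ 3 := by gcongr
          _ = η * (c ^ 3 * H ^ 27) := by ring
      exact le_of_mul_le_mul_right v5 (by positivity)
    have h6 : (2 : ℕ) • (3 • P) = 6 • P := by rw [smul_smul]; norm_num
    have h6' : (3 : ℕ) • (2 • P) = 6 • P := by rw [smul_smul]; norm_num
    have hP6' : At (2 • (3 • P)) x₆ y₆ := by rw [h6]; exact hP6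
    have hfar := hη2 (3 • P) x₃ y₃ x₆ y₆ hP3 hP6' hnear hy3
    have hP6'' : At (3 • (2 • P)) x₆ y₆ := by rw [h6']; exact hP6
    have hK2P : K ≤ hgt (2 • P) := by
      have h1 : 1 ≤ H := hK1.trans hKP
      have h4 : H ≤ H ^ 4 := le_self_pow₀ h1 (by norm_num)
      calc K = c * (K / c) := by field_simp
        _ ≤ c * H := by gcongr
        _ ≤ c * H ^ 4 := by gcongr
        _ ≤ _ := h2 P
    have := far (2 • P) x₂ y₂ x₆ y₆ hP2 hP6'' hK2P hfar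
    omega

end

end Pool.Agent.Helper11.Cov
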