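import Pool.Agent.Helper11.Cov.Triple
import Pool.Agent.Helper11.Cov.Coord

/-!
# Some multiple of every point lies in the kernel of reduction
-/

namespace Pool.Agent.Helper11.Cov

open WeierstrassCurve

section
variable {a b : ℤ} {l : ℕ} [hl : Fact l.Prime]

lemma norm_sq_le_one {t : ℚ} (h : padicNorm l (t ^ 2) ≤ 1) : padicNorm l t ≤ 1 := by
  rw [norm_pow] at h
  have h0 : 0 ≤ padicNorm l t := padicNorm.nonneg _
  nlinarith

/-- The common contradiction. -/
lemma close_aux {x y δ : ℚ} (e : y ^ 2 = x ^ 3 + a * x + b) (hx : padicNorm l x ≤ 1)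
    (hδ : δ < padicNorm l (4 * (4 * (a : ℚ) ^ 3 + 27 * b ^ 2)))
    (h1 : padicNorm l (2 * y) ≤ δ) (h2 : padicNorm l (3 * x ^ 2 + a) ≤ δ) : False := by
  have hδ0 : 0 ≤ δ := (padicNorm.nonneg _).trans h1
  have hδ1 : δ < 1 := by
    refine lt_of_lt_of_le hδ ?_
    have : (4 * (4 * (a : ℚ) ^ 3 + 27 * b ^ 2)) = ((4 * (4 * a ^ 3 + 27 * b ^ 2) : ℤ) : ℚ) := by
      push_cast; ring
    rw [this]
    exact padicNorm.of_int _
  have id : 4 * (4 * (a : ℚ) ^ 3 + 27 * b ^ 2) =
      4 * (3 * x ^ 2 + 4 * a) * (3 * x ^ 2 + a) ^ 2 - 27 * (x ^ 3 + a * x - b) * (2 * y) ^ 2 := by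
    have := disc_identity (a := a) (b := b) e
    linear_combination 4 * this
  have hx2 := npow1 hx 2
  have hx3 := npow1 hx 3
  have n1 : padicNorm l (4 * (3 * x ^ 2 + 4 * a)) ≤ 1 :=
    nmul1 (nnat 4) (nadd (nmul1 (nnat 3) hx2) (nmul1 (nnat 4) (nint a)))
  have n2 : padicNorm l (27 * (x ^ 3 + a * x - b)) ≤ 1 :=
    nmul1 (nnat 27) (nsub (nadd hx3 (nmul1 (nint a) hx)) (nint b))
  have hsq : ∀ t : ℚ, padicNorm l t ≤ δ → padicNorm l (t ^ 2) ≤ δ := by
    intro t ht
    rw [norm_pow]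
    have h0 : 0 ≤ padicNorm l t := padicNorm.nonneg _
    nlinarith
  have : padicNorm l (4 * (4 * (a : ℚ) ^ 3 + 27 * b ^ 2)) ≤ δ := by
    rw [id]
    exact nsub (nmul n1 (hsq _ h2) (by rw [one_mul])) (nmul n2 (hsq _ h1) (by rw [one_mul]))
  linarith

lemma sub_inH_of_close {P Q : (E a b).Point} {x y x' y' δ : ℚ} (hP : At P x y) (hQ : At Q x' y')
    (hx : padicNorm l x ≤ 1) (hx' : padicNorm l x' ≤ 1)
    (hδ : δ < padicNorm l (4 * (4 * (a : ℚ) ^ 3 + 27 * b ^ 2)))
    (h1 : padicNorm l (x - x') ≤ δ) (h2 : padicNorm l (y - y') ≤ δ) : InH l (P - Q) := by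
  have e := hP.eqn
  have e' := hQ.eqn
  have hδ0 : 0 ≤ δ := (padicNorm.nonneg _).trans h1
  intro X Y hXY
  by_contra hc
  push Not at hc
  by_cases hxx : x = x'
  · subst hxx
    rcases hP.same_x hQ with rfl | rfl
    · rw [sub_self] at hXY
      exact hXY.ne_zero rfl
    · -- `P = -Q`
      have hyy : y = -y' := (hP.unique hQ.neg).2
      have hy0 : y ≠ 0 := by
        intro h0
        have h3 : At (-Q) x 0 := by rw [h0] at hP; exact hP
        have : -Q + -Q = 0 := h3.dbl_zero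
        rw [sub_eq_add_neg, this] at hXY
        exact hXY.ne_zero rfl
      have h3 := hP.dbl hy0
      rw [sub_eq_add_neg] at hXY
      obtain ⟨hX, -⟩ := h3.unique hXY
      have n1 : padicNorm l (2 * y) ≤ δ := by
        have : (2 * y) = y - y' := by rw [hyy]; ring
        rw [this]; exact h2
      have n2 : padicNorm l ((3 * x ^ 2 + a) / (2 * y)) ≤ 1 := by
        apply norm_sq_le_one
        have : ((3 * x ^ 2 + a) / (2 * y)) ^ 2 = X + 2 * x := by rw [← hX]; ring
        rw [this]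
        exact nadd hc (nmul1 (nnat 2) hx)
      refine close_aux e hx hδ n1 ?_
      have : 3 * x ^ 2 + (a : ℚ) = (3 * x ^ 2 + a) / (2 * y) * (2 * y) := by
        field_simp
      rw [this]
      exact nmul n2 n1 (by rw [one_mul])
  · have h3 := hP.add hQ.neg hxx
    rw [← sub_eq_add_neg] at h3
    obtain ⟨hX, -⟩ := h3.unique hXY
    have hne : x - x' ≠ 0 := sub_ne_zero.mpr hxx
    set t := (y - -y') / (x - x') with ht
    have n2 : padicNorm l t ≤ 1 := by
      apply norm_sq_le_one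
      have : t ^ 2 = X + x + x' := by rw [← hX]; ring
      rw [this]
      exact nadd (nadd hc hx) hx'
    have n3 : padicNorm l (y + y') ≤ δ := by
      have : y + y' = t * (x - x') := by rw [ht]; field_simp; ring
      rw [this]
      exact nmul n2 h1 (by rw [one_mul])
    have n1 : padicNorm l (2 * y) ≤ δ := by
      have : 2 * y = (y + y') + (y - y') := by ring
      rw [this]; exact nadd n3 h2
    have n4 : padicNorm l (x ^ 2 + x * x' + x' ^ 2 + a) ≤ δ := by
      have : x ^ 2 + x * x' + x' ^ 2 + a = t * (y - y') := by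
        rw [ht]
        field_simp
        linear_combination e' - e
      rw [this]
      exact nmul n2 h2 (by rw [one_mul])
    refine close_aux e hx hδ n1 ?_
    have : 3 * x ^ 2 + (a : ℚ) = (x ^ 2 + x * x' + x' ^ 2 + a) + (2 * x + x') * (x - x') := by ring
    rw [this]
    exact nadd n4 (nmul (nadd (nmul1 (nnat 2) hx) hx') h1 (by rw [one_mul]))

/-- Residue of an `l`-integral rational number modulo `l ^ K`. -/
def res (N : ℕ) (x : ℚ) : ZMod N := (x.num : ZMod N) * (x.den : ZMod N)⁻¹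

lemma close_of_res {K : ℕ} {x x' : ℚ} (hx : padicNorm l x ≤ 1) (hx' : padicNorm l x' ≤ 1)
    (h : res (l ^ K) x = res (l ^ K) x') : padicNorm l (x - x') ≤ (l : ℚ) ^ (-(K : ℤ)) := by
  have hden : ∀ z : ℚ, padicNorm l z ≤ 1 → padicNorm l (z.den : ℚ) = 1 ∧ Nat.Coprime z.den l := by
    intro z hz
    have hnd : ¬ l ∣ z.den := by
      intro hd
      have h1 : padicNorm l (z.den : ℚ) < 1 := by
        have := (padicNorm.int_lt_one_iff (p := l) (z.den : ℤ)).mpr (by exact_mod_cast hd)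
        simpa using this
      have h2 : padicNorm l (z.num : ℚ) = 1 := by
        rw [padicNorm.int_eq_one_iff]
        intro h3
        have h4 : l ∣ z.num.natAbs := Int.natCast_dvd.mp h3
        have := Nat.dvd_gcd h4 hd
        rw [z.reduced] at this
        exact hl.out.one_lt.ne' (Nat.dvd_one.mp this)
      have h3 : padicNorm l z * padicNorm l (z.den : ℚ) = padicNorm l (z.num : ℚ) := by
        rw [← padicNorm.mul, Rat.mul_den_eq_num]
      have h0 : 0 ≤ padicNorm l (z.den : ℚ) := padicNorm.nonneg _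
      have h0' : 0 ≤ padicNorm l z := padicNorm.nonneg _
      nlinarith
    refine ⟨?_, ?_⟩
    · have := (padicNorm.int_eq_one_iff (p := l) (z.den : ℤ)).mpr (by
        intro h0; exact hnd (by exact_mod_cast h0))
      simpa using this
    · exact ((Nat.Prime.coprime_iff_not_dvd hl.out).mpr hnd).symm
  obtain ⟨n1, c1⟩ := hden x hx
  obtain ⟨n2, c2⟩ := hden x' hx'
  have u1 : IsUnit (x.den : ZMod (l ^ K)) := (ZMod.isUnit_iff_coprime _ _).mpr (c1.pow_right K)
  have u2 : IsUnit (x'.den : ZMod (l ^ K)) := (ZMod.isUnit_iff_coprime _ _).mpr (c2.pow_right K)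
  have i1 : (x.den : ZMod (l ^ K)) * (x.den : ZMod (l ^ K))⁻¹ = 1 := ZMod.mul_inv_of_unit _ u1
  have i2 : (x'.den : ZMod (l ^ K)) * (x'.den : ZMod (l ^ K))⁻¹ = 1 := ZMod.mul_inv_of_unit _ u2
  unfold res at h
  have h3 : (x.num : ZMod (l ^ K)) * x'.den = x'.num * x.den := by
    calc (x.num : ZMod (l ^ K)) * x'.den
        = (x.num * (x.den : ZMod (l ^ K))⁻¹) * x.den * x'.den := by
          linear_combination (-(x.num : ZMod (l ^ K)) * x'.den) * i1
      _ = (x'.num * (x'.den : ZMod (l ^ K))⁻¹) * x.den * x'.den := by rw [h]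
      _ = x'.num * x.den := by
          linear_combination ((x'.num : ZMod (l ^ K)) * x.den) * i2
  have h4 : ((l ^ K : ℕ) : ℤ) ∣ x.num * x'.den - x'.num * x.den := by
    rw [← ZMod.intCast_zmod_eq_zero_iff_dvd]
    push_cast
    rw [h3, sub_self]
  have h5 := (padicNorm.dvd_iff_norm_le (p := l) (n := K) (z := x.num * x'.den - x'.num * x.den)).mp h4
  have h6 : ((x.num * x'.den - x'.num * x.den : ℤ) : ℚ) = (x - x') * (x.den * x'.den) := by
    push_cast
    rw [← Rat.mul_den_eq_num x, ← Rat.mul_den_eq_num x']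
    ring
  rw [h6, padicNorm.mul, padicNorm.mul, n1, n2] at h5
  simpa using h5

/-- Some positive multiple of a point lies in the kernel of reduction at `l`. -/
theorem exists_multiple (hg : Good a b) (G : (E a b).Point) : ∃ k : ℕ, 0 < k ∧ InH l (k • G) := by
  by_contra hcon
  push Not at hcon
  have hD0 : (4 * (4 * (a : ℚ) ^ 3 + 27 * b ^ 2)) ≠ 0 := by
    have : 4 * (a : ℚ) ^ 3 + 27 * b ^ 2 ≠ 0 := by exact_mod_cast hg
    positivity
  have hDn : 0 < padicNorm l (4 * (4 * (a : ℚ) ^ 3 + 27 * b ^ 2)) :=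
    lt_of_le_of_ne (padicNorm.nonneg _) (Ne.symm (padicNorm.nonzero hD0))
  have hl1 : (1:ℚ) < l := by exact_mod_cast hl.out.one_lt
  obtain ⟨K, hK⟩ := exists_pow_lt_of_lt_one hDn (show (l : ℚ)⁻¹ < 1 from inv_lt_one_of_one_lt₀ hl1)
  have hK' : (l : ℚ) ^ (-(K : ℤ)) < padicNorm l (4 * (4 * (a : ℚ) ^ 3 + 27 * b ^ 2)) := by
    rw [zpow_neg, zpow_natCast, ← inv_pow]; exact hK
  -- coordinates of the multiples
  have hco : ∀ m : ℕ, ∃ x y, At ((m + 1) • G) x y ∧ padicNorm l x ≤ 1 := by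
    intro m
    have h1 := hcon (m + 1) (Nat.succ_pos m)
    rcases zero_or ((m + 1) • G) with h0 | ⟨x, y, h⟩
    · rw [h0] at h1; exact absurd inH_zero h1
    · refine ⟨x, y, h, ?_⟩
      by_contra hc
      push Not at hc
      exact h1 (h.inH_iff.mpr hc)
  choose x y hxy hx using hco
  have : NeZero (l ^ K) := ⟨(pow_pos hl.out.pos K).ne'⟩
  obtain ⟨m, m', hne, hmm⟩ := Finite.exists_ne_map_eq_of_infinite
    (fun m : ℕ => ((res (l ^ K) (x m), res (l ^ K) (y m)) : ZMod (l ^ K) × ZMod (l ^ K)))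
  have hyi : ∀ m, padicNorm l (y m) ≤ 1 := fun m => norm_y_le (hxy m).eqn (hx m)
  wlog hlt : m' < m generalizing m m'
  · exact this m' m hne.symm hmm.symm (by omega)
  have h1 := close_of_res (hx m) (hx m') (Prod.mk.inj hmm).1
  have h2 := close_of_res (hyi m) (hyi m') (Prod.mk.inj hmm).2
  have h3 := sub_inH_of_close (hxy m) (hxy m') (hx m) (hx m') hK' h1 h2
  have h4 : (m + 1) • G - (m' + 1) • G = (m - m') • G := by
    have : m + 1 = (m - m') + (m' + 1) := by omega
    rw [this, add_nsmul, add_sub_cancel_right]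
  rw [h4] at h3
  exact hcon (m - m') (by omega) h3

end

end Pool.Agent.Helper11.Cov
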