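import Pool.Agent.Helper11.Cov.Growth
import Pool.Agent.Helper11.Cov.Multiple

/-!
# Many primes modulo which a point has smooth order
-/

namespace Pool.Agent.Helper11.Cov

open WeierstrassCurve Finset

section
variable {a b : ℤ}

section
variable {l : ℕ} [hl : Fact l.Prime]

lemma norm_lt_one_iff_num (y : ℚ) : padicNorm l y < 1 ↔ (l : ℤ) ∣ y.num := by
  have h3 : padicNorm l y * padicNorm l (y.den : ℚ) = padicNorm l (y.num : ℚ) := by
    rw [← padicNorm.mul, Rat.mul_den_eq_num]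
  have hden0 : (y.den : ℚ) ≠ 0 := by exact_mod_cast y.den_ne_zero
  have hd0 : 0 < padicNorm l (y.den : ℚ) :=
    lt_of_le_of_ne (padicNorm.nonneg _) (Ne.symm (padicNorm.nonzero hden0))
  have hd1 : padicNorm l (y.den : ℚ) ≤ 1 := nnat y.den
  have h0 : 0 ≤ padicNorm l y := padicNorm.nonneg _
  constructor
  · intro h
    rw [← norm_lt_one_iff_dvd, ← h3]
    nlinarith
  · intro h
    have hn : padicNorm l (y.num : ℚ) < 1 := (norm_lt_one_iff_dvd _).mpr h
    have hnd : ¬ l ∣ y.den := by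
      intro hd
      have h4 : l ∣ y.num.natAbs := Int.natCast_dvd.mp h
      have := Nat.dvd_gcd h4 hd
      rw [y.reduced] at this
      exact hl.out.one_lt.ne' (Nat.dvd_one.mp this)
    have h5 : padicNorm l (y.den : ℚ) = 1 := by
      have := (padicNorm.int_eq_one_iff (p := l) (y.den : ℤ)).mpr (by
        intro h0; exact hnd (by exact_mod_cast h0))
      simpa using this
    rw [h5, mul_one] at h3
    rw [h3]; exact hn

lemma norm_eq_num {y : ℚ} (h : (l : ℤ) ∣ y.num) : padicNorm l y = padicNorm l (y.num : ℚ) := by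
  have h3 : padicNorm l y * padicNorm l (y.den : ℚ) = padicNorm l (y.num : ℚ) := by
    rw [← padicNorm.mul, Rat.mul_den_eq_num]
  have hnd : ¬ l ∣ y.den := by
    intro hd
    have h4 : l ∣ y.num.natAbs := Int.natCast_dvd.mp h
    have := Nat.dvd_gcd h4 hd
    rw [y.reduced] at this
    exact hl.out.one_lt.ne' (Nat.dvd_one.mp this)
  have h5 : padicNorm l (y.den : ℚ) = 1 := by
    have := (padicNorm.int_eq_one_iff (p := l) (y.den : ℤ)).mpr (by
      intro h0; exact hnd (by exact_mod_cast h0))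
    simpa using this
  rw [h5, mul_one] at h3
  exact h3

lemma x_le_of_y_lt {x y : ℚ} (heq : y ^ 2 = x ^ 3 + a * x + b) (hy : padicNorm l y ≤ 1) :
    padicNorm l x ≤ 1 := by
  by_contra hc
  push Not at hc
  have := norm_y_sq heq hc
  have h0 : 0 ≤ padicNorm l y := padicNorm.nonneg _
  have h1 : 1 < padicNorm l x ^ 3 := one_lt_pow₀ hc (by norm_num)
  nlinarith

/-- A point reducing to a point of order two: its double is in the kernel of reduction. -/
lemma dbl_inH_of_y {P : (E a b).Point} {x y : ℚ} (h : At P x y) (hy : padicNorm l y < 1)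
    (hD : padicNorm l (4 * (a : ℚ) ^ 3 + 27 * b ^ 2) = 1) : InH l (2 • P) := by
  have hx := x_le_of_y_lt h.eqn hy.le
  by_cases hy0 : y = 0
  · subst hy0
    rw [two_nsmul, h.dbl_zero]
    exact inH_zero
  · obtain ⟨X, Y, hXY, e, -⟩ := h.dbl' hy0
    rw [two_nsmul]
    rw [hXY.inH_iff]
    have hd := deriv_unit h.eqn hx hy hD
    have e2 : (x ^ 2 - a) ^ 2 - 8 * b * x = (3 * x ^ 2 + a) ^ 2 + -(8 * x * y ^ 2) := by
      rw [h.eqn]; ring
    rw [e2] at e
    have n1 : padicNorm l ((3 * x ^ 2 + a) ^ 2 + -(8 * x * y ^ 2)) = 1 := by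
      rw [norm_add_of_lt, norm_pow, hd, one_pow]
      rw [norm_pow, hd, one_pow, padicNorm.neg, padicNorm.mul, norm_pow]
      have h8 : padicNorm l (8 * x) ≤ 1 := nmul1 (nnat 8) hx
      have h0 : 0 ≤ padicNorm l y := padicNorm.nonneg _
      have h1 : padicNorm l y ^ 2 < 1 := by nlinarith
      have h2 : 0 ≤ padicNorm l (8 * x) := padicNorm.nonneg _
      nlinarith [sq_nonneg (padicNorm l y)]
    have n2 : padicNorm l X * padicNorm l (2 * y) ^ 2 = 1 := by
      rw [← norm_pow, ← padicNorm.mul, e, n1]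
    have n3 : padicNorm l (2 * y) < 1 := by
      rw [padicNorm.mul]
      have := nnat (l := l) 2
      have h0 : 0 ≤ padicNorm l ((2 : ℕ) : ℚ) := padicNorm.nonneg _
      push_cast at this h0
      nlinarith [padicNorm.nonneg (p := l) y]
    have h0 : 0 ≤ padicNorm l (2 * y) := padicNorm.nonneg _
    have n4 : padicNorm l (2 * y) ^ 2 < 1 := by nlinarith
    by_contra hc
    push Not at hc
    have h5 : 0 ≤ padicNorm l X := padicNorm.nonneg _
    nlinarith [sq_nonneg (padicNorm l (2 * y))]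

/-- A point with unit ordinate: its double is not in the kernel of reduction. -/
lemma not_dbl_inH {P : (E a b).Point} {x y : ℚ} (h : At P x y) (hy : padicNorm l y = 1)
    (h2 : padicNorm l (2 : ℚ) = 1) : ¬ InH l (2 • P) := by
  have hx := x_le_of_y_lt h.eqn hy.le
  have hy0 : y ≠ 0 := by
    rintro rfl
    simp at hy
  obtain ⟨X, Y, hXY, e, -⟩ := h.dbl' hy0
  rw [two_nsmul, hXY.inH_iff]
  push Not
  have n1 : padicNorm l ((x ^ 2 - a) ^ 2 - 8 * b * x) ≤ 1 :=
    nsub (npow1 (nsub (npow1 hx 2) (nint a)) 2) (nmul1 (nmul1 (nnat 8) (nint b)) hx)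
  have n2 : padicNorm l X * padicNorm l (2 * y) ^ 2 ≤ 1 := by
    rw [← norm_pow, ← padicNorm.mul, e]; exact n1
  rw [padicNorm.mul, h2, hy] at n2
  simpa using n2

end

/-- A prime dividing the numerator of `y(3Q)` but not that of `y(Q)`. -/
lemma new_prime (hg : Good a b) {Q : (E a b).Point} {x y x₃ y₃ : ℚ} (h : At Q x y)
    (h3 : At (3 • Q) x₃ y₃) (hbad : ∀ (l : ℕ) [Fact l.Prime], (l : ℤ) ∣ 6 * (4 * a ^ 3 + 27 * b ^ 2) →
      InH l Q) (hy0 : y ≠ 0) (hgrow : y.num.natAbs < y₃.num.natAbs) :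
    ∃ r : ℕ, ∃ _ : Fact r.Prime, 3 ≤ r ∧ InH r (6 • Q) ∧ ¬ InH r (2 • Q) ∧ ¬ InH r (3 • Q) := by
  have hD : 6 * (4 * a ^ 3 + 27 * b ^ 2) ≠ 0 := mul_ne_zero (by norm_num) hg
  -- primes dividing the numerator of `y₃` are good
  have good : ∀ (l : ℕ) [Fact l.Prime], (l : ℤ) ∣ y₃.num →
      padicNorm l (2 : ℚ) = 1 ∧ padicNorm l (3 : ℚ) = 1 ∧
      padicNorm l (4 * (a : ℚ) ^ 3 + 27 * b ^ 2) = 1 := by
    intro l hl hd
    have hnd : ¬ (l : ℤ) ∣ 6 * (4 * a ^ 3 + 27 * b ^ 2) := by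
      intro h0
      have h1 : InH l (3 • Q) := (hbad l h0).nsmul 3
      have h2 : 1 < padicNorm l x₃ := h1 _ _ h3
      have h4 := norm_y_sq h3.eqn h2
      have h5 := (norm_lt_one_iff_num y₃).mpr hd
      have h6 : 1 < padicNorm l x₃ ^ 3 := one_lt_pow₀ h2 (by norm_num)
      have h7 : 0 ≤ padicNorm l y₃ := padicNorm.nonneg _
      nlinarith
    refine ⟨?_, ?_, ?_⟩
    · have := (padicNorm.int_eq_one_iff (p := l) 2).mpr (fun h0 => hnd (h0.trans ⟨3 * (4 * a ^ 3 + 27 * b ^ 2), by ring⟩))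
      simpa using this
    · have := (padicNorm.int_eq_one_iff (p := l) 3).mpr (fun h0 => hnd (h0.trans ⟨2 * (4 * a ^ 3 + 27 * b ^ 2), by ring⟩))
      simpa using this
    · have := (padicNorm.int_eq_one_iff (p := l) (4 * a ^ 3 + 27 * b ^ 2)).mpr
        (fun h0 => hnd (h0.trans ⟨6, by ring⟩))
      push_cast at this
      exact this
  have hn0 : y.num ≠ 0 := by
    intro h0; exact hy0 (Rat.num_eq_zero.mp h0)
  have hn3 : y₃.num ≠ 0 := by
    intro h0; rw [h0] at hgrow; simp at hgrow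
  -- there is a new prime
  obtain ⟨r, hr, hr3, hr1⟩ : ∃ r : ℕ, r.Prime ∧ (r : ℤ) ∣ y₃.num ∧ ¬ (r : ℤ) ∣ y.num := by
    by_contra hcon
    push Not at hcon
    have : y₃.num.natAbs ∣ y.num.natAbs := by
      rw [← Nat.factorization_prime_le_iff_dvd (Int.natAbs_ne_zero.mpr hn3) (Int.natAbs_ne_zero.mpr hn0)]
      intro p hp
      by_cases hd : (p : ℤ) ∣ y₃.num
      · have : Fact p.Prime := ⟨hp⟩
        have hd1 := hcon p hp hd
        obtain ⟨g2, g3, gD⟩ := good p hd
        have hylt := (norm_lt_one_iff_num y).mpr hd1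
        obtain ⟨X, Y, hXY, -, hYn⟩ := h.triple (x_le_of_y_lt h.eqn hylt.le) hy0 hylt g2 g3 gD
        obtain ⟨rfl, rfl⟩ := hXY.unique h3
        rw [norm_eq_num hd, norm_eq_num hd1] at hYn
        have v1 := padicNorm.eq_zpow_of_nonzero (p := p) (q := (Y.num : ℚ)) (by exact_mod_cast hn3)
        have v2 := padicNorm.eq_zpow_of_nonzero (p := p) (q := (y.num : ℚ)) (by exact_mod_cast hn0)
        rw [v1, v2, padicValRat.of_int, padicValRat.of_int] at hYn
        have hp1 : (1:ℚ) < p := by exact_mod_cast hp.one_lt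
        have h5 := zpow_right_injective₀ (by linarith) hp1.ne' hYn
        have h6 : (padicValInt p Y.num : ℤ) = padicValInt p y.num := by linarith
        have h7 : padicValInt p Y.num = padicValInt p y.num := by exact_mod_cast h6
        rw [Nat.factorization_def _ hp, Nat.factorization_def _ hp]
        exact h7.le
      · rw [Nat.factorization_eq_zero_of_not_dvd (by rwa [← Int.natCast_dvd])]
        exact Nat.zero_le _
    have := Nat.le_of_dvd (Int.natAbs_pos.mpr hn0) this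
    omega
  have hrF : Fact r.Prime := ⟨hr⟩
  obtain ⟨g2, g3, gD⟩ := good r hr3
  have hy3lt := (norm_lt_one_iff_num y₃).mpr hr3
  have n3 : ¬ InH r (3 • Q) := by
    rw [h3.inH_iff]
    push Not
    exact x_le_of_y_lt h3.eqn hy3lt.le
  refine ⟨r, hrF, ?_, ?_, ?_, n3⟩
  · have h2 : r ≠ 2 := by
      rintro rfl
      have : padicNorm 2 ((2 : ℤ) : ℚ) < 1 := (padicNorm.int_lt_one_iff 2).mpr (by norm_num)
      push_cast at this
      linarith
    have := hr.two_le
    omega
  · have := dbl_inH_of_y h3 hy3lt gD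
    rwa [smul_smul] at this
  · intro h2
    have n1 : ¬ InH r Q := fun h0 => n3 (h0.nsmul 3)
    have hx : padicNorm r x ≤ 1 := by
      by_contra hc
      push Not at hc
      exact n1 (h.inH_iff.mpr hc)
    have hy1 : padicNorm r y ≤ 1 := norm_y_le h.eqn hx
    have hy2 : padicNorm r y = 1 := by
      by_contra hc
      exact hr1 ((norm_lt_one_iff_num y).mp (lt_of_le_of_ne hy1 hc))
    exact not_dbl_inH h hy2 g2 h2

lemma order_lemma {o i j : ℕ} (h1 : o ∣ 2 ^ (i + 1) * 3 ^ (j + 1)) (h2 : ¬ o ∣ 2 ^ (i + 1) * 3 ^ j)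
    (h3 : ¬ o ∣ 2 ^ i * 3 ^ (j + 1)) : o = 2 ^ (i + 1) * 3 ^ (j + 1) := by
  obtain ⟨u, v, hu, hv, rfl⟩ := (Nat.dvd_mul).mp h1
  obtain ⟨α, hα, rfl⟩ := (Nat.dvd_prime_pow Nat.prime_two).mp hu
  obtain ⟨β, hβ, rfl⟩ := (Nat.dvd_prime_pow Nat.prime_three).mp hv
  have e1 : α = i + 1 := by
    by_contra hc
    exact h3 (Nat.mul_dvd_mul (pow_dvd_pow 2 (by omega)) (pow_dvd_pow 3 hβ))
  have e2 : β = j + 1 := by
    by_contra hc
    exact h2 (Nat.mul_dvd_mul (pow_dvd_pow 2 hα) (pow_dvd_pow 3 (by omega)))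
  rw [e1, e2]

lemma pow_two_three_inj {i j i' j' : ℕ} (h : 2 ^ i * 3 ^ j = 2 ^ i' * 3 ^ j') : i = i' ∧ j = j' := by
  have f := congrArg Nat.factorization h
  rw [Nat.factorization_mul (by positivity) (by positivity),
    Nat.factorization_mul (by positivity) (by positivity),
    Nat.Prime.factorization_pow Nat.prime_two, Nat.Prime.factorization_pow Nat.prime_two,
    Nat.Prime.factorization_pow Nat.prime_three, Nat.Prime.factorization_pow Nat.prime_three] at f
  have f2 := DFunLike.congr_fun f 2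
  have f3 := DFunLike.congr_fun f 3
  simp at f2 f3
  exact ⟨f2, f3⟩

/-- Membership of multiples in the kernel of reduction and the order in the quotient. -/
lemma inH_iff_dvd {r : ℕ} [Fact r.Prime] (G : (E a b).Point) (n : ℕ) :
    InH r (n • G) ↔ addOrderOf (QuotientAddGroup.mk G : (E a b).Point ⧸ Hs r a b) ∣ n := by
  rw [addOrderOf_dvd_iff_nsmul_eq_zero, ← QuotientAddGroup.mk_nsmul, QuotientAddGroup.eq_zero_iff]
  rfl

theorem many_primes (hg : Good a b) {c : ℝ} (hc : 0 < c)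
    (h2 : ∀ P : (E a b).Point, c * (hgt P : ℝ) ^ 4 ≤ hgt (2 • P))
    (h3 : ∀ P : (E a b).Point, c * (hgt P : ℝ) ^ 9 ≤ hgt (3 • P))
    (hfin : ∀ B : ℕ, {P : (E a b).Point | hgt P ≤ B}.Finite)
    (G : (E a b).Point) (hG : ∀ n : ℕ, 0 < n → n • G ≠ 0) (T : ℕ) (hT : 0 < T) (C : ℝ) :
    ∃ M : ℕ, 0 < M ∧ T ∣ M ∧ ∃ R : Finset ℕ,
      (∀ r ∈ R, ∃ _ : Fact r.Prime, 3 ≤ r ∧ InH r (M • G)) ∧ C * (1 + Real.log M) ≤ #R := by
  obtain ⟨H₀, hH₀⟩ := growth hg hc h2 h3
  have hD : 6 * (4 * a ^ 3 + 27 * b ^ 2) ≠ 0 := mul_ne_zero (by norm_num) hg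
  -- multiples in the kernels of reduction at bad primes
  have hex : ∀ l : ℕ, ∃ k : ℕ, 0 < k ∧ ∀ _ : Fact l.Prime, InH l (k • G) := by
    intro l
    by_cases hl : l.Prime
    · have : Fact l.Prime := ⟨hl⟩
      obtain ⟨k, hk, hk'⟩ := exists_multiple (l := l) hg G
      exact ⟨k, hk, fun _ => hk'⟩
    · exact ⟨1, one_pos, fun h => absurd h.out hl⟩
  choose kl hkl hkl' using hex
  -- large height
  obtain ⟨kh, hkh⟩ : ∃ kh : ℕ, ∀ m, kh ≤ m → H₀ ≤ hgt (m • G) := by
    obtain ⟨B, hB⟩ := exists_nat_ge H₀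
    have hinj : Function.Injective (fun m : ℕ => m • G) := by
      intro m m' h
      by_contra hne
      wlog hlt : m' < m generalizing m m'
      · exact this h.symm (Ne.symm hne) (by omega)
      apply hG (m - m') (by omega)
      have h' : m • G = m' • G := h
      have e : m = (m - m') + m' := by omega
      rw [e, add_nsmul] at h'
      simpa using h'
    have hf : {m : ℕ | hgt (m • G) ≤ B}.Finite := (hfin B).preimage hinj.injOn
    obtain ⟨kh, hkh⟩ := hf.bddAbove
    refine ⟨kh + 1, fun m hm => ?_⟩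
    by_contra hcon
    push Not at hcon
    have : hgt (m • G) ≤ B := by
      have : (hgt (m • G) : ℝ) ≤ B := hcon.le.trans hB
      exact_mod_cast this
    have := hkh this
    omega
  set S := (6 * (4 * a ^ 3 + 27 * b ^ 2)).natAbs.primeFactors with hS
  set k₀ : ℕ := T * (∏ l ∈ S, kl l) * (kh + 1) with hk₀
  have hprod : 0 < ∏ l ∈ S, kl l := Finset.prod_pos fun l _ => hkl l
  have hk₀pos : 0 < k₀ := by positivity
  set G' := k₀ • G with hG'
  have hG'0 : ∀ m : ℕ, 0 < m → m • G' ≠ 0 := by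
    intro m hm
    rw [hG', smul_smul]
    exact hG _ (Nat.mul_pos hm hk₀pos)
  have hht : ∀ m : ℕ, 0 < m → H₀ ≤ hgt (m • G') := by
    intro m hm
    rw [hG', smul_smul]
    apply hkh
    calc kh ≤ kh + 1 := by omega
      _ ≤ k₀ := by
          rw [hk₀]
          exact Nat.le_mul_of_pos_left _ (Nat.mul_pos hT hprod)
      _ ≤ m * k₀ := Nat.le_mul_of_pos_left _ hm
  have hbad : ∀ (m : ℕ) (l : ℕ) [Fact l.Prime], (l : ℤ) ∣ 6 * (4 * a ^ 3 + 27 * b ^ 2) →
      InH l (m • G') := by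
    intro m l hl hd
    have hlS : l ∈ S := by
      rw [hS, Nat.mem_primeFactors]
      exact ⟨hl.out, Int.natCast_dvd.mp hd, Int.natAbs_ne_zero.mpr hD⟩
    obtain ⟨q, hq⟩ := Finset.dvd_prod_of_mem kl hlS
    have h5 := (hkl' l hl).nsmul (m * T * q * (kh + 1))
    rw [smul_smul] at h5
    have e : m * T * q * (kh + 1) * kl l = m * k₀ := by rw [hk₀, hq]; ring
    rw [e] at h5
    rw [hG', smul_smul]
    exact h5
  -- primes
  have key : ∀ t j : ℕ, ∃ i r : ℕ, ∃ _ : Fact r.Prime, (i = 2 * t ∨ i = 2 * t + 1) ∧ 3 ≤ r ∧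
      addOrderOf (QuotientAddGroup.mk G' : (E a b).Point ⧸ Hs r a b) = 2 ^ (i + 1) * 3 ^ (j + 1) := by
    intro t j
    set P := (2 ^ (2 * t) * 3 ^ j) • G' with hP
    have hne : ∀ k : ℕ, 0 < k → k • P ≠ 0 := by
      intro k hk
      rw [hP, smul_smul]
      exact hG'0 _ (by positivity)
    obtain ⟨x, y, hxy⟩ := exists_at_of_ne (by simpa using hne 1 one_pos)
    obtain ⟨x₂, y₂, hxy2⟩ := exists_at_of_ne (hne 2 (by norm_num))
    obtain ⟨x₃, y₃, hxy3⟩ := exists_at_of_ne (hne 3 (by norm_num))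
    obtain ⟨x₆, y₆, hxy6⟩ := exists_at_of_ne (hne 6 (by norm_num))
    have hy0 : y ≠ 0 := by
      rintro rfl
      apply hne 2 (by norm_num)
      rw [two_nsmul, hxy.dbl_zero]
    have hy20 : y₂ ≠ 0 := by
      rintro rfl
      apply hne 4 (by norm_num)
      have : (4 : ℕ) • P = (2 * 2) • P := by norm_num
      rw [this, mul_nsmul, two_nsmul (2 • P), hxy2.dbl_zero]
    have fin : ∀ i : ℕ, ∀ Q : (E a b).Point, Q = (2 ^ i * 3 ^ j) • G' → ∀ r : ℕ, ∀ _ : Fact r.Prime,
        InH r (6 • Q) → ¬ InH r (2 • Q) → ¬ InH r (3 • Q) →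
        addOrderOf (QuotientAddGroup.mk G' : (E a b).Point ⧸ Hs r a b) = 2 ^ (i + 1) * 3 ^ (j + 1) := by
      intro i Q hQ r hr m6 m2 m3
      rw [hQ, smul_smul, inH_iff_dvd] at m6 m2 m3
      apply order_lemma
      · convert m6 using 1; ring
      · intro h0; apply m2; convert h0 using 1; ring
      · intro h0; apply m3; convert h0 using 1; ring
    rcases hH₀ P x y x₂ y₂ x₃ y₃ x₆ y₆ hxy hxy2 hxy3 hxy6 (hht _ (by positivity)) with hg1 | hg2
    · obtain ⟨r, hr, hr3, m6, m2, m3⟩ := new_prime hg hxy hxy3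
        (fun l _ hd => hbad _ l hd) hy0 hg1
      exact ⟨2 * t, r, hr, Or.inl rfl, hr3, fin _ P hP r hr m6 m2 m3⟩
    · have hxy6' : At (3 • (2 • P)) x₆ y₆ := by
        have : (3 : ℕ) • (2 • P) = 6 • P := by rw [smul_smul]; norm_num
        rw [this]; exact hxy6
      obtain ⟨r, hr, hr3, m6, m2, m3⟩ := new_prime hg hxy2 hxy6' (fun l _ hd => by
        have := hbad (2 * (2 ^ (2 * t) * 3 ^ j)) l hd
        rwa [mul_smul] at this) hy20 hg2
      refine ⟨2 * t + 1, r, hr, Or.inr rfl, hr3, fin _ (2 • P) ?_ r hr m6 m2 m3⟩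
      rw [hP, smul_smul]
      congr 1
      ring
  choose i r hr hi hr3 hord using key
  -- number of primes
  set C' := max C 0 with hC'
  have hC'0 : 0 ≤ C' := le_max_right _ _
  obtain ⟨N, hN⟩ := exists_nat_ge (C' * (1 + Real.log k₀) + C' * Real.log 12 + 1)
  have hlogk : 0 ≤ Real.log k₀ := Real.log_natCast_nonneg k₀
  have hlog12 : 0 ≤ Real.log 12 := Real.log_nonneg (by norm_num)
  have hN1 : (1:ℝ) ≤ N := by
    have : 0 ≤ C' * (1 + Real.log k₀) := by positivity
    have : 0 ≤ C' * Real.log 12 := by positivity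
    linarith
  refine ⟨k₀ * (2 ^ (2 * N) * 3 ^ N), by positivity, ?_, ?_⟩
  · rw [hk₀]
    exact Dvd.intro ((∏ l ∈ S, kl l) * (kh + 1) * (2 ^ (2 * N) * 3 ^ N)) (by ring)
  · refine ⟨(Finset.range N ×ˢ Finset.range N).image fun p => r p.1 p.2, ?_, ?_⟩
    · intro q hq
      obtain ⟨⟨t, j⟩, htj, rfl⟩ := Finset.mem_image.mp hq
      rw [Finset.mem_product, Finset.mem_range, Finset.mem_range] at htj
      obtain ⟨ht, hj⟩ := htj
      simp only at ht hj
      have := hr t j
      refine ⟨hr t j, hr3 t j, ?_⟩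
      rw [show k₀ * (2 ^ (2 * N) * 3 ^ N) = (2 ^ (2 * N) * 3 ^ N) * k₀ by ring, ← smul_smul, ← hG',
        inH_iff_dvd, hord t j]
      apply Nat.mul_dvd_mul (pow_dvd_pow 2 ?_) (pow_dvd_pow 3 (by omega))
      rcases hi t j with h5 | h5 <;> omega
    · rw [Finset.card_image_of_injOn]
      · rw [Finset.card_product, Finset.card_range]
        have hk₀' : (0:ℝ) < k₀ := by exact_mod_cast hk₀pos
        have e : Real.log ((k₀ * (2 ^ (2 * N) * 3 ^ N) : ℕ) : ℝ) = Real.log k₀ + N * Real.log 12 := by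
          push_cast
          rw [Real.log_mul hk₀'.ne' (by positivity)]
          congr 1
          rw [pow_mul, ← mul_pow, Real.log_pow]
          norm_num
        rw [e]
        push_cast
        have h7 : C * (1 + (Real.log k₀ + N * Real.log 12)) ≤ C' * (1 + (Real.log k₀ + N * Real.log 12)) := by
          apply mul_le_mul_of_nonneg_right (le_max_left _ _)
          positivity
        refine h7.trans ?_
        have h8 : 0 ≤ C' * (1 + Real.log k₀) := by positivity
        have h9 : C' * (1 + Real.log k₀) + C' * Real.log 12 ≤ N := by linarith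
        nlinarith
      · rintro ⟨t, j⟩ - ⟨t', j'⟩ - hrr
        simp only at hrr
        have h5 := hord t j
        have h6 := hord t' j'
        have gen : ∀ q q' : ℕ, ∀ _ : Fact q.Prime, ∀ _ : Fact q'.Prime, q = q' →
            addOrderOf (QuotientAddGroup.mk G' : (E a b).Point ⧸ Hs q a b) =
            addOrderOf (QuotientAddGroup.mk G' : (E a b).Point ⧸ Hs q' a b) := by
          intro q q' _ _ e
          subst e
          rfl
        have h7 : 2 ^ (i t j + 1) * 3 ^ (j + 1) = 2 ^ (i t' j' + 1) * 3 ^ (j' + 1) := by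
          rw [← h5, ← h6]
          exact gen _ _ (hr t j) (hr t' j') hrr
        obtain ⟨e1, e2⟩ := pow_two_three_inj h7
        have e3 : j = j' := by omega
        have e4 : t = t' := by
          rcases hi t j with h8 | h8 <;> rcases hi t' j' with h9 | h9 <;> omega
        rw [e3, e4]

end

end Pool.Agent.Helper11.Cov
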