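import Pool.Agent.Helper11.Cov.Curve

/-!
# The kernel of reduction at a prime, for `y² = x³ + a x + b`
-/

namespace Pool.Agent.Helper11.Cov

open WeierstrassCurve

section
variable {a b : ℤ} {l : ℕ} [hl : Fact l.Prime]

/-- `P = 0` or the abscissa of `P` is not `l`-integral. -/
def InH (l : ℕ) (P : (E a b).Point) : Prop := ∀ x y, At P x y → 1 < padicNorm l x

omit hl in
lemma inH_zero : InH l (0 : (E a b).Point) := fun _ _ h => absurd rfl h.ne_zero

omit hl in
lemma InH.neg {P : (E a b).Point} (h : InH l P) : InH l (-P) := by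
  intro x y hxy
  have := hxy.neg
  rw [neg_neg] at this
  exact h x _ this

omit hl in
lemma At.inH_iff {P : (E a b).Point} {x y : ℚ} (h : At P x y) : InH l P ↔ 1 < padicNorm l x := by
  constructor
  · intro h'; exact h' x y h
  · intro h' X Y hXY
    obtain ⟨rfl, -⟩ := h.unique hXY
    exact h'

/-- Adding something of smaller norm does not change the norm. -/
lemma norm_add_of_lt {x y : ℚ} (h : padicNorm l y < padicNorm l x) :
    padicNorm l (x + y) = padicNorm l x := by
  rw [padicNorm.add_eq_max_of_ne (ne_of_gt h)]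
  exact max_eq_left h.le

lemma norm_int_add_le {x : ℚ} (hx : 1 < padicNorm l x) (n : ℤ) :
    padicNorm l (x + n) = padicNorm l x :=
  norm_add_of_lt (lt_of_le_of_lt (padicNorm.of_int n) hx)

lemma norm_pow (x : ℚ) (n : ℕ) : padicNorm l (x ^ n) = padicNorm l x ^ n := by
  induction n with
  | zero => simp
  | succ n ih => rw [pow_succ, pow_succ, padicNorm.mul, ih]

/-- On the kernel of reduction `|y|² = |x|³`. -/
lemma norm_y_sq {x y : ℚ} (heq : y ^ 2 = x ^ 3 + a * x + b) (hx : 1 < padicNorm l x) :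
    padicNorm l y ^ 2 = padicNorm l x ^ 3 := by
  rw [← norm_pow, heq, add_assoc]
  have h1 : padicNorm l ((a : ℚ) * x + b) < padicNorm l (x ^ 3) := by
    rw [norm_pow]
    have h2 : padicNorm l ((a : ℚ) * x + b) ≤ padicNorm l x := by
      refine padicNorm.nonarchimedean.trans (max_le ?_ ?_)
      · rw [padicNorm.mul]
        have : padicNorm l (a : ℚ) ≤ 1 := padicNorm.of_int a
        nlinarith [padicNorm.nonneg (p := l) (a : ℚ)]
      · exact (padicNorm.of_int b).trans hx.le
    refine lt_of_le_of_lt h2 ?_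
    nlinarith [mul_pos (show (0:ℚ) < padicNorm l x by linarith) (show (0:ℚ) < padicNorm l x by linarith)]
  rw [norm_add_of_lt h1, norm_pow]

/-- Integral abscissa gives integral ordinate. -/
lemma norm_y_le {x y : ℚ} (heq : y ^ 2 = x ^ 3 + a * x + b) (hx : padicNorm l x ≤ 1) :
    padicNorm l y ≤ 1 := by
  have h1 : padicNorm l y ^ 2 ≤ 1 := by
    rw [← norm_pow, heq]
    have ha : padicNorm l (a : ℚ) ≤ 1 := padicNorm.of_int a
    have h0 : 0 ≤ padicNorm l x := padicNorm.nonneg _
    refine padicNorm.nonarchimedean.trans (max_le ?_ (padicNorm.of_int b))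
    refine padicNorm.nonarchimedean.trans (max_le ?_ ?_)
    · rw [norm_pow]; exact pow_le_one₀ h0 hx
    · rw [padicNorm.mul]
      nlinarith [padicNorm.nonneg (p := l) (a : ℚ)]
  have h0 : 0 ≤ padicNorm l y := padicNorm.nonneg _
  nlinarith

lemma InH.dbl {P : (E a b).Point} (h : InH l P) : InH l (P + P) := by
  rcases zero_or P with rfl | ⟨x, y, hxy⟩
  · rw [add_zero]; exact inH_zero
  by_cases hy : y = 0
  · subst hy
    rw [hxy.dbl_zero]; exact inH_zero
  obtain ⟨X, Y, hXY, e, -⟩ := hxy.dbl' hy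
  have hx := h x y hxy
  intro X' Y' hX'
  obtain ⟨rfl, -⟩ := hXY.unique hX'
  have heq := hxy.eqn
  have n1 : padicNorm l y ^ 2 = padicNorm l x ^ 3 := norm_y_sq heq hx
  have n2 : padicNorm l ((x ^ 2 - a) ^ 2 - 8 * b * x) = padicNorm l x ^ 4 := by
    have h2 : 1 < padicNorm l (x ^ 2) := by
      rw [pow_two, padicNorm.mul]; nlinarith
    have h3 : padicNorm l ((x ^ 2 - a) ^ 2) = padicNorm l x ^ 4 := by
      rw [norm_pow, sub_eq_add_neg, show (-(a:ℚ)) = ((-a : ℤ) : ℚ) by push_cast; ring,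
        norm_int_add_le h2, norm_pow]; ring
    rw [sub_eq_add_neg, norm_add_of_lt, h3]
    rw [h3, show -(8 * (b : ℚ) * x) = ((-(8 * b) : ℤ) : ℚ) * x by push_cast; ring, padicNorm.mul]
    have : padicNorm l ((-(8 * b) : ℤ) : ℚ) ≤ 1 := padicNorm.of_int _
    have h4 : padicNorm l ((-(8 * b) : ℤ) : ℚ) * padicNorm l x ≤ padicNorm l x := by
      nlinarith [padicNorm.nonneg (p := l) ((-(8 * b) : ℤ) : ℚ)]
    refine lt_of_le_of_lt h4 ?_
    have h5 : 1 < padicNorm l x ^ 2 := by nlinarith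
    nlinarith [mul_pos (show (0:ℚ) < padicNorm l x by linarith) (show (0:ℚ) < padicNorm l x by linarith)]
  have n3 : padicNorm l X * (padicNorm l 4 * padicNorm l x ^ 3) = padicNorm l x ^ 4 := by
    rw [← n2, ← e, ← n1, ← norm_pow]
    rw [show X * (2 * y) ^ 2 = X * (4 * y ^ 2) by ring, padicNorm.mul, padicNorm.mul]
  have h4 : padicNorm l 4 ≤ 1 := by exact_mod_cast padicNorm.of_int (p := l) 4
  have h40 : 0 ≤ padicNorm l (4 : ℚ) := padicNorm.nonneg _
  have hX0 : 0 ≤ padicNorm l X := padicNorm.nonneg _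
  have hpos : 0 < padicNorm l x ^ 3 := by positivity
  have n4 : padicNorm l X * padicNorm l 4 = padicNorm l x := by
    have : (padicNorm l X * padicNorm l 4) * padicNorm l x ^ 3 = padicNorm l x * padicNorm l x ^ 3 := by
      linear_combination n3
    exact mul_right_cancel₀ hpos.ne' this
  nlinarith

lemma InH.add {P Q : (E a b).Point} (h : InH l P) (h' : InH l Q) : InH l (P + Q) := by
  rcases zero_or P with rfl | ⟨x₁, y₁, h₁⟩
  · rwa [zero_add]
  rcases zero_or Q with rfl | ⟨x₂, y₂, h₂⟩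
  · rwa [add_zero]
  by_cases hx : x₁ = x₂
  · subst hx
    rcases h₁.same_x h₂ with rfl | rfl
    · exact h.dbl
    · rw [neg_add_cancel]; exact inH_zero
  obtain ⟨X, Y, X', Y', hX, hX', e1, e2, -⟩ := h₁.add_sub h₂ hx
  intro Z Z' hZ
  obtain ⟨rfl, -⟩ := hX.unique hZ
  by_contra hcon
  push Not at hcon
  have g₁ := h _ _ h₁
  have g₂ := h' _ _ h₂
  have hsub : x₁ - x₂ ≠ 0 := sub_ne_zero.mpr hx
  have hd : 0 < padicNorm l (x₁ - x₂) :=
    lt_of_le_of_ne (padicNorm.nonneg _) (Ne.symm (padicNorm.nonzero hsub))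
  have hM : padicNorm l (x₁ + x₂) ≤ max (padicNorm l x₁) (padicNorm l x₂) :=
    padicNorm.nonarchimedean
  have hdM : padicNorm l (x₁ - x₂) ≤ max (padicNorm l x₁) (padicNorm l x₂) := padicNorm.sub
  have h2n : padicNorm l 2 ≤ 1 := by exact_mod_cast padicNorm.of_int (p := l) 2
  generalize hMd : max (padicNorm l x₁) (padicNorm l x₂) = M at hM hdM
  have hM1 : padicNorm l x₁ ≤ M := hMd ▸ le_max_left _ _
  have hM2 : padicNorm l x₂ ≤ M := hMd ▸ le_max_right _ _
  have hMprod : M < padicNorm l x₁ * padicNorm l x₂ := by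
    rcases max_choice (padicNorm l x₁) (padicNorm l x₂) with h3 | h3 <;> rw [← hMd, h3] <;> nlinarith
  have huv1 : 1 < padicNorm l x₁ * padicNorm l x₂ := by linarith
  have m0 : 1 < padicNorm l (x₁ * x₂) := by rw [padicNorm.mul]; exact huv1
  have m1 : padicNorm l ((x₁ * x₂ - a) ^ 2 - 4 * b * (x₁ + x₂)) =
      (padicNorm l x₁ * padicNorm l x₂) * (padicNorm l x₁ * padicNorm l x₂) := by
    have h3 : padicNorm l ((x₁ * x₂ - a) ^ 2) =
        (padicNorm l x₁ * padicNorm l x₂) * (padicNorm l x₁ * padicNorm l x₂) := by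
      rw [norm_pow, sub_eq_add_neg, show (-(a:ℚ)) = ((-a : ℤ) : ℚ) by push_cast; ring,
        norm_int_add_le m0, padicNorm.mul, pow_two]
    rw [sub_eq_add_neg, norm_add_of_lt, h3]
    rw [h3, show -(4 * (b : ℚ) * (x₁ + x₂)) = ((-(4 * b) : ℤ) : ℚ) * (x₁ + x₂) by push_cast; ring,
      padicNorm.mul]
    have h5 : padicNorm l ((-(4 * b) : ℤ) : ℚ) ≤ 1 := padicNorm.of_int _
    have h4 : padicNorm l ((-(4 * b) : ℤ) : ℚ) * padicNorm l (x₁ + x₂) ≤ M := by
      nlinarith [padicNorm.nonneg (p := l) ((-(4 * b) : ℤ) : ℚ), padicNorm.nonneg (p := l) (x₁ + x₂)]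
    refine lt_of_le_of_lt h4 (hMprod.trans ?_)
    nlinarith
  have m2 : padicNorm l (x₁ * x₂ + ((a : ℤ) : ℚ)) = padicNorm l x₁ * padicNorm l x₂ := by
    rw [norm_int_add_le m0, padicNorm.mul]
  have E1 : padicNorm l X * padicNorm l X' * (padicNorm l (x₁ - x₂) * padicNorm l (x₁ - x₂)) =
      (padicNorm l x₁ * padicNorm l x₂) * (padicNorm l x₁ * padicNorm l x₂) := by
    have := congrArg (padicNorm l) e1
    rw [m1, padicNorm.mul, padicNorm.mul, pow_two, padicNorm.mul] at this
    exact this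
  have E2 : padicNorm l (X + X') * (padicNorm l (x₁ - x₂) * padicNorm l (x₁ - x₂)) ≤
      padicNorm l x₁ * padicNorm l x₂ * M := by
    have := congrArg (padicNorm l) e2
    rw [padicNorm.mul, pow_two, padicNorm.mul] at this
    rw [this, padicNorm.mul]
    have h6 : padicNorm l ((x₁ * x₂ + a) * (x₁ + x₂) + 2 * b) ≤
        padicNorm l x₁ * padicNorm l x₂ * M := by
      refine padicNorm.nonarchimedean.trans (max_le ?_ ?_)
      · rw [padicNorm.mul, m2]
        gcongr
      · have h8 : padicNorm l (2 * (b : ℚ)) ≤ 1 := by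
          rw [show 2 * (b : ℚ) = ((2 * b : ℤ) : ℚ) by push_cast; ring]
          exact padicNorm.of_int _
        nlinarith
    have h7 : 0 ≤ padicNorm l ((x₁ * x₂ + a) * (x₁ + x₂) + 2 * b) := padicNorm.nonneg _
    have h8 : 0 ≤ padicNorm l 2 := padicNorm.nonneg _
    nlinarith
  have hX0 : 0 ≤ padicNorm l X := padicNorm.nonneg _
  have hX'0 : 0 ≤ padicNorm l X' := padicNorm.nonneg _
  generalize padicNorm l x₁ = u at *
  generalize padicNorm l x₂ = v at *
  generalize hdd : padicNorm l (x₁ - x₂) = d at *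
  have huv : 0 < u * v := by nlinarith
  have hXd : (u * v) * (u * v) ≤ padicNorm l X' * (d * d) := by
    rw [← E1, mul_assoc]
    exact mul_le_of_le_one_left (by positivity) hcon
  have hX'1 : 1 < padicNorm l X' := by
    by_contra h9
    push Not at h9
    have h12 : d * d ≤ M * M := mul_le_mul hdM hdM hd.le (hd.le.trans hdM)
    have h13 : padicNorm l X' * (d * d) ≤ 1 * (M * M) :=
      mul_le_mul h9 h12 (by positivity) zero_le_one
    have h14 : M * M < (u * v) * (u * v) := by
      have hM0 : 0 ≤ M := by linarith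
      exact mul_lt_mul'' hMprod hMprod hM0 hM0
    linarith
  have hne : padicNorm l X ≠ padicNorm l X' := by intro h9; linarith
  rw [padicNorm.add_eq_max_of_ne hne, max_eq_right (by linarith)] at E2
  have h10 : u * v * (u * v) ≤ u * v * M := hXd.trans E2
  have h11 := le_of_mul_le_mul_left h10 huv
  linarith

lemma InH.sub {P Q : (E a b).Point} (h : InH l P) (h' : InH l Q) : InH l (P - Q) := by
  rw [sub_eq_add_neg]; exact h.add h'.neg

/-- The kernel of reduction as a subgroup. -/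
def Hs (l : ℕ) [Fact l.Prime] (a b : ℤ) : AddSubgroup (E a b).Point where
  carrier := {P | InH l P}
  add_mem' := InH.add
  zero_mem' := inH_zero
  neg_mem' := InH.neg

lemma mem_Hs {P : (E a b).Point} : P ∈ Hs l a b ↔ InH l P := Iff.rfl

lemma InH.zsmul {P : (E a b).Point} (h : InH l P) (n : ℤ) : InH l (n • P) :=
  (Hs l a b).zsmul_mem h n

lemma InH.nsmul {P : (E a b).Point} (h : InH l P) (n : ℕ) : InH l (n • P) :=
  (Hs l a b).nsmul_mem h n

end

end Pool.Agent.Helper11.Cov
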