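import Pool.Agent.Helper11.Cov.CM
import Pool.Agent.Helper11.Cov.Geo2

/-!
# One-parameter families of covers of products of elliptic curves with `j = 0` or `1728`
-/

namespace Pool.Agent.Helper11.Cov

open WeierstrassCurve Finset

/-! ## Counting -/

section
variable {F : Type*} [Field F] [Fintype F] [DecidableEq F]

/-- Counting the parameters for which the polynomial has a root; all coefficients are fixed, except
that parameters are added to the constant coefficient and, if `m ≥ 3`, to the linear one. -/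
theorem count_param (h2 : (2 : F) ≠ 0) (hq : 3 ≤ Fintype.card F) {m k : ℕ} (hm : 2 ≤ m)
    (hk : k = min (m - 1) 2) (g : Fin m → F) (B : Finset (Fin k → F))
    (hB : ∀ t ∈ B, ∃ Z, Z ^ m + ∑ j, g j * Z ^ (j : ℕ) + ∑ i, t i * Z ^ (i : ℕ) = 0) :
    3 * m * #B ≤ (3 * m - 2) * Fintype.card F ^ k := by
  classical
  set q := Fintype.card F with hqdef
  by_cases hm2 : m = 2
  · subst hm2
    obtain rfl : k = 1 := by omega
    have e := count_single (F := F) h2 (g 1) (g 0)
    rw [← hqdef] at e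
    have hle : #B ≤ #{v : F | ∃ Z, Z ^ 2 + g 1 * Z + g 0 + v = 0} := by
      refine Finset.card_le_card_of_injOn (fun t => t 0) ?_ ?_
      · intro t ht
        obtain ⟨Z, hZ⟩ := hB t ht
        simp only [coe_filter, mem_univ, true_and, Set.mem_ofPred_eq]
        refine ⟨Z, ?_⟩
        rw [Fin.sum_univ_two, Fin.sum_univ_one] at hZ
        simp only [Fin.val_zero, pow_zero, Fin.val_one, pow_one] at hZ
        linear_combination hZ
      · intro t _ t' _ h
        funext i
        rw [Subsingleton.elim i 0]; exact h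
    rw [pow_one]
    omega
  · have hm3 : 3 ≤ m := by omega
    obtain rfl : k = 2 := by omega
    have e := count_pairs (F := F) (fun Z => Z ^ m + ∑ j, g j * Z ^ (j : ℕ)) m (by
      intro u w
      have := roots_le (m := m) (∑ j : Fin m, Polynomial.C (g j) * Polynomial.X ^ (j : ℕ) +
          Polynomial.C u * Polynomial.X + Polynomial.C w : Polynomial F) (by
        refine lt_of_le_of_lt (Polynomial.degree_add_le _ _) (max_lt (lt_of_le_of_lt
          (Polynomial.degree_add_le _ _) (max_lt ?_ ?_)) ?_)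
        · refine lt_of_le_of_lt (Polynomial.degree_sum_le _ _) ?_
          rw [Finset.sup_lt_iff (by exact_mod_cast WithBot.bot_lt_coe m)]
          intro s _
          refine lt_of_le_of_lt (Polynomial.degree_C_mul_X_pow_le _ _) ?_
          exact_mod_cast s.2
        · refine lt_of_le_of_lt (Polynomial.degree_C_mul_X_le _) ?_
          exact_mod_cast (by omega : 1 < m)
        · refine lt_of_le_of_lt Polynomial.degree_C_le ?_
          exact_mod_cast (by omega : 0 < m))
      refine le_trans (le_of_eq ?_) this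
      congr 1
      ext Z
      simp only [mem_filter, mem_univ, true_and, Polynomial.eval_add, Polynomial.eval_finsetSum,
        Polynomial.eval_mul, Polynomial.eval_C, Polynomial.eval_pow, Polynomial.eval_X]
      constructor <;> intro h0 <;> linear_combination h0)
    rw [← hqdef] at e
    have hle : #B ≤ #{p : F × F | ∃ Z, (Z ^ m + ∑ j, g j * Z ^ (j : ℕ)) + p.1 * Z + p.2 = 0} := by
      refine Finset.card_le_card_of_injOn (fun t => (t 1, t 0)) ?_ ?_
      · intro t ht
        obtain ⟨Z, hZ⟩ := hB t ht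
        simp only [coe_filter, mem_univ, true_and, Set.mem_ofPred_eq]
        refine ⟨Z, ?_⟩
        have e1 : ∑ i : Fin 2, t i * Z ^ (i : ℕ) = t 0 + t 1 * Z := by
          rw [Fin.sum_univ_two]; simp
        rw [e1] at hZ
        linear_combination hZ
      · intro t _ t' _ h
        simp only [Prod.mk.injEq] at h
        funext i
        fin_cases i
        · exact h.2
        · exact h.1
    obtain ⟨q', hq'⟩ : ∃ q', q = q' + 3 := ⟨q - 3, by omega⟩
    have h3 : (3 * m - 2) + 2 = 3 * m := by omega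
    have h4 : q - 1 = q' + 2 := by omega
    set K := #{p : F × F | ∃ Z, (Z ^ m + ∑ j, g j * Z ^ (j : ℕ)) + p.1 * Z + p.2 = 0}
    rw [h4] at e
    have h5 : 3 * m * #B ≤ 3 * (m * K) := by nlinarith
    have h6 : (3 * m - 2) * q ^ 2 + 2 * q ^ 2 = 3 * m * q ^ 2 := by rw [← add_mul, h3]
    have h7 : 2 * q ^ 2 ≤ 3 * (q * (q' + 2)) := by
      rw [hq']; nlinarith
    nlinarith

end

/-! ## Reduction -/

/-- Ring homomorphisms commute with evaluation of integral polynomials. -/
lemma map_aeval_int {S T σ : Type*} [CommRing S] [CommRing T] (φ : S →+* T) (f : σ → S)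
    (p : MvPolynomial σ ℤ) :
    φ (MvPolynomial.aeval f p) = MvPolynomial.aeval (fun i => φ (f i)) p := by
  have := MvPolynomial.comp_aeval_apply (R := ℤ) f φ.toIntAlgHom p
  exact this

section
variable {a b : ℤ}

/-- The functions `1 / (1 + x²)`, `x / (1 + x²)` and `y / (1 + x²)`; they vanish at the origin. -/
def coo {a b : ℤ} (j : Fin 3) : (E a b).Point → ℚ
  | 0 => 0
  | .some x y _ => ![1, x, y] j / (1 + x ^ 2)

lemma sq_add_ne {A D : ℤ} {l : ℕ} [hl : Fact l.Prime] (h4 : l % 4 = 3) (h : IsCoprime A D) :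
    ((D ^ 4 + A ^ 2 : ℤ) : ZMod l) ≠ 0 := by
  intro h0
  push_cast at h0
  by_cases hD : (D : ZMod l) = 0
  · rw [hD] at h0
    have hA : (A : ZMod l) = 0 := by
      have : (A : ZMod l) ^ 2 = 0 := by linear_combination h0
      exact pow_eq_zero_iff (by norm_num) |>.mp this
    rw [ZMod.intCast_zmod_eq_zero_iff_dvd] at hD hA
    have := h.isUnit_of_dvd' hA hD
    rw [Int.isUnit_iff] at this
    have := hl.out.two_le
    omega
  · have : IsSquare (-1 : ZMod l) := by
      refine ⟨(A : ZMod l) / D ^ 2, ?_⟩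
      field_simp
      linear_combination -h0
    exact (ZMod.exists_sq_eq_neg_one_iff.mp this) h4

/-- The residues of the three functions. -/
def cooR {R : Type*} [Field R] (A B D : R) (j : Fin 3) : R :=
  ![D ^ 4, A * D ^ 2, B * D] j / (D ^ 4 + A ^ 2)

lemma cooR_scale {R : Type*} [Field R] {u : R} (hu : u ≠ 0) (A B D : R) (j : Fin 3) :
    cooR (u ^ 2 * A) (u ^ 3 * B) (u * D) j = cooR A B D j := by
  unfold cooR
  have e : (u * D) ^ 4 + (u ^ 2 * A) ^ 2 = u ^ 4 * (D ^ 4 + A ^ 2) := by ring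
  rw [e]
  fin_cases j
  · simp only [Fin.zero_eta, Matrix.cons_val_zero]
    rw [mul_pow, mul_div_mul_left _ _ (pow_ne_zero 4 hu)]
  · simp only [Fin.mk_one, Matrix.cons_val_one, Matrix.cons_val_zero]
    rw [show u ^ 2 * A * (u * D) ^ 2 = u ^ 4 * (A * D ^ 2) by ring,
      mul_div_mul_left _ _ (pow_ne_zero 4 hu)]
  · simp only [Fin.reduceFinMk, Matrix.cons_val]
    rw [show u ^ 3 * B * (u * D) = u ^ 4 * (B * D) by ring,
      mul_div_mul_left _ _ (pow_ne_zero 4 hu)]

lemma coo_irep {P : (E a b).Point} {A B D : ℤ} (h : IRep P A B D) (j : Fin 3) :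
    coo j P = cooR (A : ℚ) B D j := by
  obtain ⟨-, -, -, ⟨rfl, rfl, rfl, rfl⟩ | ⟨x, y, ⟨hns, rfl⟩, hD, hx, hy⟩⟩ := h
  · have e : coo j (0 : (E a b).Point) = 0 := rfl
    rw [e]
    unfold cooR
    fin_cases j <;> simp
  · have e : coo j (Affine.Point.some x y hns : (E a b).Point) = ![1, x, y] j / (1 + x ^ 2) := rfl
    rw [e]
    have hD0 : (D : ℚ) ≠ 0 := by exact_mod_cast hD.ne'
    have h1 : (1 + x ^ 2 : ℚ) ≠ 0 := by positivity
    unfold cooR
    rw [← hx, ← hy]
    have e4 : (D : ℚ) ^ 4 + (x * D ^ 2) ^ 2 = D ^ 4 * (1 + x ^ 2) := by ring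
    rw [e4]
    fin_cases j
    · simp only [Fin.zero_eta, Matrix.cons_val_zero]
      field_simp
    · simp only [Fin.mk_one, Matrix.cons_val_one, Matrix.cons_val_zero]
      field_simp
    · simp only [Fin.reduceFinMk, Matrix.cons_val]
      field_simp

end

/-- Reduction modulo `l` of the equation of the cover. -/
lemma reduce_eq {n : ℕ} {l : ℕ} [hl : Fact l.Prime] (h4 : l % 4 = 3) {A B D : Fin n → ℤ}
    (hcop : ∀ i, IsCoprime (A i) (D i)) {m k : ℕ} (hkm : k ≤ m)
    (h : Fin m → MvPolynomial (Fin n × Fin 3) ℤ) (t : Fin k → ℤ) {z : ℚ}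
    (hz : z ^ m + ∑ j, MvPolynomial.aeval (fun p : Fin n × Fin 3 =>
      cooR (A p.1 : ℚ) (B p.1) (D p.1) p.2) (h j) * z ^ (j : ℕ) + ∑ i, (t i : ℚ) * z ^ (i : ℕ) = 0) :
    ∃ Z : ZMod l, Z ^ m + ∑ j, MvPolynomial.aeval (fun p : Fin n × Fin 3 =>
      cooR (A p.1 : ZMod l) (B p.1) (D p.1) p.2) (h j) * Z ^ (j : ℕ) +
        ∑ i, (t i : ZMod l) * Z ^ (i : ℕ) = 0 := by
  have hunit : ∀ i, ∃ w : ℤ_[l], ((D i ^ 4 + A i ^ 2 : ℤ) : ℤ_[l]) * w = 1 := by
    intro i
    have h1 := sq_add_ne h4 (hcop i)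
    have h2 : IsUnit ((D i ^ 4 + A i ^ 2 : ℤ) : ℤ_[l]) := by
      rw [PadicInt.isUnit_iff]
      by_contra hc
      have h3 : ‖((D i ^ 4 + A i ^ 2 : ℤ) : ℤ_[l])‖ < 1 := lt_of_le_of_ne (PadicInt.norm_le_one _) hc
      rw [PadicInt.norm_int_lt_one_iff_dvd] at h3
      exact h1 ((ZMod.intCast_zmod_eq_zero_iff_dvd _ l).mpr h3)
    exact h2.exists_right_inv
  choose w hw using hunit
  set U : Fin n × Fin 3 → ℤ_[l] := fun p =>
    ![(D p.1 : ℤ_[l]) ^ 4, (A p.1 : ℤ_[l]) * (D p.1 : ℤ_[l]) ^ 2, (B p.1 : ℤ_[l]) * (D p.1 : ℤ_[l])] p.2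
      * w p.1 with hU
  -- compatibility with a homomorphism to a field
  have comp : ∀ {R : Type} [Field R] (φ : ℤ_[l] →+* R) (p : Fin n × Fin 3),
      φ (U p) = cooR (A p.1 : R) (B p.1) (D p.1) p.2 := by
    intro R _ φ p
    obtain ⟨i, j⟩ := p
    have h5 : ((D i : R) ^ 4 + (A i : R) ^ 2) * φ (w i) = 1 := by
      have := congrArg φ (hw i)
      simpa using this
    have h6 : ((D i : R) ^ 4 + (A i : R) ^ 2) ≠ 0 := left_ne_zero_of_mul_eq_one h5
    have h7 : φ (w i) = ((D i : R) ^ 4 + (A i : R) ^ 2)⁻¹ := by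
      rw [eq_inv_of_mul_eq_one_right h5]
    simp only [hU, cooR, map_mul, h7, div_eq_mul_inv]
    congr 1
    fin_cases j <;> simp
  -- the embedding of `ℚ`
  set c : ℤ_[l] →+* ℚ_[l] := PadicInt.Coe.ringHom with hc
  have hz' : (z : ℚ_[l]) ^ m + ∑ j, MvPolynomial.aeval (fun p => c (U p)) (h j) * (z : ℚ_[l]) ^ (j : ℕ)
      + ∑ i, (t i : ℚ_[l]) * (z : ℚ_[l]) ^ (i : ℕ) = 0 := by
    have h8 := congrArg (Rat.castHom ℚ_[l]) hz
    simp only [map_add, map_pow, map_sum, map_mul, map_zero, map_intCast, map_aeval_int] at h8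
    have h9 : ∀ p : Fin n × Fin 3, (Rat.castHom ℚ_[l]) (cooR (A p.1 : ℚ) (B p.1) (D p.1) p.2) = c (U p) := by
      intro p
      rw [comp c p]
      obtain ⟨i, j⟩ := p
      simp only [cooR]
      rw [map_div₀]
      congr 1
      · fin_cases j <;> simp
    simp only [h9] at h8
    exact h8
  set q : Polynomial ℤ_[l] := Polynomial.X ^ m +
    (∑ j : Fin m, Polynomial.C (MvPolynomial.aeval U (h j)) * Polynomial.X ^ (j : ℕ) +
    ∑ i : Fin k, Polynomial.C (t i : ℤ_[l]) * Polynomial.X ^ (i : ℕ)) with hq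
  have hmonic : q.Monic := by
    rw [hq]
    apply Polynomial.monic_X_pow_add
    refine lt_of_le_of_lt (Polynomial.degree_add_le _ _) (max_lt ?_ ?_)
    · refine lt_of_le_of_lt (Polynomial.degree_sum_le _ _) ?_
      rw [Finset.sup_lt_iff (by exact_mod_cast WithBot.bot_lt_coe m)]
      intro s _
      refine lt_of_le_of_lt (Polynomial.degree_C_mul_X_pow_le _ _) ?_
      exact_mod_cast s.2
    · refine lt_of_le_of_lt (Polynomial.degree_sum_le _ _) ?_
      rw [Finset.sup_lt_iff (by exact_mod_cast WithBot.bot_lt_coe m)]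
      intro s _
      refine lt_of_le_of_lt (Polynomial.degree_C_mul_X_pow_le _ _) ?_
      exact_mod_cast (by have := s.2; omega)
  have hroot : Polynomial.aeval (z : ℚ_[l]) q = 0 := by
    rw [hq, ← hz']
    simp only [map_add, map_pow, Polynomial.aeval_X, map_sum, map_mul, Polynomial.aeval_C]
    rw [add_assoc]
    congr 2
    · refine Finset.sum_congr rfl fun j _ => ?_
      congr 1
      have := map_aeval_int c U (h j)
      rw [← this]
      rfl
  obtain ⟨Z, hZ⟩ := isInteger_of_is_root_of_monic hmonic hroot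
  have hZq : q.eval Z = 0 := by
    have hinj : Function.Injective (algebraMap ℤ_[l] ℚ_[l]) := IsFractionRing.injective _ _
    apply hinj
    rw [map_zero, ← hroot, ← hZ, Polynomial.aeval_algebraMap_apply, Polynomial.coe_aeval_eq_eval]
  refine ⟨PadicInt.toZMod Z, ?_⟩
  have := congrArg (PadicInt.toZMod (p := l)) hZq
  rw [hq] at this
  simp only [Polynomial.eval_add, Polynomial.eval_pow, Polynomial.eval_X, Polynomial.eval_finsetSum,
    Polynomial.eval_mul, Polynomial.eval_C] at this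
  simp only [map_add, map_pow, map_sum, map_mul, map_zero,
    map_intCast, map_aeval_int, comp] at this
  rw [← this, add_assoc]

/-! ## The sieve -/

/-- Finite generation together with many primes `r = 3 mod 4` killing the groups. -/
def Key4 {n : ℕ} (a b : Fin n → ℤ) : Prop :=
  (∀ i, ∃ g : ℕ, ∃ G : Fin g → (E (a i) (b i)).Point, ∀ P, ∃ k : Fin g → ℤ, P = ∑ j, k j • G j) ∧
  ∀ C : ℝ, ∃ M : ℕ, 0 < M ∧ ∃ R : Finset ℕ,
    (∀ r ∈ R, r % 4 = 3 ∧ ∃ _ : Fact r.Prime, ∀ i, ∀ P : (E (a i) (b i)).Point, InH r (M • P)) ∧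
    C * (1 + Real.log M) ≤ #R

theorem key4_cm {n : ℕ} (a b : Fin n → ℤ) (hab : ∀ i, (a i ≠ 0 ∧ b i = 0) ∨ (a i = 0 ∧ b i ≠ 0)) :
    Key4 a b := by
  refine ⟨(key_cm a b hab).1, fun C => ?_⟩
  set B : ℕ := 3 + ∑ i, ((a i).natAbs + (b i).natAbs) with hB
  obtain ⟨M, T, hM, hT, hcard⟩ := Pool.Agent.Helper52.SmoothPrimes.smooth_primes_class
    (D := 12) (by norm_num) 11 (by norm_num) B C
  refine ⟨M, by omega, T, fun r hr => ?_, hcard⟩
  obtain ⟨⟨hp, hr12⟩, hrB, hrM⟩ := hT r hr
  have hF : Fact r.Prime := ⟨hp⟩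
  refine ⟨by omega, hF, fun i P => ?_⟩
  have hle : (a i).natAbs + (b i).natAbs ≤ ∑ i, ((a i).natAbs + (b i).natAbs) :=
    Finset.single_le_sum (f := fun i => (a i).natAbs + (b i).natAbs) (fun _ _ => Nat.zero_le _)
      (Finset.mem_univ i)
  have hnd : ∀ t : ℤ, t ≠ 0 → t.natAbs ≤ (a i).natAbs + (b i).natAbs → ¬ (r : ℤ) ∣ t := by
    intro t ht htl hd
    have h1 := Int.natCast_dvd.mp hd
    have h2 := Nat.le_of_dvd (Int.natAbs_pos.mpr ht) h1
    omega
  obtain ⟨q, hq⟩ := hrM
  have key : InH r ((r + 1) • P) := by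
    rcases hab i with ⟨h1, h2⟩ | ⟨h1, h2⟩
    · have h3 := hnd (a i) h1 (by omega)
      revert P
      rw [h2]
      intro P
      exact Pool.Agent.Helper10.SS.kill' (a i) r (by omega) h3 P
    · have h3 := hnd (b i) h2 (by omega)
      revert P
      rw [h1]
      intro P
      exact kill_b (b i) (by omega) (by omega) h3 P
  have := key.nsmul q
  rwa [smul_smul, mul_comm, ← hq] at this

/-- `(P, z)` is a rational point of the cover
`z ^ m + ∑ j < m, h j (P) * z ^ j + ∑ i < k, t i * z ^ i = 0`. -/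
def OnPencil {n : ℕ} (a b : Fin n → ℤ) {m k : ℕ} (h : Fin m → MvPolynomial (Fin n × Fin 3) ℤ)
    (t : Fin k → ℤ) (P : ∀ i, (E (a i) (b i)).Point) (z : ℚ) : Prop :=
  z ^ m + ∑ j, MvPolynomial.aeval (fun p : Fin n × Fin 3 => coo p.2 (P p.1)) (h j) * z ^ (j : ℕ) +
    ∑ i, (t i : ℚ) * z ^ (i : ℕ) = 0

/-- The sieve bound, uniform in the family. -/
theorem pencil_bound {n : ℕ} {a b : Fin n → ℤ} (hK : Key4 a b) {m k : ℕ} (hm : 2 ≤ m)
    (hk : k = min (m - 1) 2) {ε : ℝ} (hε : 0 < ε) : ∃ Q : ℕ, ∀ H : ℕ,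
    ∀ (h : Fin m → MvPolynomial (Fin n × Fin 3) ℤ)
      [DecidablePred fun t : Fin k → ℤ => ∃ P z, OnPencil a b h t P z],
      (#{t ∈ Box (Fin k) H | ∃ P z, OnPencil a b h t P z} : ℝ) ≤ ε * (2 * H + Q : ℝ) ^ k := by
  classical
  obtain ⟨hgen, hprimes⟩ := hK
  choose g G hG using hgen
  set gg : ℕ := ∑ i, g i with hgg
  set θ : ℝ := 1 - 2 / (3 * m) with hθ
  have hm' : (2:ℝ) ≤ m := by exact_mod_cast hm
  have hθ0 : 0 < θ := by
    rw [hθ]
    have : 2 / (3 * (m:ℝ)) < 1 := by rw [div_lt_one (by positivity)]; linarith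
    linarith
  have hθ1 : θ < 1 := by
    rw [hθ]
    have : 0 < 2 / (3 * (m:ℝ)) := by positivity
    linarith
  have hlam : 0 < -Real.log θ := by
    have := Real.log_neg hθ0 hθ1
    linarith
  obtain ⟨M, hM, R, hR, hcard⟩ := hprimes ((gg + |Real.log ε|) / (-Real.log θ))
  have : NeZero M := ⟨hM.ne'⟩
  have hprime : ∀ j : R, Fact j.1.Prime := fun j => (hR j.1 j.2).2.choose
  have : ∀ j : R, NeZero j.1 := fun j => ⟨(hprime j).out.ne_zero⟩
  -- the class of a point
  let κ := ∀ i : Fin n, Fin (g i) → ZMod M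
  have hκ : Fintype.card κ = M ^ gg := by
    rw [Fintype.card_pi]
    simp only [Fintype.card_pi, ZMod.card, Finset.prod_const, Finset.card_univ, Fintype.card_fin]
    rw [hgg, Finset.prod_pow_eq_pow_sum]
  choose kk hkk using hG
  let cls : (∀ i, (E (a i) (b i)).Point) → κ := fun P i j => (kk i (P i) j : ZMod M)
  have hcls : ∀ P P', cls P = cls P' → ∀ r ∈ R, ∀ _ : Fact r.Prime, ∀ i, InH r (P' i - P i) := by
    intro P P' h r hr hrF i
    have h1 : ∀ j, (M : ℤ) ∣ kk i (P' i) j - kk i (P i) j := by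
      intro j
      have := congrFun (congrFun h i) j
      rw [← ZMod.intCast_zmod_eq_zero_iff_dvd]
      push_cast
      exact sub_eq_zero.mpr this.symm
    choose q hq using h1
    have h2 : P' i - P i = M • (∑ j, q j • G i j) := by
      rw [hkk i (P' i), hkk i (P i), ← Finset.sum_sub_distrib, Finset.smul_sum]
      refine Finset.sum_congr rfl fun j _ => ?_
      rw [← sub_smul, hq j, mul_smul, natCast_zsmul]
    rw [h2]
    obtain ⟨-, -, h3⟩ := hR r hr
    exact h3 i _
  -- integer coordinates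
  choose Ac Bc Dc hrep using fun (i : Fin n) (Q : (E (a i) (b i)).Point) => exists_irep Q
  refine ⟨∏ j : R, j.1, fun H h _ => ?_⟩
  let vP : (∀ i, (E (a i) (b i)).Point) → ∀ l : ℕ, [Fact l.Prime] → Fin m → ZMod l := fun P l _ j =>
    MvPolynomial.aeval (fun p : Fin n × Fin 3 =>
      cooR (Ac p.1 (P p.1) : ZMod l) (Bc p.1 (P p.1)) (Dc p.1 (P p.1)) p.2) (h j)
  let Bd : κ → ∀ j : R, Finset (Fin k → ZMod j.1) := fun c j =>
    if hex : ∃ P, cls P = c then
      ({t | ∃ Z, Z ^ m + ∑ i, (@vP hex.choose j.1 (hprime j)) i * Z ^ (i : ℕ) +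
        ∑ i, t i * Z ^ (i : ℕ) = 0} : Finset (Fin k → ZMod j.1)) else ∅
  have hbad : ∀ c (j : R), (#(Bd c j) : ℝ) ≤ θ * (j.1 : ℝ) ^ Fintype.card (Fin k) := by
    intro c j
    simp only [Bd]
    split_ifs with hex
    · have := hprime j
      have h3 : 3 ≤ j.1 := by
        have := (hR j.1 j.2).1
        omega
      have h2 : (2 : ZMod j.1) ≠ 0 := by
        intro h0
        have : ((2 : ℕ) : ZMod j.1) = 0 := by exact_mod_cast h0
        rw [ZMod.natCast_eq_zero_iff] at this
        have := Nat.le_of_dvd (by norm_num) this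
        omega
      have := count_param (F := ZMod j.1) h2 (by rw [ZMod.card]; exact h3) hm hk
        (vP hex.choose j.1) {t | ∃ Z, Z ^ m + ∑ i, vP hex.choose j.1 i * Z ^ (i : ℕ) +
        ∑ i, t i * Z ^ (i : ℕ) = 0} (fun t ht => (Finset.mem_filter.mp ht).2)
      have h6 := (Nat.cast_le (α := ℝ)).mpr this
      have h7 : 2 ≤ 3 * m := by omega
      push_cast [h7] at h6
      rw [ZMod.card] at h6
      have hm0 : (0:ℝ) < 3 * m := by positivity
      rw [Fintype.card_fin]
      have h8 : θ * (j.1 : ℝ) ^ k = ((3 * m - 2 : ℝ) * (j.1 : ℝ) ^ k) / (3 * m) := by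
        rw [hθ]; field_simp
      rw [h8, le_div_iff₀ hm0]
      linarith
    · simp only [Finset.card_empty, Nat.cast_zero]
      positivity
  have hsieve := box_sieve (ι := Fin k) (fun j : R => j.1) (fun i j hij => by
      have h1 := (hprime i).out
      have h2 := (hprime j).out
      exact (Nat.coprime_primes h1 h2).mpr (fun h => hij (Subtype.ext h))) Bd θ hθ0.le hbad H
      {t : Fin k → ℤ | ∃ P z, OnPencil a b h t P z} (by
        rintro t ⟨P, z, hc⟩
        refine ⟨cls P, fun j => ?_⟩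
        have := hprime j
        have hex : ∃ P', cls P' = cls P := ⟨P, rfl⟩
        simp only [Bd, dif_pos hex]
        set P' := hex.choose with hP'
        have hPP' : cls P' = cls P := hex.choose_spec
        rw [Finset.mem_filter]
        refine ⟨Finset.mem_univ _, ?_⟩
        unfold OnPencil at hc
        have h4 : j.1 % 4 = 3 := (hR j.1 j.2).1
        have e1 : (fun p : Fin n × Fin 3 => coo p.2 (P p.1)) = fun p : Fin n × Fin 3 =>
            cooR (Ac p.1 (P p.1) : ℚ) (Bc p.1 (P p.1)) (Dc p.1 (P p.1)) p.2 := by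
          funext p
          exact coo_irep (hrep p.1 (P p.1)) p.2
        rw [e1] at hc
        obtain ⟨Z, hZ⟩ := reduce_eq (l := j.1) h4 (A := fun i => Ac i (P i)) (B := fun i => Bc i (P i))
          (D := fun i => Dc i (P i)) (fun i => (hrep i (P i)).1) (by omega) h t hc
        refine ⟨Z, ?_⟩
        have e2 : (fun p : Fin n × Fin 3 =>
            cooR (Ac p.1 (P' p.1) : ZMod j.1) (Bc p.1 (P' p.1)) (Dc p.1 (P' p.1)) p.2) =
            fun p : Fin n × Fin 3 =>
            cooR (Ac p.1 (P p.1) : ZMod j.1) (Bc p.1 (P p.1)) (Dc p.1 (P p.1)) p.2 := by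
          funext p
          obtain ⟨u, hu, hA, hB, hD⟩ := (hrep p.1 (P p.1)).cong (hrep p.1 (P' p.1))
            (hcls P P' hPP'.symm j.1 j.2 (hprime j) p.1)
          rw [hA, hB, hD, cooR_scale hu]
        simp only [vP]
        rw [e2]
        exact hZ)
  rw [Fintype.card_fin] at hsieve
  have hnum : (Fintype.card κ : ℝ) * θ ^ Fintype.card R ≤ ε := by
    rw [hκ, Fintype.card_coe]
    push_cast
    have hMr : (0:ℝ) < M := by exact_mod_cast hM
    have hlogM : 0 ≤ Real.log M := Real.log_natCast_nonneg M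
    rw [← Real.log_le_log_iff (by positivity) hε, Real.log_mul (by positivity) (by positivity),
      Real.log_pow, Real.log_pow]
    have h9 : (gg + |Real.log ε|) * (1 + Real.log M) ≤ #R * (-Real.log θ) := by
      have h := mul_le_mul_of_nonneg_right hcard hlam.le
      calc (gg + |Real.log ε|) * (1 + Real.log M) =
          (gg + |Real.log ε|) / (-Real.log θ) * (1 + Real.log M) * (-Real.log θ) := by
            have hne : -Real.log θ ≠ 0 := hlam.ne'
            generalize -Real.log θ = t at hne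
            field_simp
        _ ≤ _ := h
    have h10 : 0 ≤ |Real.log ε| := abs_nonneg _
    have h11 : -|Real.log ε| ≤ Real.log ε := neg_abs_le _
    have h12 : (0:ℝ) ≤ gg := by positivity
    nlinarith
  push_cast
  refine le_trans ?_ (mul_le_mul_of_nonneg_right hnum (by positivity))
  exact hsieve

/-! ## Varieties dominating the cover -/

open AlgebraicGeometry CategoryTheory

/-- If a variety dominating the cover has dense rational points, the cover has a rational point. -/
theorem exists_onPencil {n : ℕ} {a b : Fin n → ℤ} (hg : ∀ i, Good (a i) (b i)) {m k : ℕ}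
    {h : Fin m → MvPolynomial (Fin n × Fin 3) ℤ} {t : Fin k → ℤ} {V : Scheme.{0}} [IsIntegral V]
    (f : V ⟶ Spec (CommRingCat.of ℚ)) (x y : Fin n → V.functionField) (z : V.functionField)
    (hxy : ∀ i, y i ^ 2 = x i ^ 3 + (a i : V.functionField) * x i + (b i : V.functionField))
    (hz : z ^ m + ∑ j, MvPolynomial.aeval (fun p : Fin n × Fin 3 =>
      ![1, x p.1, y p.1] p.2 / (1 + x p.1 ^ 2)) (h j) * z ^ (j : ℕ) +
      ∑ i, (t i : V.functionField) * z ^ (i : ℕ) = 0)
    (hdense : Dense (rationalPoints f)) : ∃ P z, OnPencil a b h t P z := by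
  obtain ⟨R, _, ι, v, φ, hinj, hv⟩ := exists_specialisation_fintype f
    (α := Option (Fin n × Fin 3)) (fun o => match o with
      | none => z
      | some (i, 0) => x i
      | some (i, 1) => y i
      | some (i, 2) => 1 / (1 + x i ^ 2)) hdense
  have vz : ι (v none) = z := hv none
  have vx : ∀ i, ι (v (some (i, 0))) = x i := fun i => hv (some (i, 0))
  have vy : ∀ i, ι (v (some (i, 1))) = y i := fun i => hv (some (i, 1))
  have vu : ∀ i, ι (v (some (i, 2))) = 1 / (1 + x i ^ 2) := fun i => hv (some (i, 2))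
  have hne : ∀ i, (1 + x i ^ 2 : V.functionField) ≠ 0 := by
    intro i h0
    have e : 1 + v (some (i, 0)) ^ 2 = 0 := by
      apply hinj
      simp only [map_add, map_one, map_pow, vx, map_zero]
      exact h0
    have := congrArg φ e
    simp only [map_add, map_one, map_pow, map_zero] at this
    nlinarith [sq_nonneg (φ (v (some (i, 0))))]
  have e1 : ∀ i, v (some (i, 1)) ^ 2 = v (some (i, 0)) ^ 3 + (a i : R) * v (some (i, 0)) +
      (b i : R) := by
    intro i
    apply hinj
    simp only [map_pow, map_add, map_mul, map_intCast, vx, vy]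
    exact hxy i
  have e3 : ∀ i, v (some (i, 2)) * (1 + v (some (i, 0)) ^ 2) = 1 := by
    intro i
    apply hinj
    simp only [map_pow, map_add, map_mul, map_one, vx, vu]
    rw [one_div, inv_mul_cancel₀ (hne i)]
  have e2 : v none ^ m + ∑ j, MvPolynomial.aeval (fun p : Fin n × Fin 3 =>
      ![1, v (some (p.1, 0)), v (some (p.1, 1))] p.2 * v (some (p.1, 2))) (h j) * v none ^ (j : ℕ) +
      ∑ i, (t i : R) * v none ^ (i : ℕ) = 0 := by
    apply hinj
    simp only [map_pow, map_add, map_mul, map_intCast, map_sum, vz, map_zero, map_aeval_int]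
    rw [← hz]
    have : (fun p : Fin n × Fin 3 => ι (![1, v (some (p.1, 0)), v (some (p.1, 1))] p.2) *
        ι (v (some (p.1, 2)))) = fun p : Fin n × Fin 3 =>
      ![1, x p.1, y p.1] p.2 / (1 + x p.1 ^ 2) := by
      funext p
      obtain ⟨i, j⟩ := p
      rw [vu, mul_one_div]
      congr 1
      fin_cases j
      · simp
      · simpa using vx i
      · simpa using vy i
    rw [this]
  have f1 : ∀ i, (φ (v (some (i, 1)))) ^ 2 = (φ (v (some (i, 0)))) ^ 3 +
      (a i : ℚ) * φ (v (some (i, 0))) + (b i : ℚ) := by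
    intro i
    have := congrArg φ (e1 i)
    simpa only [map_pow, map_add, map_mul, map_intCast] using this
  choose P hP using fun i => exists_at (hg i) (f1 i)
  refine ⟨P, φ (v none), ?_⟩
  have f2 := congrArg φ e2
  simp only [map_pow, map_add, map_mul, map_intCast, map_sum, map_zero, map_aeval_int] at f2
  unfold OnPencil
  rw [← f2]
  have : (fun p : Fin n × Fin 3 => coo p.2 (P p.1)) = fun p : Fin n × Fin 3 =>
      φ (![1, v (some (p.1, 0)), v (some (p.1, 1))] p.2) * φ (v (some (p.1, 2))) := by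
    funext p
    obtain ⟨i, j⟩ := p
    obtain ⟨hns, hh⟩ := hP i
    have f3 := congrArg φ (e3 i)
    simp only [map_mul, map_add, map_one, map_pow] at f3
    have f4 : φ (v (some (i, 2))) = 1 / (1 + φ (v (some (i, 0))) ^ 2) := by
      rw [one_div, eq_inv_of_mul_eq_one_left f3]
    simp only
    rw [hh, f4, ← div_eq_mul_one_div]
    fin_cases j <;> simp [coo]
  rw [this]

end Pool.Agent.Helper11.Cov
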