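import Pool.Agent.Helper11.Cov.Main
import Pool.Agent.Helper14.PS.Classes

/-!
# Power saving in the density theorem for covers

`family_bound` of project PS applied to complete linear systems: the coefficient vectors
`c ∈ [-H, H] ^ S` correspond to `t ∈ {0, …, 2 H} ^ k`, `k = #S`.
-/

set_option autoImplicit false

namespace Pool.Agent.Helper11.Cov

open WeierstrassCurve Finset Pool.Agent.Helper14.PS

/-- The bad set depends on the vector of values only up to scaling. -/
theorem BadSet_scale {n : ℕ} {m : ℕ} {d : Fin n → ℕ} {S : Finset (ℕ × (Fin n → ℕ × ℕ))}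
    (hS : Adm m d S) {l : ℕ} [hl : Fact l.Prime] {v v' : S → ZMod l} {u : ZMod l} (hu : u ≠ 0)
    (hv : ∀ s : S, v' s = u ^ s.1.1 * v s) : BadSet m S l v ⊆ BadSet m S l v' := by
  intro c hc
  rw [mem_BadSet] at hc ⊢
  obtain ⟨Z, hZ⟩ := hc
  refine ⟨u * Z, ?_⟩
  have e : (u * Z) ^ m + ∑ s : S, c s * v' s * (u * Z) ^ (m - s.1.1) =
      u ^ m * (Z ^ m + ∑ s : S, c s * v s * Z ^ (m - s.1.1)) := by
    rw [mul_add, mul_pow, Finset.mul_sum]
    congr 1
    refine Finset.sum_congr rfl fun s _ => ?_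
    have hs := hS.1 s.1 s.2
    rw [hv s]
    have : u ^ m = u ^ s.1.1 * u ^ (m - s.1.1) := by
      rw [← pow_add]; congr 1; omega
    rw [this, mul_pow]
    ring
  rw [e, hZ, mul_zero]

/-- **Power saving for covers.** -/
theorem covers_power {n : ℕ} {a b : Fin n → ℤ} {m : ℕ} {d : Fin n → ℕ}
    {S : Finset (ℕ × (Fin n → ℕ × ℕ))} (hK : Key5 a b) (hm : 2 ≤ m) (hS : Adm m d S)
    [DecidablePred fun c : S → ℤ => ∃ P z, OnCover a b m d S c P z] :
    ∃ H₀ : ℕ, ∀ H : ℕ, H₀ ≤ H → (#{c ∈ Box S H | ∃ P z, OnCover a b m d S c P z} : ℝ) ≤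
      (2 * H + 1 : ℝ) ^ ((#S : ℝ) - 1 / 2000) := by
  classical
  set θ : ℝ := 1 - 2 / (3 * m) with hθ
  have hm' : (2:ℝ) ≤ m := by exact_mod_cast hm
  have hθ0 : 0 ≤ θ := by
    rw [hθ]
    have : 2 / (3 * (m:ℝ)) < 1 := by rw [div_lt_one (by positivity)]; linarith
    linarith
  have hθ1 : θ < 1 := by
    rw [hθ]
    have : 0 < 2 / (3 * (m:ℝ)) := by positivity
    linarith
  set k : ℕ := Fintype.card S with hk
  have hkS : k = #S := Fintype.card_coe S
  have hk1 : 1 ≤ k := by
    obtain ⟨s, hs, -⟩ := hS.2 m (Or.inl rfl) ∅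
    rw [hkS]
    exact Finset.card_pos.mpr ⟨s, hs⟩
  let e : S ≃ Fin k := Fintype.equivFin S
  obtain ⟨N₀, hN₀⟩ := family_bound hK (k := k) hk1 hθ0 hθ1
  refine ⟨N₀, fun H hH => ?_⟩
  choose Ac Bc Dc hrep using fun (i : Fin n) (Q : (E (a i) (b i)).Point) => exists_irep Q
  let vP : (∀ i, (E (a i) (b i)).Point) → ∀ l : ℕ, S → ZMod l := fun P l =>
    vec d S (fun i => (Ac i (P i) : ZMod l)) (fun i => (Bc i (P i) : ZMod l))
      (fun i => (Dc i (P i) : ZMod l))
  let Bd : (∀ i, (E (a i) (b i)).Point) → ∀ r : ℕ, Finset (Fin k → ZMod r) := fun P r =>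
    if hr : r.Prime then
      haveI : NeZero r := ⟨hr.ne_zero⟩
      (BadSet m S r (vP P r)).image (fun c i => c (e.symm i) + (H : ZMod r))
    else ∅
  have key := hN₀ (2 * H + 1) (by omega)
    (fun t P => ∃ z, OnCover a b m d S (fun s => t (e s) - H) P z) Bd ?_ ?_ ?_
  · -- the counting
    have h1 : #{c ∈ Box S H | ∃ P z, OnCover a b m d S c P z} ≤
        #{t ∈ Bx k (2 * H + 1) | ∃ P, ∃ z, OnCover a b m d S (fun s => t (e s) - H) P z} := by
      refine Finset.card_le_card_of_injOn (fun c i => c (e.symm i) + H) ?_ ?_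
      · intro c hc
        rw [Finset.mem_coe, Finset.mem_filter] at hc ⊢
        refine ⟨?_, ?_⟩
        · rw [mem_Bx]
          intro i
          have h2 := hc.1
          rw [Box, Fintype.mem_piFinset] at h2
          have h3 := h2 (e.symm i)
          rw [Finset.mem_Icc] at h3
          push_cast
          omega
        · obtain ⟨P, z, h2⟩ := hc.2
          refine ⟨P, z, ?_⟩
          have h3 : (fun s => c (e.symm (e s)) + (H : ℤ) - H) = c := by
            funext s
            rw [Equiv.symm_apply_apply]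
            ring
          rw [h3]
          exact h2
      · intro c _ c' _ h
        funext s
        have h2 := congrFun h (e s)
        simp only [Equiv.symm_apply_apply] at h2
        omega
    refine le_trans (by exact_mod_cast h1) (key.trans (le_of_eq ?_))
    rw [hkS]
    push_cast
    rfl
  · -- the number of bad residues
    intro P r hr h4
    have hF : Fact r.Prime := ⟨hr⟩
    have : NeZero r := ⟨hr.ne_zero⟩
    simp only [Bd, dif_pos hr]
    have h3 : 3 ≤ r := by omega
    have h2 : (2 : ZMod r) ≠ 0 := by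
      intro h0
      have : ((2 : ℕ) : ZMod r) = 0 := by exact_mod_cast h0
      rw [ZMod.natCast_eq_zero_iff] at this
      have := Nat.le_of_dvd (by norm_num) this
      omega
    obtain ⟨s₀, hs₀, hv₀⟩ := vec_ne hS (l := r) (fun i => hrep i (P i)) (Or.inl (rfl : m = m))
    have := count_bad' (F := ZMod r) (ι := S) h2 (by rw [ZMod.card]; exact h3) hm
      (fun s => s.1.1) (fun s => ⟨(hS.1 s.1 s.2).1, (hS.1 s.1 s.2).2.1⟩) (vP P r) s₀ hs₀ hv₀
      (fun h2m => by
        obtain ⟨s₁, hs₁, hv₁⟩ := vec_ne hS (l := r) (fun i => hrep i (P i))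
          (k := m - 1) (Or.inr ⟨by omega, h2m⟩)
        exact ⟨s₁, by omega, hv₁⟩) (BadSet m S r (vP P r)) (fun c hc => mem_BadSet.mp hc)
    have h5 : (3 * m : ℝ) * #(BadSet m S r (vP P r)) ≤ (3 * m - 2 : ℝ) * (r : ℝ) ^ k := by
      have h6 := (Nat.cast_le (α := ℝ)).mpr this
      have h7 : 2 ≤ 3 * m := by omega
      push_cast [h7] at h6
      rw [Fintype.card_fun, ZMod.card] at h6
      push_cast at h6
      exact h6
    have hm0 : (0:ℝ) < 3 * m := by positivity
    have h8 : θ * (r : ℝ) ^ k = ((3 * m - 2 : ℝ) * (r : ℝ) ^ k) / (3 * m) := by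
      rw [hθ]; field_simp
    rw [h8, le_div_iff₀ hm0]
    have h9 : (#((BadSet m S r (vP P r)).image (fun c i => c (e.symm i) + (H : ZMod r))) : ℝ) ≤
        #(BadSet m S r (vP P r)) := by exact_mod_cast Finset.card_image_le
    nlinarith
  · -- reduction
    rintro t P r hr h4 ⟨z, hc⟩
    have hF : Fact r.Prime := ⟨hr⟩
    have : NeZero r := ⟨hr.ne_zero⟩
    simp only [Bd, dif_pos hr]
    rw [Finset.mem_image]
    obtain ⟨Z, hZ⟩ := integral_solution hS hc (fun i => hrep i (P i))
    refine ⟨fun s => ((t (e s) - H : ℤ) : ZMod r), ?_, ?_⟩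
    · rw [mem_BadSet]
      refine ⟨(Z : ZMod r), ?_⟩
      have := congrArg (Int.cast : ℤ → ZMod r) hZ
      push_cast at this
      rw [← this]
      push_cast
      congr 1
      refine Finset.sum_congr rfl fun s _ => ?_
      simp only [vP, vec, mono]
      push_cast
      rfl
    · funext i
      simp only [Equiv.apply_symm_apply]
      push_cast
      ring
  · -- classes
    intro P P' r hF h4 hPP'
    have hr : r.Prime := hF.out
    have : NeZero r := ⟨hr.ne_zero⟩
    simp only [Bd, dif_pos hr]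
    obtain ⟨u, hu, hv⟩ := vec_cong hS (l := r) (fun i => hrep i (P i)) (fun i => hrep i (P' i)) hPP'
    have h1 : BadSet m S r (vP P r) = BadSet m S r (vP P' r) := by
      apply Finset.Subset.antisymm
      · exact BadSet_scale hS hu hv
      · refine BadSet_scale hS (inv_ne_zero hu) fun s => ?_
        have h2 : vP P' r s = u ^ s.1.1 * vP P r s := hv s
        rw [h2, ← mul_assoc, ← mul_pow, inv_mul_cancel₀ hu, one_pow, one_mul]
    rw [h1]

end Pool.Agent.Helper11.Cov
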