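import Pool.Agent.Helper11.Cov.NewPrimes
import Pool.Agent.Helper11.Cov.Main
import Pool.Agent.Helper51.MordellWeil

/-!
# Elliptic curves of rank at most one
-/

namespace Pool.Agent.Helper11.Cov

open WeierstrassCurve Finset Pool.Agent.Helper51

section
variable {a b : ℤ}

lemma isElliptic (hg : Good a b) : (E a b).IsElliptic := by
  apply MW.isElliptic_short
  have h1 : ((4 * a ^ 3 + 27 * b ^ 2 : ℤ) : ℚ) ≠ 0 := by exact_mod_cast hg
  push_cast at h1
  exact mul_ne_zero (by norm_num) h1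

lemma hx_eq_log (P : (E a b).Point) : Par.hx P = Real.log (hgt P) := by
  rcases P with _ | ⟨x, y, h⟩
  · have : Par.hx (0 : (E a b).Point) = 0 := Par.hx_zero
    rw [show (Affine.Point.zero : (E a b).Point) = 0 from rfl, this]
    change 0 = Real.log ((1 : ℕ) : ℝ)
    simp
  · exact Par.hx_rat h

lemma height_constants (hg : Good a b) : ∃ c : ℝ, 0 < c ∧
    (∀ P : (E a b).Point, c * (hgt P : ℝ) ^ 4 ≤ hgt (2 • P)) ∧
    (∀ P : (E a b).Point, c * (hgt P : ℝ) ^ 9 ≤ hgt (3 • P)) := by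
  have := isElliptic hg
  obtain ⟨C₂, h2⟩ := Par.hx_two (E a b)
  obtain ⟨C₃, h3⟩ := Par.hx_three (E a b)
  refine ⟨Real.exp (-(max C₂ C₃)), Real.exp_pos _, fun P => ?_, fun P => ?_⟩
  · have h := (abs_le.mp (h2 P)).1
    rw [hx_eq_log, hx_eq_log] at h
    have p1 : (0:ℝ) < hgt P := by have := one_le_hgt P; exact_mod_cast this
    have p2 : (0:ℝ) < hgt (2 • P) := by have := one_le_hgt (2 • P); exact_mod_cast this
    rw [← Real.log_le_log_iff (by positivity) p2, Real.log_mul (Real.exp_pos _).ne' (by positivity),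
      Real.log_exp, Real.log_pow]
    have := le_max_left C₂ C₃
    push_cast
    linarith
  · have h := (abs_le.mp (h3 P)).1
    rw [hx_eq_log, hx_eq_log] at h
    have p1 : (0:ℝ) < hgt P := by have := one_le_hgt P; exact_mod_cast this
    have p2 : (0:ℝ) < hgt (3 • P) := by have := one_le_hgt (3 • P); exact_mod_cast this
    rw [← Real.log_le_log_iff (by positivity) p2, Real.log_mul (Real.exp_pos _).ne' (by positivity),
      Real.log_exp, Real.log_pow]
    have := le_max_right C₂ C₃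
    push_cast
    linarith

lemma finite_hgt (B : ℕ) : {P : (E a b).Point | hgt P ≤ B}.Finite := by
  refine (Par.northcott (E a b) (Real.log B)).subset ?_
  intro P hP
  rw [Set.mem_ofPred_eq] at hP ⊢
  rw [hx_eq_log]
  have p1 : (0:ℝ) < hgt P := by have := one_le_hgt P; exact_mod_cast this
  exact Real.log_le_log p1 (by exact_mod_cast hP)

/-- A finitely generated abelian group of rank at most one is cyclic modulo torsion. -/
lemma cyclic_mod_torsion {Γ : Type*} [AddCommGroup Γ] (hFG : AddGroup.FG Γ)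
    (h : Module.finrank ℤ Γ ≤ 1) : ∃ G : Γ, ∀ P, ∃ k : ℤ, IsOfFinAddOrder (P - k • G) := by
  have : Module.Finite ℤ Γ := Module.Finite.iff_addGroup_fg.mpr hFG
  set T := Submodule.torsion ℤ Γ with hT
  have hfree : Module.Free ℤ (Γ ⧸ T) := by
    have : Module.Finite ℤ (Γ ⧸ T) := inferInstance
    infer_instance
  have hrank : Module.finrank ℤ (Γ ⧸ T) ≤ 1 := by
    refine le_trans ?_ h
    exact (Module.finrank_le_finrank_of_rank_le_rank (by
      simpa using rank_quotient_le T) (Module.rank_lt_aleph0 ℤ Γ))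
  obtain ⟨g, hg⟩ : ∃ g : Γ ⧸ T, ∀ x, ∃ k : ℤ, x = k • g := by
    have := finrank_le_one_iff.mp hrank
    obtain ⟨g, hg⟩ := this
    exact ⟨g, fun x => by obtain ⟨k, hk⟩ := hg x; exact ⟨k, hk.symm⟩⟩
  obtain ⟨G, rfl⟩ := Submodule.Quotient.mk_surjective T g
  refine ⟨G, fun P => ?_⟩
  obtain ⟨k, hk⟩ := hg (Submodule.Quotient.mk P)
  refine ⟨k, ?_⟩
  rw [← Submodule.Quotient.mk_smul, Submodule.Quotient.eq] at hk
  rw [hT, Submodule.mem_torsion_iff] at hk
  obtain ⟨⟨n, hn⟩, hn'⟩ := hk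
  rw [isOfFinAddOrder_iff_zsmul_eq_zero]
  exact ⟨n, nonZeroDivisors.ne_zero hn, hn'⟩

/-- finite generating families -/
lemma exists_generators {Γ : Type*} [AddCommGroup Γ] (hFG : AddGroup.FG Γ) :
    ∃ g : ℕ, ∃ G : Fin g → Γ, ∀ P, ∃ k : Fin g → ℤ, P = ∑ j, k j • G j := by
  have : Module.Finite ℤ Γ := Module.Finite.iff_addGroup_fg.mpr hFG
  obtain ⟨g, G, hG⟩ := Module.Finite.exists_fin (R := ℤ) (M := Γ)
  refine ⟨g, G, fun P => ?_⟩
  have : P ∈ Submodule.span ℤ (Set.range G) := by rw [hG]; trivial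
  obtain ⟨k, hk⟩ := (Submodule.mem_span_range_iff_exists_fun ℤ).mp this
  exact ⟨k, hk.symm⟩

lemma exists_primes (N : ℕ) : ∃ R : Finset ℕ, (∀ r ∈ R, Nat.Prime r ∧ 3 ≤ r) ∧ #R = N := by
  have hinf : {p : ℕ | p.Prime ∧ 3 ≤ p}.Infinite := by
    have h1 : {p : ℕ | p.Prime ∧ 3 ≤ p} = {p : ℕ | p.Prime} \ {p : ℕ | p < 3} := by
      ext p; simp
    rw [h1]
    exact Nat.infinite_setOf_prime.sdiff (Set.finite_lt_nat 3)
  obtain ⟨R, hR, hR'⟩ := hinf.exists_subset_card_eq N
  exact ⟨R, fun r hr => hR hr, hR'⟩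

/-- The key property for powers of an elliptic curve of rank at most one. -/
theorem key_rank_one (hg : Good a b) (hr : Module.finrank ℤ (E a b).Point ≤ 1) (n : ℕ) :
    Key (fun _ : Fin n => a) (fun _ : Fin n => b) := by
  have hell := isElliptic hg
  have hFG : AddGroup.FG (E a b).Point := MW.mordell_weil (E a b)
  refine ⟨fun _ => exists_generators hFG, fun C => ?_⟩
  obtain ⟨G, hG⟩ := cyclic_mod_torsion hFG hr
  have hfinT : Finite (AddCommGroup.torsion (E a b).Point) := MW.finite_torsion (E a b)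
  set T := Nat.card (AddCommGroup.torsion (E a b).Point) with hT
  have hT0 : 0 < T := Nat.card_pos
  have hTt : ∀ t : (E a b).Point, IsOfFinAddOrder t → T • t = 0 := by
    intro t ht
    have h2 : T • (⟨t, ht⟩ : AddCommGroup.torsion (E a b).Point) = 0 := card_nsmul_eq_zero'
    exact congrArg Subtype.val h2
  by_cases htor : IsOfFinAddOrder G
  · obtain ⟨N, hN⟩ := exists_nat_ge (C * (1 + Real.log T))
    obtain ⟨R, hR, hR'⟩ := exists_primes N
    have key : ∀ (r : ℕ) (P : (E a b).Point), InH r (T • P) := by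
      intro r P
      obtain ⟨k, hk⟩ := hG P
      have h1 := hTt _ hk
      have h2 : T • P = 0 := by
        rw [nsmul_sub, sub_eq_zero] at h1
        rw [h1, smul_comm, hTt G htor, zsmul_zero]
      rw [h2]
      exact inH_zero
    exact ⟨T, hT0, R, fun r hr => ⟨⟨(hR r hr).1⟩, (hR r hr).2, fun _ P => key r P⟩,
      by rw [hR']; exact hN⟩
  · obtain ⟨c, hc, h2, h3⟩ := height_constants hg
    have hG0 : ∀ n : ℕ, 0 < n → n • G ≠ 0 := by
      intro n hn h0
      exact htor (isOfFinAddOrder_iff_nsmul_eq_zero.mpr ⟨n, hn, h0⟩)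
    obtain ⟨M, hM, hTM, R, hR, hcard⟩ := many_primes hg hc h2 h3 finite_hgt G hG0 T hT0 C
    refine ⟨M, hM, R, fun r hr => ?_, hcard⟩
    obtain ⟨hrF, hr3, hr4⟩ := hR r hr
    have key : ∀ P : (E a b).Point, InH r (M • P) := by
      intro P
      obtain ⟨k, hk⟩ := hG P
      have h5 : M • (P - k • G) = 0 := by
        obtain ⟨q, rfl⟩ := hTM
        rw [mul_comm, mul_nsmul', hTt _ hk, nsmul_zero]
      have h6 : M • P = k • (M • G) := by
        rw [nsmul_sub, sub_eq_zero] at h5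
        rw [h5, smul_comm]
      rw [h6]
      exact hr4.zsmul k
    exact ⟨hrF, hr3, fun _ P => key P⟩

end

end Pool.Agent.Helper11.Cov
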