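import Pool.Agent.Helper6.CI.SS
import Pool.Agent.Helper11.Cov.Pencil

/-!
Products of elliptic curves which are supersingular modulo all large primes of a residue class: many
primes `r = 3 mod 4` with `r + 1 ∣ M`.
-/

namespace Pool.Agent.Helper11.Cov

open WeierstrassCurve Finset Pool.Agent.Helper10.SS Pool.Agent.Helper6.CI

theorem key4_ss {n : ℕ} (a b : Fin n → ℤ) (hg : ∀ i, Good (a i) (b i))
    (hab : ∀ i, Supersingular (a i) (b i)) : Key4 a b := by
  refine ⟨(key_ss a b hg hab).1, fun C => ?_⟩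
  choose m B hm hB using hab
  set D : ℕ := 4 * ∏ i, m i with hD
  have hD0 : 0 < D := Nat.mul_pos (by norm_num) (Finset.prod_pos fun i _ => hm i)
  set B' : ℕ := 3 + ∑ i, (B i + (4 * a i ^ 3 + 27 * b i ^ 2).natAbs) with hB'
  obtain ⟨M, T, hM, hT, hcard⟩ := Pool.Agent.Helper52.SmoothPrimes.smooth_primes_class
    (D := D) hD0 (D - 1) (by
      rw [Nat.coprime_self_sub_left hD0]
      exact Nat.coprime_one_left D) B' C
  refine ⟨M, by omega, T, fun r hr => ?_, hcard⟩
  obtain ⟨⟨hp, hrD⟩, hrB, hrM⟩ := hT r hr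
  have hF : Fact r.Prime := ⟨hp⟩
  have h1 : D ∣ r + 1 := by
    have h2 : (r + 1) % D = (D - 1 + 1) % D := by
      rw [Nat.add_mod, hrD, ← Nat.add_mod]
    rw [Nat.sub_add_cancel hD0, Nat.mod_self] at h2
    exact Nat.dvd_of_mod_eq_zero h2
  have h4 : 4 ∣ r + 1 := (Dvd.intro _ rfl).trans h1
  refine ⟨by omega, hF, fun i P => ?_⟩
  have hle : B i + (4 * a i ^ 3 + 27 * b i ^ 2).natAbs ≤
      ∑ i, (B i + (4 * a i ^ 3 + 27 * b i ^ 2).natAbs) :=
    Finset.single_le_sum (f := fun i => B i + (4 * a i ^ 3 + 27 * b i ^ 2).natAbs)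
      (fun _ _ => Nat.zero_le _) (Finset.mem_univ i)
  have hgood : GoodAt (a i) (b i) r := by
    refine ⟨by omega, fun hd => ?_⟩
    have h1 := Int.natCast_dvd.mp hd
    have h2 := Nat.le_of_dvd (Int.natAbs_pos.mpr (hg i)) h1
    omega
  have hdvd : m i ∣ r + 1 :=
    ((Finset.dvd_prod_of_mem m (Finset.mem_univ i)).trans (Dvd.intro_left _ rfl)).trans h1
  have h3 := hB i r hp (by omega) hdvd
  obtain ⟨q, hq⟩ := hrM
  have key : InH r ((r + 1) • P) := kill_of_card hgood
    (by rw [card_reduced (a i) (b i) hgood, h3]) P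
  have := key.nsmul q
  rwa [smul_smul, mul_comm, ← hq] at this

/-- The curves `y² = x³ + a x` and `y² = x³ + b` have the property. -/
theorem supersingular_of {a b : ℤ} (hab : 4 * a ^ 3 + 27 * b ^ 2 ≠ 0)
    (h : a = 0 ∨ b = 0 ∨ Supersingular a b) : Supersingular a b := by
  rcases h with h1 | h1 | h1
  · rw [h1] at hab ⊢
    exact supersingular_b _ (fun h2 => hab (by rw [h2]; norm_num))
  · rw [h1] at hab ⊢
    exact supersingular_a _ (fun h2 => hab (by rw [h2]; norm_num))
  · exact h1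

end Pool.Agent.Helper11.Cov
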