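import Pool.Agent.Helper11.Cov.Padic

/-!
# Translation by the kernel of reduction does not change the reduction
-/

namespace Pool.Agent.Helper11.Cov

open WeierstrassCurve

section
variable {a b : ℤ} {l : ℕ} [hl : Fact l.Prime]

lemma nadd {B x y : ℚ} (hx : padicNorm l x ≤ B) (hy : padicNorm l y ≤ B) :
    padicNorm l (x + y) ≤ B := padicNorm.nonarchimedean.trans (max_le hx hy)

lemma nsub {B x y : ℚ} (hx : padicNorm l x ≤ B) (hy : padicNorm l y ≤ B) :
    padicNorm l (x - y) ≤ B := padicNorm.sub.trans (max_le hx hy)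

lemma nmul {A B C x y : ℚ} (hx : padicNorm l x ≤ A) (hy : padicNorm l y ≤ B) (h : A * B ≤ C) :
    padicNorm l (x * y) ≤ C := by
  rw [padicNorm.mul]
  refine le_trans ?_ h
  have h1 : 0 ≤ padicNorm l x := padicNorm.nonneg _
  have h2 : 0 ≤ padicNorm l y := padicNorm.nonneg _
  exact mul_le_mul hx hy h2 (h1.trans hx)

lemma nint (n : ℤ) : padicNorm l (n : ℚ) ≤ 1 := padicNorm.of_int n

lemma nnat (n : ℕ) : padicNorm l (n : ℚ) ≤ 1 := by
  have := nint (l := l) (n : ℤ)
  simpa using this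

/-- the ring of `l`-integral numbers is closed under products -/
lemma nmul1 {x y : ℚ} (hx : padicNorm l x ≤ 1) (hy : padicNorm l y ≤ 1) :
    padicNorm l (x * y) ≤ 1 := nmul hx hy (by norm_num)

lemma npow1 {x : ℚ} (hx : padicNorm l x ≤ 1) (n : ℕ) : padicNorm l (x ^ n) ≤ 1 := by
  rw [norm_pow]; exact pow_le_one₀ (padicNorm.nonneg _) hx

lemma At.add_inH_cong {P S : (E a b).Point} {x y u w : ℚ} (hP : At P x y) (hS : At S u w)
    (hx : padicNorm l x ≤ 1) (hu : 1 < padicNorm l u) :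
    ∃ X Y, At (P + S) X Y ∧ padicNorm l (X - x) < 1 ∧ padicNorm l (Y - y) < 1 := by
  have hxu : x ≠ u := by rintro rfl; linarith
  have h := hP.add hS hxu
  have e1 := hP.eqn
  have e2 := hS.eqn
  have hy : padicNorm l y ≤ 1 := norm_y_le e1 hx
  have hw := norm_y_sq e2 hu
  have hd : u - x ≠ 0 := sub_ne_zero.mpr (Ne.symm hxu)
  have hd' : x - u ≠ 0 := sub_ne_zero.mpr hxu
  have nd : padicNorm l (u - x) = padicNorm l u := by
    rw [sub_eq_add_neg]
    apply norm_add_of_lt
    rw [padicNorm.neg]; linarith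
  set U := padicNorm l u with hU
  set W := padicNorm l w with hW
  have hU0 : 0 < U := by linarith
  have hW0 : 0 ≤ W := padicNorm.nonneg _
  have hUW : U ≤ W := by
    by_contra hc
    push Not at hc
    nlinarith [mul_pos hU0 hU0, mul_nonneg hW0 hW0]
  have hW1 : 1 ≤ W := by linarith
  have hWU : W < U ^ 2 := by
    by_contra hc
    push Not at hc
    have h3 : (U ^ 2) * (U ^ 2) ≤ W * W := mul_le_mul hc hc (by positivity) hW0
    nlinarith [pow_pos hU0 3]
  refine ⟨_, _, h, ?_, ?_⟩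
  · set N : ℚ := a * u + b - 2 * w * y + y ^ 2 + 3 * u * x ^ 2 - 2 * x ^ 3 with hN
    have key : (((y - w) / (x - u)) ^ 2 - x - u) - x = N / (u - x) ^ 2 := by
      rw [hN]
      field_simp
      have h5 : (x - u) ^ 2 = (u - x) ^ 2 := by ring
      rw [h5]
      linear_combination (u - x) ^ 2 * e2
    rw [key, padicNorm.div, norm_pow, nd, div_lt_one (by positivity)]
    refine lt_of_le_of_lt ?_ hWU
    have hx2 := npow1 hx 2
    have hx3 := npow1 hx 3
    have hy2 := npow1 hy 2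
    refine nsub (nadd (nadd (nsub (nadd ?_ ?_) ?_) ?_) ?_) ?_
    · exact (nmul (nint a) le_rfl (by rw [one_mul])).trans hUW
    · exact (nint b).trans hW1
    · exact nmul (nmul (nnat 2) le_rfl (le_of_eq (one_mul _))) hy (by rw [mul_one])
    · exact hy2.trans hW1
    · exact nmul (nmul (nnat 3) le_rfl (le_of_eq (one_mul _))) hx2 (by rw [mul_one]; exact hUW)
    · exact (nmul1 (nnat 2) hx3).trans hW1
  · set N' : ℚ := w * (a * u + b + y ^ 2 + 3 * u * x ^ 2 - 2 * x ^ 3) - 2 * y * (a * u + b)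
        - y * (a * u + b - 2 * w * y + y ^ 2 + 3 * u * x ^ 2 - 2 * x ^ 3)
        + 2 * y * (-3 * u ^ 2 * x + 3 * u * x ^ 2 - x ^ 3) with hN'
    have key : (-((y - w) / (x - u) * (((y - w) / (x - u)) ^ 2 - x - u - x) + y)) - y =
        - (N' / (u - x) ^ 3) := by
      have key1 : ((y - w) / (x - u)) ^ 2 - x - u - x =
          (a * u + b - 2 * w * y + y ^ 2 + 3 * u * x ^ 2 - 2 * x ^ 3) / (u - x) ^ 2 := by
        field_simp
        have h5 : (x - u) ^ 2 = (u - x) ^ 2 := by ring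
        rw [h5]
        linear_combination (u - x) ^ 2 * e2
      rw [key1, hN']
      have h6 : (y - w) / (x - u) = (w - y) / (u - x) := by
        rw [div_eq_div_iff hd' hd]; ring
      rw [h6]
      field_simp
      linear_combination (2 * y) * e2
    rw [key, padicNorm.neg, padicNorm.div, norm_pow, nd, div_lt_one (by positivity)]
    have hx2 := npow1 hx 2
    have hx3 := npow1 hx 3
    have hy2 := npow1 hy 2
    have hlt : W * U < U ^ 3 := by
      have := mul_lt_mul_of_pos_right hWU hU0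
      calc W * U < U ^ 2 * U := this
        _ = U ^ 3 := by ring
    refine lt_of_le_of_lt ?_ hlt
    have hWWU : W ≤ W * U := by nlinarith
    have hUWU : U ≤ W * U := by nlinarith
    have hUUWU : U ^ 2 ≤ W * U := by nlinarith
    have h1WU : 1 ≤ W * U := by nlinarith
    have b1 : padicNorm l ((a : ℚ) * u + b) ≤ U :=
      nadd (nmul (nint a) le_rfl (by rw [one_mul])) ((nint b).trans (by linarith))
    have b2 : padicNorm l (3 * u * x ^ 2) ≤ U :=
      nmul (nmul (nnat 3) le_rfl (le_of_eq (one_mul _))) hx2 (by rw [mul_one])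
    have b3 : padicNorm l ((2:ℚ) * x ^ 3) ≤ U := (nmul1 (nnat 2) hx3).trans (by linarith)
    have b4 : padicNorm l ((a : ℚ) * u + b + y ^ 2 + 3 * u * x ^ 2 - 2 * x ^ 3) ≤ U :=
      nsub (nadd (nadd b1 (hy2.trans (by linarith))) b2) b3
    have b5 : padicNorm l ((2:ℚ) * y) ≤ 1 := nmul1 (nnat 2) hy
    have b6 : padicNorm l ((a : ℚ) * u + b - 2 * w * y + y ^ 2 + 3 * u * x ^ 2 - 2 * x ^ 3) ≤ W := by
      refine nsub (nadd (nadd (nsub (b1.trans hUW) ?_) (hy2.trans hW1)) (b2.trans hUW))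
        (b3.trans hUW)
      exact nmul (nmul (nnat 2) le_rfl (le_of_eq (one_mul _))) hy (by rw [mul_one])
    have hU2 : 1 ≤ U ^ 2 := by nlinarith
    have hUU2 : U ≤ U ^ 2 := by nlinarith
    have b7 : padicNorm l ((-3 : ℚ) * u ^ 2 * x) ≤ U ^ 2 := by
      have h3 : padicNorm l ((-3 : ℚ)) ≤ 1 := by
        have := nint (l := l) (-3); simpa using this
      have h4 : padicNorm l (u ^ 2) ≤ U ^ 2 := by rw [norm_pow]
      have h5 : padicNorm l ((-3 : ℚ) * u ^ 2) ≤ U ^ 2 := nmul h3 h4 (le_of_eq (one_mul _))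
      exact nmul h5 hx (by rw [mul_one])
    have b8 : padicNorm l ((-3 : ℚ) * u ^ 2 * x + 3 * u * x ^ 2 - x ^ 3) ≤ U ^ 2 :=
      nsub (nadd b7 (b2.trans hUU2)) (hx3.trans hU2)
    have c1 : padicNorm l (w * (a * u + b + y ^ 2 + 3 * u * x ^ 2 - 2 * x ^ 3)) ≤ W * U :=
      nmul le_rfl b4 le_rfl
    have c2 : padicNorm l (2 * y * (a * u + b)) ≤ W * U :=
      nmul b5 b1 (by rw [one_mul]; exact hUWU)
    have c3 : padicNorm l (y * (a * u + b - 2 * w * y + y ^ 2 + 3 * u * x ^ 2 - 2 * x ^ 3)) ≤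
        W * U := nmul hy b6 (by rw [one_mul]; exact hWWU)
    have c4 : padicNorm l (2 * y * ((-3 : ℚ) * u ^ 2 * x + 3 * u * x ^ 2 - x ^ 3)) ≤ W * U :=
      nmul b5 b8 (by rw [one_mul]; exact hUUWU)
    rw [hN']
    exact nadd (nsub (nsub c1 c2) c3) c4

end

end Pool.Agent.Helper11.Cov
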